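import Pool.Agent.H69.LB.Model
import Pool.Graph.R_pool_sql_team_seeded_3997aac3.Q198.CI.L1

/-! # Counting -/

set_option autoImplicit false

namespace Pool.Agent.H69.LB

open Finset

/-- the primes which influence `n` -/
def L (n : ℕ) : Finset ℕ := Lp n ∪ Lm n

lemma mem_L {p n : ℕ} : p ∈ L n ↔ Act p n ∧ (p ∣ 2 * n + 1 ∨ p ∣ 3 * n + 1) := by
  unfold L
  rw [mem_union, mem_Lp, mem_Lm]
  tauto

lemma mem_Ch {β n : ℕ} : β ∈ Ch n ↔ β = 2 * n + 1 ∨ ∃ p ∈ L n, β = 2 * p := by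
  unfold Ch L
  rw [mem_insert, mem_image]
  constructor
  · rintro (h | ⟨p, hp, h⟩)
    · exact Or.inl h
    · exact Or.inr ⟨p, hp, h.symm⟩
  · rintro (h | ⟨p, hp, h⟩)
    · exact Or.inl h
    · exact Or.inr ⟨p, hp, h.symm⟩

lemma modEq_of_dvd {p c m m' : ℕ} (hc : Nat.Coprime p c) (h : p ∣ c * m + 1)
    (h' : p ∣ c * m' + 1) : m ≡ m' [MOD p] := by
  have h1 : c * m + 1 ≡ c * m' + 1 [MOD p] :=
    ((Nat.modEq_zero_iff_dvd.2 h).trans (Nat.modEq_zero_iff_dvd.2 h').symm)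
  have h2 : c * m ≡ c * m' [MOD p] := Nat.ModEq.add_right_cancel' 1 h1
  exact Nat.ModEq.cancel_left_of_coprime hc h2

lemma coprime_small {p c : ℕ} (hp : p.Prime) (hc : 0 < c) (h : c < p) : Nat.Coprime p c :=
  (Nat.coprime_primes_or hp hc h)
where
  Nat.coprime_primes_or {p c : ℕ} (hp : p.Prime) (hc : 0 < c) (h : c < p) : Nat.Coprime p c := by
    rw [Nat.Prime.coprime_iff_not_dvd hp]
    exact fun hd => absurd (Nat.le_of_dvd hc hd) (not_le.2 h)

lemma flag_modEq {p m m' : ℕ} (hm : p ∈ L m) (hm' : p ∈ L m')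
    (hf : p ∣ 2 * m + 1 ↔ p ∣ 2 * m' + 1) : m ≡ m' [MOD p] := by
  obtain ⟨⟨hp, h25, _, _⟩, h1⟩ := mem_L.1 hm
  obtain ⟨_, h2⟩ := mem_L.1 hm'
  by_cases h : p ∣ 2 * m + 1
  · exact modEq_of_dvd (coprime_small hp (by norm_num) (by omega)) h (hf.1 h)
  · have h3 : p ∣ 3 * m + 1 := h1.resolve_left h
    have h4 : p ∣ 3 * m' + 1 := h2.resolve_left fun h' => h (hf.2 h')
    exact modEq_of_dvd (coprime_small hp (by norm_num) (by omega)) h3 h4

/-- few integers are influenced by a given prime -/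
lemma card_one {p h : ℕ} (I : Finset ℕ) (hI : ∀ n ∈ I, p ∈ L (n + h)) : I.card ≤ 8 * p := by
  classical
  have hmap : ∀ n ∈ I, (decide (p ∣ 2 * (n + h) + 1), (n + h) / p) ∈
      (univ : Finset Bool) ×ˢ range (4 * p) := by
    intro n hn
    obtain ⟨⟨hp, _, _, h3⟩, _⟩ := mem_L.1 (hI n hn)
    rw [mem_product]
    refine ⟨mem_univ _, mem_range.2 ?_⟩
    rw [Nat.div_lt_iff_lt_mul hp.pos]
    nlinarith
  have hinj : Set.InjOn (fun n => (decide (p ∣ 2 * (n + h) + 1), (n + h) / p)) (I : Set ℕ) := by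
    intro a ha b hb hab
    simp only [Prod.mk.injEq, decide_eq_decide] at hab
    have h1 := flag_modEq (hI a ha) (hI b hb) hab.1
    have h2 : a + h = b + h := by
      rw [← Nat.div_add_mod (a + h) p, ← Nat.div_add_mod (b + h) p, hab.2, h1]
    omega
  calc I.card ≤ ((univ : Finset Bool) ×ˢ range (4 * p)).card :=
        card_le_card_of_injOn _ hmap hinj
    _ = 8 * p := by
        rw [card_product, card_range, card_univ, Fintype.card_bool]
        ring

/-- very few integers are influenced by two given primes -/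
lemma card_two {p p' h h' : ℕ} (hpp : p ≠ p') (I : Finset ℕ)
    (hI : ∀ n ∈ I, p ∈ L (n + h) ∧ p' ∈ L (n + h')) : I.card ≤ 16 := by
  classical
  have hmap : ∀ n ∈ I, (decide (p ∣ 2 * (n + h) + 1), decide (p' ∣ 2 * (n + h') + 1),
      n / (p * p')) ∈ (univ : Finset Bool) ×ˢ (univ : Finset Bool) ×ˢ range 4 := by
    intro n hn
    obtain ⟨⟨hp, _, _, h3⟩, _⟩ := mem_L.1 (hI n hn).1
    obtain ⟨⟨hp', _, _, h3'⟩, _⟩ := mem_L.1 (hI n hn).2
    rw [mem_product, mem_product]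
    refine ⟨mem_univ _, mem_univ _, mem_range.2 ?_⟩
    rw [Nat.div_lt_iff_lt_mul (Nat.mul_pos hp.pos hp'.pos)]
    rcases le_total p p' with hle | hle
    · nlinarith [Nat.mul_le_mul_left p hle]
    · nlinarith [Nat.mul_le_mul_right p' hle]
  have hinj : Set.InjOn (fun n => (decide (p ∣ 2 * (n + h) + 1), decide (p' ∣ 2 * (n + h') + 1),
      n / (p * p'))) (I : Set ℕ) := by
    intro a ha b hb hab
    simp only [Prod.mk.injEq, decide_eq_decide] at hab
    have hp := (mem_L.1 (hI a ha).1).1.1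
    have hp' := (mem_L.1 (hI a ha).2).1.1
    have h1 := Nat.ModEq.add_right_cancel' h (flag_modEq (hI a ha).1 (hI b hb).1 hab.1)
    have h2 := Nat.ModEq.add_right_cancel' h' (flag_modEq (hI a ha).2 (hI b hb).2 hab.2.1)
    have hco : Nat.Coprime p p' := (Nat.coprime_primes hp hp').2 hpp
    have h3 : a ≡ b [MOD p * p'] := (Nat.modEq_and_modEq_iff_modEq_mul hco).1 ⟨h1, h2⟩
    rw [← Nat.div_add_mod a (p * p'), ← Nat.div_add_mod b (p * p'), hab.2.2, h3]
  calc I.card ≤ ((univ : Finset Bool) ×ˢ (univ : Finset Bool) ×ˢ range 4).card :=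
        card_le_card_of_injOn _ hmap hinj
    _ = 16 := by
        rw [card_product, card_product, card_range, card_univ, Fintype.card_bool]

lemma card_primeFactors_le (n : ℕ) (hn : n ≠ 0) : n.primeFactors.card ≤ Nat.log 2 n := by
  apply Nat.le_log_of_pow_le (by norm_num)
  calc 2 ^ n.primeFactors.card ≤ ∏ p ∈ n.primeFactors, p := by
        rw [← prod_const]
        exact prod_le_prod' fun p hp => (Nat.prime_of_mem_primeFactors hp).two_le
    _ ≤ n := Nat.le_of_dvd (Nat.pos_of_ne_zero hn) (Nat.prod_primeFactors_dvd n)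

/-- a prime with an influence on two shifts divides one of few integers -/
lemma dvd_of_common {p n h h' : ℕ} (hh : h < h') (h1 : p ∈ L (n + h)) (h2 : p ∈ L (n + h')) :
    p ∣ (h' - h) * ((6 * (h' - h) + 1) * (6 * (h' - h) - 1)) := by
  obtain ⟨⟨hp, h25, _, _⟩, a1⟩ := mem_L.1 h1
  obtain ⟨_, a2⟩ := mem_L.1 h2
  obtain ⟨D, hD⟩ : ∃ D, h' = h + D := ⟨h' - h, by omega⟩
  have hD0 : 0 < D := by omega
  have hD' : h' - h = D := by omega
  rw [hD'] 
  have hz : ∀ c : ℕ, 0 < c → c < 25 → (p : ℤ) ∣ (c : ℤ) * D → p ∣ D := by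
    intro c hc0 hc hd
    have : p ∣ c * D := by exact_mod_cast hd
    exact (coprime_small hp hc0 (by omega)).dvd_of_dvd_mul_left this
  rcases a1 with a1 | a1 <;> rcases a2 with a2 | a2
  · -- `2 2`
    have b1 : (p : ℤ) ∣ 2 * ((n : ℤ) + h) + 1 := by exact_mod_cast a1
    have b2 : (p : ℤ) ∣ 2 * ((n : ℤ) + (h + D)) + 1 := by rw [hD] at a2; exact_mod_cast a2
    have b3 : (p : ℤ) ∣ 2 * D := by
      have := dvd_sub b2 b1
      have e : 2 * ((n : ℤ) + (h + D)) + 1 - (2 * ((n : ℤ) + h) + 1) = 2 * D := by ring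
      rwa [e] at this
    exact (hz 2 (by norm_num) (by norm_num) (by exact_mod_cast b3)).mul_right _
  · -- `2 3`
    have b1 : (p : ℤ) ∣ 2 * ((n : ℤ) + h) + 1 := by exact_mod_cast a1
    have b2 : (p : ℤ) ∣ 3 * ((n : ℤ) + (h + D)) + 1 := by rw [hD] at a2; exact_mod_cast a2
    have b3 : (p : ℤ) ∣ ((6 * D - 1 : ℕ) : ℤ) := by
      have := dvd_sub (b2.mul_left 2) (b1.mul_left 3)
      have e : 2 * (3 * ((n : ℤ) + (h + D)) + 1) - 3 * (2 * ((n : ℤ) + h) + 1) =
          ((6 * D - 1 : ℕ) : ℤ) := by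
        push_cast [Nat.cast_sub (show 1 ≤ 6 * D by omega)]
        ring
      rwa [e] at this
    exact ((Int.natCast_dvd_natCast.1 b3).mul_left _).mul_left _
  · -- `3 2`
    have b1 : (p : ℤ) ∣ 3 * ((n : ℤ) + h) + 1 := by exact_mod_cast a1
    have b2 : (p : ℤ) ∣ 2 * ((n : ℤ) + (h + D)) + 1 := by rw [hD] at a2; exact_mod_cast a2
    have b3 : (p : ℤ) ∣ ((6 * D + 1 : ℕ) : ℤ) := by
      have := dvd_sub (b2.mul_left 3) (b1.mul_left 2)
      have e : 3 * (2 * ((n : ℤ) + (h + D)) + 1) - 2 * (3 * ((n : ℤ) + h) + 1) =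
          ((6 * D + 1 : ℕ) : ℤ) := by
        push_cast
        ring
      rwa [e] at this
    exact ((Int.natCast_dvd_natCast.1 b3).mul_right _).mul_left _
  · -- `3 3`
    have b1 : (p : ℤ) ∣ 3 * ((n : ℤ) + h) + 1 := by exact_mod_cast a1
    have b2 : (p : ℤ) ∣ 3 * ((n : ℤ) + (h + D)) + 1 := by rw [hD] at a2; exact_mod_cast a2
    have b3 : (p : ℤ) ∣ 3 * D := by
      have := dvd_sub b2 b1
      have e : 3 * ((n : ℤ) + (h + D)) + 1 - (3 * ((n : ℤ) + h) + 1) = 3 * D := by ring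
      rwa [e] at this
    exact (hz 3 (by norm_num) (by norm_num) (by exact_mod_cast b3)).mul_right _

/-- the integers at which two shifts are influenced by a common prime -/
def Bad (x h h' : ℕ) : Finset ℕ :=
  (range (x + 1)).filter (fun n => ∃ p ∈ L (n + h), p ∈ L (n + h'))

lemma card_bad_lt {x h h' : ℕ} (hh : h < h') (hx : h' ≤ x) :
    (Bad x h h').card ≤ 24 * (Nat.log 2 (x + 1) + 4) * Nat.sqrt (2 * x) := by
  classical
  set N := (h' - h) * ((6 * (h' - h) + 1) * (6 * (h' - h) - 1)) with hN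
  obtain ⟨D, hD, hD0⟩ : ∃ D, h' - h = D ∧ 0 < D := ⟨h' - h, rfl, by omega⟩
  have hDx : D ≤ x := by omega
  have hN0 : N ≠ 0 := by
    rw [hN, hD]
    have : 0 < D * ((6 * D + 1) * (6 * D - 1)) := by
      apply Nat.mul_pos hD0
      apply Nat.mul_pos (by omega) (by omega)
    omega
  set l := Nat.log 2 (x + 1) with hl
  have hxl : x + 1 < 2 ^ (l + 1) := Nat.lt_pow_succ_log_self (by norm_num) _
  have hNlog : Nat.log 2 N ≤ 3 * (l + 4) := by
    have h1 : N < 2 ^ (3 * (l + 4)) := by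
      have h2 : N ≤ (8 * (x + 1)) * ((8 * (x + 1)) * (8 * (x + 1))) := by
        rw [hN, hD]
        apply Nat.mul_le_mul (by omega)
        apply Nat.mul_le_mul (by omega) (by omega)
      have h3 : (8 * (x + 1)) < 2 ^ (l + 4) := by
        calc 8 * (x + 1) < 8 * 2 ^ (l + 1) := by omega
          _ = 2 ^ (l + 4) := by rw [show l + 4 = (l + 1) + 3 by ring, pow_add _ (l + 1) 3]; ring
      calc N ≤ _ := h2
        _ < 2 ^ (l + 4) * (2 ^ (l + 4) * 2 ^ (l + 4)) := by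
            have h4 : 0 < 8 * (x + 1) := by omega
            apply Nat.mul_lt_mul_of_lt_of_lt h3
            apply Nat.mul_lt_mul_of_lt_of_lt h3 h3
        _ = 2 ^ (3 * (l + 4)) := by rw [← pow_add, ← pow_add]; congr 1; ring
    have h5 := Nat.log_lt_of_lt_pow hN0 h1
    omega
  have hsub : Bad x h h' ⊆ (N.primeFactors.filter (fun p => p ≤ Nat.sqrt (2 * x))).biUnion
      (fun p => (range (x + 1)).filter (fun n => p ∈ L (n + h))) := by
    intro n hn
    unfold Bad at hn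
    rw [mem_filter, mem_range] at hn
    obtain ⟨hnx, p, hp1, hp2⟩ := hn
    rw [mem_biUnion]
    refine ⟨p, ?_, mem_filter.2 ⟨mem_range.2 hnx, hp1⟩⟩
    rw [mem_filter, Nat.mem_primeFactors]
    obtain ⟨⟨hp, _, h3, _⟩, _⟩ := mem_L.1 hp1
    refine ⟨⟨hp, dvd_of_common hh hp1 hp2, hN0⟩, ?_⟩
    rw [Nat.le_sqrt']
    omega
  calc (Bad x h h').card ≤ _ := card_le_card hsub
    _ ≤ ∑ p ∈ N.primeFactors.filter (fun p => p ≤ Nat.sqrt (2 * x)),
        ((range (x + 1)).filter (fun n => p ∈ L (n + h))).card := card_biUnion_le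
    _ ≤ ∑ p ∈ N.primeFactors.filter (fun p => p ≤ Nat.sqrt (2 * x)), 8 * Nat.sqrt (2 * x) := by
        refine sum_le_sum fun p hp => ?_
        refine (card_one _ fun n hn => (mem_filter.1 hn).2).trans ?_
        exact Nat.mul_le_mul_left 8 (mem_filter.1 hp).2
    _ = (N.primeFactors.filter (fun p => p ≤ Nat.sqrt (2 * x))).card * (8 * Nat.sqrt (2 * x)) := by
        rw [sum_const, smul_eq_mul]
    _ ≤ (3 * (l + 4)) * (8 * Nat.sqrt (2 * x)) := by
        apply Nat.mul_le_mul_right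
        exact ((card_filter_le _ _).trans (card_primeFactors_le N hN0)).trans hNlog
    _ = _ := by ring

lemma Bad_comm (x h h' : ℕ) : Bad x h h' = Bad x h' h := by
  unfold Bad
  congr 1
  funext n
  apply propext
  constructor
  · rintro ⟨p, h1, h2⟩; exact ⟨p, h2, h1⟩
  · rintro ⟨p, h1, h2⟩; exact ⟨p, h2, h1⟩

lemma card_bad {x h h' : ℕ} (hne : h ≠ h') (hx : h ≤ x) (hx' : h' ≤ x) :
    (Bad x h h').card ≤ 24 * (Nat.log 2 (x + 1) + 4) * Nat.sqrt (2 * x) := by
  rcases lt_or_gt_of_ne hne with h1 | h1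
  · exact card_bad_lt h1 hx'
  · rw [Bad_comm]
    exact card_bad_lt h1 hx

end Pool.Agent.H69.LB
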