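import Mathlib

/-! # Definitions for the square-root barrier -/

set_option autoImplicit false

namespace Pool.Agent.H69.LB

open Finset

/-- The number of integers `0 ≤ n ≤ y` with `n ≡ a mod q` and `n + h ∈ A` for all `h ∈ H`. -/
noncomputable def count (A : Set ℕ) (H : Finset ℕ) (y q : ℕ) (a : ℤ) : ℕ :=
  open Classical in
  ((range (y + 1)).filter (fun n : ℕ => (n : ℤ) ≡ a [ZMOD q] ∧ ∀ h ∈ H, n + h ∈ A)).card

/-- The number expected if `A` were a random set with density `1 / log n` at `n`: the sum over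
`3 ≤ n ≤ y`, `n ≡ a mod q`, of `∏_{h ∈ H} 1 / log (n + h)`. -/
noncomputable def expected (H : Finset ℕ) (y q : ℕ) (a : ℤ) : ℝ :=
  open Classical in
  ∑ n ∈ (Icc 3 y).filter (fun n : ℕ => (n : ℤ) ≡ a [ZMOD q]),
    ∏ h ∈ H, 1 / Real.log ((n : ℝ) + h)

/-- The correlations of `A` of order `k` are the expected ones with a square-root error term:
for every `ε > 0` there is `C` such that for all sets `H` of `k` integers in `[0, x]` and all
`y ≤ x` the number of `n ≤ y` with `n + H ⊂ A` differs from the expected number by at most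
`C x ^ (1/2 + ε)`. -/
def Correlations (A : Set ℕ) (k : ℕ) : Prop :=
  ∀ ε : ℝ, 0 < ε → ∃ C : ℝ, ∀ x : ℕ, 1 ≤ x → ∀ y ≤ x, ∀ H : Finset ℕ, H.card = k →
    (∀ h ∈ H, h ≤ x) → |(count A H y 1 0 : ℝ) - expected H y 1 0| ≤ C * (x : ℝ) ^ (1 / 2 + ε)

/-- The same for the `n` in all arithmetic progressions, uniformly. -/
def CorrelationsAP (A : Set ℕ) (k : ℕ) : Prop :=
  ∀ ε : ℝ, 0 < ε → ∃ C : ℝ, ∀ x : ℕ, 1 ≤ x → ∀ y ≤ x, ∀ H : Finset ℕ, H.card = k →
    (∀ h ∈ H, h ≤ x) → ∀ q : ℕ, 1 ≤ q → ∀ a : ℤ,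
      |(count A H y q a : ℝ) - expected H y q a| ≤ C * (x : ℝ) ^ (1 / 2 + ε)

/-- `Σ_{3 ≤ n ≤ N} 1 / log n`, which differs from `li N` by a bounded quantity. -/
noncomputable def liSum (N : ℕ) : ℝ := ∑ n ∈ Icc 3 N, 1 / Real.log n

/-- The error `#{n ≤ N : n ∈ A, n ≡ a mod d} - li N / d`. -/
noncomputable def err (A : Set ℕ) (N d : ℕ) (a : ℤ) : ℝ :=
  (count A {0} N d a : ℝ) - liSum N / d

/-- `α` is admissible for `A`: for every `U > 0` the sum over the squarefree `d ≤ x ^ α` of the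
largest error in a class coprime to `d` is at most `C x / (log x) ^ U` for all real `x ≥ 3`.
(The maximum over the classes is written as a quantifier over all choices `l` of classes.) -/
def Admissible (A : Set ℕ) (α : ℝ) : Prop :=
  ∀ U : ℝ, 0 < U → ∃ C : ℝ, ∀ x : ℝ, 3 ≤ x → ∀ l : ℕ → ℕ, (∀ d, Nat.Coprime (l d) d) →
    ∑ d ∈ (Icc 1 ⌊x ^ α⌋₊).filter Squarefree, |err A ⌊x⌋₊ d (l d)| ≤
      C * (x / (Real.log x) ^ U)

/-- Level of distribution `1` for fixed residues, with a power saving, uniformly in the residues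
`|a| ≤ x ^ (1/2 - ε)` (which may even depend on the modulus). -/
def FixedResidues (A : Set ℕ) : Prop :=
  ∀ ε : ℝ, 0 < ε → ∃ δ : ℝ, 0 < δ ∧ ∃ C : ℝ, ∀ x : ℕ, 1 ≤ x → ∀ a : ℕ → ℤ,
    (∀ q, |(a q : ℝ)| ≤ (x : ℝ) ^ (1 / 2 - ε)) →
      ∑ q ∈ Icc 1 ⌊(x : ℝ) ^ (1 - ε)⌋₊, |err A x q (a q)| ≤ C * (x : ℝ) ^ (1 - δ)

end Pool.Agent.H69.LB
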