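import Pool.Agent.H69.LB.Var

/-! # Fixed residues -/

set_option autoImplicit false

namespace Pool.Agent.H69.LB

open Finset

/-- the linear tests for one shift -/
def LinTest (S : Set ℕ) : Prop :=
  ∀ ε : ℝ, 0 < ε → ∃ C : ℝ, 0 < C ∧ ∀ x q r : ℕ, 1 ≤ x → 1 ≤ q → q ≤ x → r < q →
    |∑ n ∈ AP x q r, z n S - ∑ p ∈ q.primeFactors, tc x q r 0 (fun _ => 1) (2 * p) * sg p S| ≤
      C * ((x : ℝ) + 1) ^ ε * √(5 * ((x / q + 1 : ℕ) : ℝ))

lemma linTest_of {S : Set ℕ}
    (h1 : ∀ ε : ℝ, 0 < ε → ∃ C : ℝ, 0 < C ∧ ∀ x y q r : ℕ, 1 ≤ x → y ≤ x → 1 ≤ q → q ≤ x →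
      r < q → ∀ h : Fin 1 → ℕ, (∀ i, h i ≤ x) → ∀ i,
      |∑ n ∈ AP y q r, wt h {i} n * z (n + h i) S -
        ∑ p ∈ q.primeFactors, tc y q r (h i) (wt h {i}) (2 * p) * sg p S| ≤
      C * ((x : ℝ) + 1) ^ ε * √(5 * ((y / q + 1 : ℕ) : ℝ))) : LinTest S := by
  intro ε hε
  obtain ⟨C, hC0, hC⟩ := h1 ε hε
  refine ⟨C, hC0, fun x q r hx hq hqx hr => ?_⟩
  have h2 := hC x x q r hx le_rfl hq hqx hr (fun _ => 0) (fun _ => Nat.zero_le _) 0
  have h3 : wt (fun _ : Fin 1 => 0) {0} = fun _ => 1 := by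
    funext n
    unfold wt
    have : (univ : Finset (Fin 1)) \ {0} = ∅ := by decide
    rw [this, prod_empty]
  rw [h3] at h2
  simpa using h2

/-- the primes which influence a progression with a fixed residue are small -/
lemma tc_fixed {x q r p : ℕ} {a : ℤ} {b M : ℝ} (hq : 0 < q) (hqp : p ∈ q.primeFactors)
    (ha : |(a : ℝ)| ≤ b) (hbM : 64 * b ^ 2 ≤ M) (har : (q : ℤ) ∣ a - r) :
    |tc x q r 0 (fun _ => 1) (2 * p)| ≤ M / q + 1 := by
  classical
  refine (abs_tc_le_card _ _ _ _ _ (fun _ => by simp) _).trans ?_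
  have hp := Nat.prime_of_mem_primeFactors hqp
  have hpq := Nat.dvd_of_mem_primeFactors hqp
  have hb0 : 0 ≤ b := (abs_nonneg _).trans ha
  have hM0 : 0 ≤ M := by nlinarith [sq_nonneg b]
  have hpq' : (p : ℤ) ∣ q := by exact_mod_cast hpq
  have hsub : (AP x q r).filter (fun n => 2 * p ∈ Ch (n + 0)) ⊆ AP ⌊M⌋₊ q r := by
    intro n hn
    rw [mem_filter, mem_AP] at hn
    obtain ⟨⟨⟨h3, hnx⟩, hnr⟩, hn2⟩ := hn
    rw [mem_AP]
    refine ⟨⟨h3, Nat.le_floor ?_⟩, hnr⟩
    have hpL : p ∈ L n := by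
      rcases mem_Ch.1 hn2 with h4 | ⟨p', hp', h4⟩
      · omega
      · have : p = p' := by omega
        rwa [this]
    obtain ⟨⟨_, _, _, h5⟩, h6⟩ := mem_L.1 hpL
    have hna : (p : ℤ) ∣ a - n := by
      have h7 : (q : ℤ) ∣ (r : ℤ) - n := by
        have h8 : (n : ℤ) ≡ r [ZMOD q] := by
          have : n % q = r % q := by rw [hnr, Nat.mod_eq_of_lt (hnr ▸ Nat.mod_lt n hq)]
          unfold Int.ModEq
          exact_mod_cast this
        exact h8.dvd
      have h9 : (q : ℤ) ∣ a - n := by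
        have := dvd_add har h7
        rwa [show a - r + (r - n) = a - n by ring] at this
      exact hpq'.trans h9
    have hp4 : (p : ℝ) ≤ 4 * b := by
      have hz : ∀ c : ℤ, 0 < c → c ≤ 3 → (p : ℤ) ∣ c * n + 1 → c ≠ 1 → (p : ℝ) ≤ 4 * b := by
        intro c hc hc3 hd hc1
        have h8 : (p : ℤ) ∣ c * a + 1 := by
          have := dvd_add hd (hna.mul_left c)
          rwa [show c * (n : ℤ) + 1 + c * (a - n) = c * a + 1 by ring] at this
        have h9 : c * a + 1 ≠ 0 := by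
          intro h9
          have : c ∣ 1 := ⟨-a, by linarith⟩
          have := Int.le_of_dvd one_pos this
          omega
        have h10 := Int.le_of_dvd (abs_pos.2 h9) ((dvd_abs _ _).2 h8)
        by_cases ha0 : a = 0
        · rw [ha0] at h10
          simp at h10
          have := hp.one_lt
          omega
        · have h11 : 1 ≤ |a| := Int.one_le_abs ha0
          have h12 : |c * a + 1| ≤ 4 * |a| := by
            calc |c * a + 1| ≤ |c * a| + |1| := abs_add_le _ _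
              _ = c * |a| + 1 := by rw [abs_mul, abs_of_pos hc, abs_one]
              _ ≤ 3 * |a| + |a| := by nlinarith
              _ = 4 * |a| := by ring
          have h13 : (p : ℤ) ≤ 4 * |a| := h10.trans h12
          have h14 : (p : ℝ) ≤ 4 * |(a : ℝ)| := by
            have : ((p : ℤ) : ℝ) ≤ ((4 * |a| : ℤ) : ℝ) := by exact_mod_cast h13
            push_cast at this
            exact this
          linarith
      rcases h6 with h6 | h6
      · exact hz 2 (by norm_num) (by norm_num) (by exact_mod_cast h6) (by norm_num)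
      · exact hz 3 (by norm_num) (by norm_num) (by exact_mod_cast h6) (by norm_num)
    have h8 : (n : ℝ) < 4 * (p : ℝ) ^ 2 := by exact_mod_cast h5
    have h9 : (0 : ℝ) ≤ p := Nat.cast_nonneg p
    nlinarith
  have h1 := (card_le_card hsub).trans (card_AP hq)
  have h2 : ((⌊M⌋₊ / q : ℕ) : ℝ) ≤ M / q := by
    refine Nat.cast_div_le.trans ?_
    gcongr
    exact Nat.floor_le hM0
  calc (((AP x q r).filter (fun n => 2 * p ∈ Ch (n + 0))).card : ℝ) ≤
      ((⌊M⌋₊ / q + 1 : ℕ) : ℝ) := by exact_mod_cast h1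
    _ ≤ M / q + 1 := by push_cast; linarith

theorem fixedResidues {S : Set ℕ} (hS : LinTest S) : FixedResidues (setA S) := by
  classical
  intro ε₀ hε₀
  set ε := min ε₀ (1 / 4) with hεd
  have hε : 0 < ε := lt_min hε₀ (by norm_num)
  have hε1 : ε ≤ 1 / 4 := min_le_right _ _
  have hε2 : ε ≤ ε₀ := min_le_left _ _
  set η : ℝ := ε / 8 with hη
  have hη0 : 0 < η := by positivity
  obtain ⟨C1, hC10, hC1⟩ := hS η hη0
  obtain ⟨C3, hC30, hC3⟩ := natLog_le hη0
  set G : ℝ := 1 + 1 / η with hG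
  have hG0 : 0 < G := by positivity
  refine ⟨2 * η, by positivity, 4 + C1 * 2 ^ η * (10 * G + 1) + C3 * 2 ^ η * (64 * G + 1),
    fun x hx a ha => ?_⟩
  have hx1 : (1 : ℝ) ≤ x := by exact_mod_cast hx
  have hx0 : (0 : ℝ) < x := by linarith
  set X : ℝ := (x : ℝ) with hX
  set Q := ⌊X ^ (1 - ε₀)⌋₊ with hQ
  have hQX : (Q : ℝ) ≤ X ^ (1 - ε) :=
    (Nat.floor_le (by positivity)).trans (Real.rpow_le_rpow_of_exponent_le hx1 (by linarith))
  have hQX1 : (Q : ℝ) ≤ X := hQX.trans (by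
    calc X ^ (1 - ε) ≤ X ^ (1 : ℝ) := Real.rpow_le_rpow_of_exponent_le hx1 (by linarith)
      _ = X := Real.rpow_one X)
  have hQx : Q ≤ x := by
    have := hQX1
    rw [hX] at this
    exact_mod_cast this
  have hYη : (X + 1) ^ η ≤ 2 ^ η * X ^ η := add_one_rpow_le hx hη0.le
  set lam : ℝ := X ^ (ε / 2) with hlam
  have hlam0 : 0 < lam := by positivity
  set b : ℝ := X ^ (1 / 2 - ε) with hb
  set M : ℝ := 64 * X ^ (1 - 2 * ε) with hM
  have hbM : 64 * b ^ 2 ≤ M := by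
    rw [hb, hM, ← Real.rpow_natCast, ← Real.rpow_mul hx0.le]
    apply le_of_eq
    congr 2
    push_cast
    ring
  have hM0 : 0 ≤ M := by positivity
  have hone : ∀ q ∈ Icc 1 Q, |err (setA S) x q (a q)| ≤
      4 + C1 * (2 ^ η * X ^ η) * (10 * X / lam * (1 / (q : ℝ)) + lam) +
        C3 * (2 ^ η * X ^ η) * (M * (1 / (q : ℝ)) + 1) := by
    intro q hq
    rw [mem_Icc] at hq
    have hqx : q ≤ x := hq.2.trans hQx
    have hq0 : (0 : ℝ) < q := by exact_mod_cast hq.1
    have hqX : (q : ℝ) ≤ X := by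
      rw [hX]
      exact_mod_cast hqx
    obtain ⟨r, hr, hr', har⟩ := exists_res hq.1 (a q)
    have e1 := err_le S x hq.1 hr hr'
    have e2 := hC1 x q r hx hq.1 hqx hr
    have e3 : |∑ p ∈ q.primeFactors, tc x q r 0 (fun _ => 1) (2 * p) * sg p S| ≤
        C3 * (2 ^ η * X ^ η) * (M * (1 / (q : ℝ)) + 1) := by
      have haq : |(a q : ℝ)| ≤ b := (ha q).trans
        (Real.rpow_le_rpow_of_exponent_le hx1 (by linarith))
      refine (abs_sum_le_sum_abs _ _).trans ?_
      calc ∑ p ∈ q.primeFactors, |tc x q r 0 (fun _ => 1) (2 * p) * sg p S| ≤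
          ∑ p ∈ q.primeFactors, (M / q + 1) := by
            refine sum_le_sum fun p hp => ?_
            rw [abs_mul, abs_sg, mul_one]
            exact tc_fixed hq.1 hp haq hbM har
        _ = (q.primeFactors.card : ℝ) * (M / q + 1) := by rw [sum_const, nsmul_eq_mul]
        _ ≤ (C3 * (2 ^ η * X ^ η)) * (M / q + 1) := by
            apply mul_le_mul_of_nonneg_right _ (by positivity)
            have e4 : q.primeFactors.card ≤ Nat.log 2 (x + 1) + 4 := by
              have := (card_primeFactors_le q (by omega)).trans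
                (Nat.log_mono_right (b := 2) (show q ≤ x + 1 by omega))
              omega
            have e5 : (q.primeFactors.card : ℝ) ≤ ((Nat.log 2 (x + 1) + 4 : ℕ) : ℝ) := by
              exact_mod_cast e4
            refine e5.trans ((hC3 x hx).trans ?_)
            exact mul_le_mul_of_nonneg_left hYη hC30.le
        _ = _ := by ring
    have e4 : √(5 * ((x / q + 1 : ℕ) : ℝ)) ≤ 10 * X / lam * (1 / (q : ℝ)) + lam := by
      refine (sqrt_le_avg (by positivity) hlam0).trans ?_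
      apply add_le_add _ le_rfl
      have e5 : ((x / q + 1 : ℕ) : ℝ) ≤ 2 * (X / q) := by
        push_cast
        have e6 : ((x / q : ℕ) : ℝ) ≤ X / q := Nat.cast_div_le
        have e7 : 1 ≤ X / q := by
          rw [le_div_iff₀ hq0]
          linarith
        linarith
      calc 5 * ((x / q + 1 : ℕ) : ℝ) / lam ≤ 5 * (2 * (X / q)) / lam := by gcongr
        _ = _ := by ring
    have e5 : C1 * (X + 1) ^ η * √(5 * ((x / q + 1 : ℕ) : ℝ)) ≤
        C1 * (2 ^ η * X ^ η) * (10 * X / lam * (1 / (q : ℝ)) + lam) := by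
      gcongr
    have e6 : |err (setA S) x q (a q)| ≤ |err (setA S) x q (a q) - ∑ n ∈ AP x q r, z n S| +
        |∑ n ∈ AP x q r, z n S| := by
      have := abs_add_le (err (setA S) x q (a q) - ∑ n ∈ AP x q r, z n S) (∑ n ∈ AP x q r, z n S)
      rwa [sub_add_cancel] at this
    have e7 : |∑ n ∈ AP x q r, z n S| ≤ |∑ n ∈ AP x q r, z n S -
        ∑ p ∈ q.primeFactors, tc x q r 0 (fun _ => 1) (2 * p) * sg p S| +
        |∑ p ∈ q.primeFactors, tc x q r 0 (fun _ => 1) (2 * p) * sg p S| := by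
      have := abs_add_le (∑ n ∈ AP x q r, z n S -
        ∑ p ∈ q.primeFactors, tc x q r 0 (fun _ => 1) (2 * p) * sg p S)
        (∑ p ∈ q.primeFactors, tc x q r 0 (fun _ => 1) (2 * p) * sg p S)
      rwa [sub_add_cancel] at this
    linarith
  have hharm := sum_inv_le hx1 hQX1
  have hlog : 1 + Real.log X ≤ G * X ^ η := by
    have a1 := Real.log_le_rpow_div hx0.le hη0
    have a2 : 1 ≤ X ^ η := Real.one_le_rpow hx1 hη0.le
    calc 1 + Real.log X ≤ X ^ η + X ^ η / η := add_le_add a2 a1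
      _ = _ := by rw [hG]; ring
  have hT0 : 0 < X ^ (1 - 2 * η) := by positivity
  have b1 : X ^ (1 - ε) ≤ X ^ (1 - 2 * η) :=
    Real.rpow_le_rpow_of_exponent_le hx1 (by rw [hη]; linarith)
  have b2 : X ^ η * (X / lam) * X ^ η ≤ X ^ (1 - 2 * η) := by
    have : X / lam = X ^ (1 - ε / 2) := by
      rw [hlam, Real.rpow_sub hx0, Real.rpow_one]
    rw [this, ← Real.rpow_add hx0, ← Real.rpow_add hx0]
    exact Real.rpow_le_rpow_of_exponent_le hx1 (by rw [hη]; linarith)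
  have b3 : X ^ η * X ^ (1 - ε) * lam ≤ X ^ (1 - 2 * η) := by
    rw [hlam, ← Real.rpow_add hx0, ← Real.rpow_add hx0]
    exact Real.rpow_le_rpow_of_exponent_le hx1 (by rw [hη]; linarith)
  have b4 : X ^ η * X ^ (1 - 2 * ε) * X ^ η ≤ X ^ (1 - 2 * η) := by
    rw [← Real.rpow_add hx0, ← Real.rpow_add hx0]
    exact Real.rpow_le_rpow_of_exponent_le hx1 (by rw [hη]; linarith)
  have b5 : X ^ η * X ^ (1 - ε) ≤ X ^ (1 - 2 * η) := by
    rw [← Real.rpow_add hx0]
    exact Real.rpow_le_rpow_of_exponent_le hx1 (by rw [hη]; linarith)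
  have hXη : 0 < X ^ η := by positivity
  calc ∑ q ∈ Icc 1 Q, |err (setA S) x q (a q)|
      ≤ ∑ q ∈ Icc 1 Q, (4 + C1 * (2 ^ η * X ^ η) * (10 * X / lam * (1 / (q : ℝ)) + lam) +
        C3 * (2 ^ η * X ^ η) * (M * (1 / (q : ℝ)) + 1)) := sum_le_sum hone
    _ = (Q : ℝ) * 4 + C1 * (2 ^ η * X ^ η) * (10 * X / lam * ∑ q ∈ Icc 1 Q, 1 / (q : ℝ) +
          (Q : ℝ) * lam) +
        C3 * (2 ^ η * X ^ η) * (M * ∑ q ∈ Icc 1 Q, 1 / (q : ℝ) + (Q : ℝ)) := by
        rw [sum_add_distrib, sum_add_distrib, ← mul_sum, ← mul_sum, sum_add_distrib,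
          sum_add_distrib, ← mul_sum, ← mul_sum, sum_const, sum_const, sum_const, Nat.card_Icc,
          Nat.add_sub_cancel, nsmul_eq_mul, nsmul_eq_mul, nsmul_eq_mul, mul_one]
    _ ≤ X ^ (1 - ε) * 4 + C1 * (2 ^ η * X ^ η) * (10 * X / lam * (G * X ^ η) +
          X ^ (1 - ε) * lam) +
        C3 * (2 ^ η * X ^ η) * (M * (G * X ^ η) + X ^ (1 - ε)) := by
        have c1 : ∑ q ∈ Icc 1 Q, 1 / (q : ℝ) ≤ G * X ^ η := hharm.trans hlog
        gcongr
    _ = 4 * X ^ (1 - ε) + C1 * 2 ^ η * (10 * G * (X ^ η * (X / lam) * X ^ η) +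
          X ^ η * X ^ (1 - ε) * lam) + C3 * 2 ^ η * (64 * G * (X ^ η * X ^ (1 - 2 * ε) * X ^ η) +
          X ^ η * X ^ (1 - ε)) := by
        rw [hM]
        ring
    _ ≤ 4 * X ^ (1 - 2 * η) + C1 * 2 ^ η * (10 * G * X ^ (1 - 2 * η) + X ^ (1 - 2 * η)) +
          C3 * 2 ^ η * (64 * G * X ^ (1 - 2 * η) + X ^ (1 - 2 * η)) := by
        gcongr
    _ = _ := by ring

end Pool.Agent.H69.LB
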