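import Mathlib

/-! # Elementary inequalities -/

set_option autoImplicit false

namespace Pool.Agent.H69.LB

open Finset

lemma natLog_le {ε : ℝ} (hε : 0 < ε) : ∃ C : ℝ, 0 < C ∧ ∀ x : ℕ, 1 ≤ x →
    ((Nat.log 2 (x + 1) + 4 : ℕ) : ℝ) ≤ C * ((x : ℝ) + 1) ^ ε := by
  refine ⟨1 / (ε * Real.log 2) + 4, by positivity, fun x hx => ?_⟩
  have h1 : ((Nat.log 2 (x + 1) : ℕ) : ℝ) ≤ Real.logb 2 ((x + 1 : ℕ) : ℝ) := by
    exact_mod_cast Real.natLog_le_logb (x + 1) 2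
  have hX : (1 : ℝ) ≤ (x : ℝ) + 1 := by
    have : (0 : ℝ) ≤ x := Nat.cast_nonneg x
    linarith
  have h2 : Real.log ((x : ℝ) + 1) ≤ ((x : ℝ) + 1) ^ ε / ε :=
    Real.log_le_rpow_div (by linarith) hε
  have h3 : (1 : ℝ) ≤ ((x : ℝ) + 1) ^ ε := Real.one_le_rpow hX hε.le
  have hl2 : 0 < Real.log 2 := Real.log_pos (by norm_num)
  push_cast at h1 ⊢
  calc ((Nat.log 2 (x + 1) : ℕ) : ℝ) + 4 ≤ Real.log ((x : ℝ) + 1) / Real.log 2 +
        4 * ((x : ℝ) + 1) ^ ε := by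
        unfold Real.logb at h1
        linarith
    _ ≤ (((x : ℝ) + 1) ^ ε / ε) / Real.log 2 + 4 * ((x : ℝ) + 1) ^ ε := by gcongr
    _ = (1 / (ε * Real.log 2) + 4) * ((x : ℝ) + 1) ^ ε := by field_simp

lemma add_one_rpow_le {x : ℕ} (hx : 1 ≤ x) {e : ℝ} (he : 0 ≤ e) :
    ((x : ℝ) + 1) ^ e ≤ 2 ^ e * (x : ℝ) ^ e := by
  have hx' : (1 : ℝ) ≤ x := by exact_mod_cast hx
  rw [← Real.mul_rpow (by norm_num) (by linarith)]
  apply Real.rpow_le_rpow (by linarith) (by linarith) he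

/-- powers beat logarithms -/
lemma rpow_le_div_log {U δ : ℝ} (hU : 0 < U) (hδ : 0 < δ) : ∃ C : ℝ, 0 < C ∧ ∀ x : ℝ, 3 ≤ x →
    x ^ (1 - δ) ≤ C * (x / (Real.log x) ^ U) := by
  refine ⟨(U / δ) ^ U, by positivity, fun x hx => ?_⟩
  have hx0 : 0 < x := by linarith
  have hlog : 0 < Real.log x := Real.log_pos (by linarith)
  have h1 : Real.log x ≤ x ^ (δ / U) / (δ / U) := Real.log_le_rpow_div hx0.le (by positivity)
  have h2 : (Real.log x) ^ U ≤ (U / δ) ^ U * x ^ δ := by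
    calc (Real.log x) ^ U ≤ (x ^ (δ / U) / (δ / U)) ^ U :=
          Real.rpow_le_rpow hlog.le h1 hU.le
      _ = (U / δ * x ^ (δ / U)) ^ U := by
          congr 1
          field_simp
      _ = (U / δ) ^ U * (x ^ (δ / U)) ^ U :=
          Real.mul_rpow (by positivity) (by positivity)
      _ = (U / δ) ^ U * x ^ δ := by
          rw [← Real.rpow_mul hx0.le, div_mul_cancel₀ δ hU.ne']
  have h3 : 0 < (Real.log x) ^ U := Real.rpow_pos_of_pos hlog U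
  rw [← mul_div_assoc, le_div_iff₀ h3]
  calc x ^ (1 - δ) * (Real.log x) ^ U ≤ x ^ (1 - δ) * ((U / δ) ^ U * x ^ δ) := by
        apply mul_le_mul_of_nonneg_left h2 (by positivity)
    _ = (U / δ) ^ U * (x ^ (1 - δ) * x ^ δ) := by ring
    _ = (U / δ) ^ U * x := by
        rw [← Real.rpow_add hx0, sub_add_cancel, Real.rpow_one]

/-- the harmonic sum -/
lemma sum_inv_le {Q : ℕ} {x : ℝ} (hx : 1 ≤ x) (hQ : (Q : ℝ) ≤ x) :
    ∑ q ∈ Icc 1 Q, 1 / (q : ℝ) ≤ 1 + Real.log x := by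
  have h1 : ∑ q ∈ Icc 1 Q, 1 / (q : ℝ) = ((harmonic Q : ℚ) : ℝ) := by
    rw [harmonic_eq_sum_Icc]
    push_cast
    exact sum_congr rfl fun q _ => one_div _
  rw [h1]
  refine (harmonic_le_one_add_log Q).trans ?_
  rcases Nat.eq_zero_or_pos Q with h | h
  · subst h
    simp
    exact Real.log_nonneg hx
  · have : Real.log Q ≤ Real.log x := Real.log_le_log (by exact_mod_cast h) hQ
    linarith

lemma sqrt_le_avg {u lam : ℝ} (hu : 0 ≤ u) (hl : 0 < lam) : √u ≤ u / lam + lam := by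
  rw [Real.sqrt_le_left (by positivity)]
  have h1 : (u / lam + lam) ^ 2 = (u / lam - lam) ^ 2 + 4 * u := by
    field_simp
    ring
  rw [h1]
  nlinarith [sq_nonneg (u / lam - lam)]

end Pool.Agent.H69.LB
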