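import Pool.Agent.H69.LB.Prob

/-! # Selection of a configuration which passes countably many tests -/

set_option autoImplicit false

namespace Pool.Agent.H69.LB

open Finset Filter

variable (P : Proc)

/-- a polynomial in the martingale differences -/
noncomputable def poly (M : ℕ) (a : Finset ℕ → ℝ) (S : Set ℕ) : ℝ :=
  ∑ F ∈ (range M).powerset, a F * ∏ β ∈ F, P.d β S

lemma poly_loc (M : ℕ) (a : Finset ℕ → ℝ) : Loc M (poly P M a) :=
  Loc.sum _ fun F hF => (Loc.const _ _).mul (Loc.prod _ fun β hβ =>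
    (loc_d P β).mono (mem_range.1 (mem_powerset.1 hF hβ)))

lemma moment (k D : ℕ) : ∃ K : ℝ, 0 < K ∧ ∀ (M : ℕ) (a : Finset ℕ → ℝ) (V : ℝ), 0 < V →
    (∀ F, a F ≠ 0 → F.card ≤ D) → ∑ F ∈ (range M).powerset, a F ^ 2 ≤ V → ∀ M' : ℕ, M ≤ M' →
    E P M' (fun S => poly P M a S ^ (2 * k + 4)) ≤ (K * V) ^ (k + 2) := by
  obtain ⟨ρ, hρ, hyp⟩ := hyper P k
  set c : ℝ := max 1 (ρ⁻¹ ^ 2) with hc
  have hc1 : 1 ≤ c := le_max_left _ _
  have hc0 : 0 < c := by linarith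
  refine ⟨2 * c ^ D, by positivity, fun M a V hV hD ha M' hM => ?_⟩
  have h1 := hyp M' (range M) (fun β hβ => (mem_range.1 hβ).trans_le hM)
    (fun F => a F * ρ⁻¹ ^ F.card) (2 * c ^ D * V) ?_
  · refine le_trans (le_of_eq ?_) h1
    refine congrArg (E P M') (funext fun S => ?_)
    congr 1
    unfold poly
    refine sum_congr rfl fun F _ => ?_
    have : ρ⁻¹ ^ F.card * ρ ^ F.card = 1 := by
      rw [← mul_pow, inv_mul_cancel₀ hρ.ne', one_pow]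
    calc a F * ∏ β ∈ F, P.d β S = a F * (ρ⁻¹ ^ F.card * ρ ^ F.card) * ∏ β ∈ F, P.d β S := by
          rw [this, mul_one]
      _ = _ := by ring
  · have h2 : ∑ F ∈ (range M).powerset, (a F * ρ⁻¹ ^ F.card) ^ 2 ≤
        ∑ F ∈ (range M).powerset, c ^ D * a F ^ 2 := by
      refine sum_le_sum fun F _ => ?_
      by_cases h : a F = 0
      · rw [h]; simp
      · have h3 : (ρ⁻¹ ^ F.card) ^ 2 ≤ c ^ D := by
          rw [← pow_mul, mul_comm F.card 2, pow_mul]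
          calc (ρ⁻¹ ^ 2) ^ F.card ≤ c ^ F.card := by
                gcongr
                exact le_max_right _ _
            _ ≤ c ^ D := pow_le_pow_right₀ hc1 (hD F h)
        rw [mul_pow, mul_comm]
        gcongr
    rw [← mul_sum] at h2
    calc _ ≤ _ := h2
      _ ≤ c ^ D * V := by gcongr
      _ < 2 * c ^ D * V := by
        have : 0 < c ^ D * V := by positivity
        linarith

lemma exists_good {κ : Type*} (M : ℕ) (T : Finset κ) (f : κ → Set ℕ → ℝ)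
    (hf : ∀ τ ∈ T, ∀ S, 0 ≤ f τ S) (hT : ∑ τ ∈ T, E P M (f τ) < 1) :
    ∃ A : Finset ℕ, ∀ τ ∈ T, f τ A < 1 := by
  by_contra hc
  push Not at hc
  have h1 : E P M (fun _ => 1) ≤ E P M (fun S => ∑ τ ∈ T, f τ S) := by
    refine E_mono P fun A _ => ?_
    obtain ⟨τ, hτ, h⟩ := hc A
    exact h.trans (single_le_sum (f := fun τ => f τ A) (fun τ hτ => hf τ hτ A) hτ)
  rw [E_one, E_sum] at h1
  linarith

lemma sum_two_pow (X c : ℕ) : ∑ k ∈ range X, (1 / 2 : ℝ) ^ (k + c) ≤ 2 * (1 / 2 : ℝ) ^ c := by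
  have h : ∑ k ∈ range X, (1 / 2 : ℝ) ^ k ≤ 2 := by
    rw [geom_sum_eq (by norm_num)]
    have : (0 : ℝ) < (1 / 2) ^ X := by positivity
    rw [div_le_iff_of_neg (by norm_num)]
    linarith
  calc ∑ k ∈ range X, (1 / 2 : ℝ) ^ (k + c) = (∑ k ∈ range X, (1 / 2 : ℝ) ^ k) * (1 / 2) ^ c := by
        rw [sum_mul]
        exact sum_congr rfl fun k _ => pow_add _ _ _
    _ ≤ _ := by gcongr

lemma sum_inv_sq (X : ℕ) : ∑ x ∈ range X, 1 / ((x : ℝ) + 1) ^ 2 ≤ 2 := by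
  have h : ∀ X : ℕ, ∑ x ∈ range (X + 1), 1 / ((x : ℝ) + 1) ^ 2 ≤ 2 - 1 / ((X : ℝ) + 1) := by
    intro X
    induction X with
    | zero => norm_num
    | succ X ih =>
      rw [sum_range_succ]
      have h1 : (0 : ℝ) < (X : ℝ) + 1 := by positivity
      have h2 : 1 / (((X + 1 : ℕ) : ℝ) + 1) ^ 2 ≤ 1 / ((X : ℝ) + 1) - 1 / (((X + 1 : ℕ) : ℝ) + 1) := by
        push_cast
        rw [div_sub_div _ _ (by positivity) (by positivity), div_le_div_iff₀ (by positivity)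
          (by positivity)]
        nlinarith
      linarith
  have h1 : ∑ x ∈ range X, 1 / ((x : ℝ) + 1) ^ 2 ≤ ∑ x ∈ range (X + 1), 1 / ((x : ℝ) + 1) ^ 2 :=
    sum_le_sum_of_subset_of_nonneg (range_mono (Nat.le_succ X)) fun i _ _ => by positivity
  have h2 := h X
  have : (0 : ℝ) < 1 / ((X : ℝ) + 1) := by positivity
  linarith

section
variable {κ : ℕ → Type} (J : ∀ k, ℕ → Finset (κ k)) (e D : ℕ → ℕ)
  (M : ∀ k, κ k → ℕ) (a : ∀ k, κ k → Finset ℕ → ℝ) (V : ∀ k, κ k → ℝ)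

/-- the moments which are used -/
def kk (e : ℕ → ℕ) (k l : ℕ) : ℕ := (l + 1) * (e k + 2) - 2

lemma kk_add (e : ℕ → ℕ) (k l : ℕ) : kk e k l + 2 = (l + 1) * (e k + 2) := by
  unfold kk
  have : 2 ≤ (l + 1) * (e k + 2) := by nlinarith [Nat.zero_le l, Nat.zero_le (e k)]
  omega

/-- one test -/
lemma one_test (hV0 : ∀ k x, ∀ j ∈ J k x, 0 < V k j)
    (hD : ∀ k x, ∀ j ∈ J k x, ∀ F, a k j F ≠ 0 → F.card ≤ D k)
    (hV : ∀ k x, ∀ j ∈ J k x, ∑ F ∈ (range (M k j)).powerset, a k j F ^ 2 ≤ V k j) :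
    ∀ k l : ℕ, ∃ C : ℝ, 0 < C ∧ ∀ x, ∀ j ∈ J k x, ∀ M' : ℕ, M k j ≤ M' →
      E P M' (fun S => (poly P (M k j) (a k j) S /
        (C * ((x : ℝ) + 1) ^ (1 / ((l : ℝ) + 1)) * √(V k j))) ^ (2 * kk e k l + 4)) ≤
      (1 / 2) ^ (k + l + 4) * ((x : ℝ) + 1) ^ (-(2 * (e k + 2 : ℕ)) : ℝ) := by
  intro k l
  obtain ⟨K, hK, hm⟩ := moment P (kk e k l) (D k)
  refine ⟨√(K * 2 ^ (k + l + 4)), by positivity, fun x j hj M' hM' => ?_⟩
  have h1 := hm (M k j) (a k j) (V k j) (hV0 k x j hj) (hD k x j hj) (hV k x j hj) M' hM'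
  have hv := hV0 k x j hj
  set v := V k j with hvd
  set y : ℝ := (x : ℝ) + 1 with hy
  have hy1 : 1 ≤ y := by rw [hy]; linarith [Nat.cast_nonneg (α := ℝ) x]
  have hy0 : 0 < y := by linarith
  set b : ℝ := √(K * 2 ^ (k + l + 4)) * y ^ (1 / ((l : ℝ) + 1)) * √v with hb
  have hb0 : 0 < b := by positivity
  have hb2 : b ^ 2 = K * 2 ^ (k + l + 4) * y ^ (2 / ((l : ℝ) + 1)) * v := by
    rw [hb, mul_pow, mul_pow, Real.sq_sqrt (by positivity), Real.sq_sqrt hv.le,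
      ← Real.rpow_natCast (y ^ (1 / ((l : ℝ) + 1))) 2, ← Real.rpow_mul hy0.le]
    congr 3
    push_cast
    ring
  have e1 : ∀ S, (poly P (M k j) (a k j) S / b) ^ (2 * kk e k l + 4) =
      (b ^ (2 * kk e k l + 4))⁻¹ * poly P (M k j) (a k j) S ^ (2 * kk e k l + 4) := by
    intro S
    rw [div_pow, div_eq_inv_mul]
  simp only [e1]
  rw [E_mul]
  have e2 : b ^ (2 * kk e k l + 4) = (b ^ 2) ^ (kk e k l + 2) := by
    rw [← pow_mul]
    congr 1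
  have e3 : (b ^ (2 * kk e k l + 4))⁻¹ * (K * v) ^ (kk e k l + 2) =
      ((1 / 2) ^ (k + l + 4) * y ^ (-(2 / ((l : ℝ) + 1)))) ^ (kk e k l + 2) := by
    rw [e2, ← inv_pow, ← mul_pow]
    congr 1
    rw [hb2, Real.rpow_neg hy0.le, one_div, inv_pow]
    have h3 : y ^ (2 / ((l : ℝ) + 1)) ≠ 0 := by positivity
    field_simp
  calc (b ^ (2 * kk e k l + 4))⁻¹ * E P M' (fun S => poly P (M k j) (a k j) S ^ (2 * kk e k l + 4))
      ≤ (b ^ (2 * kk e k l + 4))⁻¹ * (K * v) ^ (kk e k l + 2) := by gcongr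
    _ = ((1 / 2) ^ (k + l + 4)) ^ (kk e k l + 2) *
        (y ^ (-(2 / ((l : ℝ) + 1)))) ^ (kk e k l + 2) := by rw [e3, mul_pow]
    _ ≤ (1 / 2) ^ (k + l + 4) * y ^ (-(2 * (e k + 2 : ℕ)) : ℝ) := by
        gcongr ?_ * ?_
        · refine pow_le_of_le_one (by positivity) ?_ (by omega)
          exact pow_le_one₀ (by norm_num) (by norm_num)
        · rw [← Real.rpow_natCast (y ^ (-(2 / ((l : ℝ) + 1)))), ← Real.rpow_mul hy0.le, kk_add]
          apply le_of_eq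
          congr 1
          push_cast
          field_simp

theorem select (hJ : ∀ k x, (J k x).card ≤ (x + 1) ^ e k)
    (hV0 : ∀ k x, ∀ j ∈ J k x, 0 < V k j)
    (hD : ∀ k x, ∀ j ∈ J k x, ∀ F, a k j F ≠ 0 → F.card ≤ D k)
    (hV : ∀ k x, ∀ j ∈ J k x, ∑ F ∈ (range (M k j)).powerset, a k j F ^ 2 ≤ V k j) :
    ∃ S : Set ℕ, ∀ k, ∀ ε : ℝ, 0 < ε → ∃ C : ℝ, 0 < C ∧ ∀ x, ∀ j ∈ J k x,
      |poly P (M k j) (a k j) S| ≤ C * ((x : ℝ) + 1) ^ ε * √(V k j) := by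
  classical
  choose C hC0 hC using one_test P J e D M a V hV0 hD hV
  -- the finite stages
  have hfin : ∀ X : ℕ, ∃ A : Finset ℕ, ∀ k < X, ∀ l < X, ∀ x < X, ∀ j ∈ J k x,
      |poly P (M k j) (a k j) A| ≤ C k l * ((x : ℝ) + 1) ^ (1 / ((l : ℝ) + 1)) * √(V k j) := by
    intro X
    set T : Finset (Σ t : ℕ × ℕ × ℕ, κ t.1) :=
      (range X ×ˢ range X ×ˢ range X).sigma (fun t => J t.1 t.2.2) with hT
    set M' : ℕ := T.sup (fun τ => M τ.1.1 τ.2) with hM'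
    have hMle : ∀ τ ∈ T, M τ.1.1 τ.2 ≤ M' := fun τ hτ => le_sup (f := fun τ => M τ.1.1 τ.2) hτ
    set f : (Σ t : ℕ × ℕ × ℕ, κ t.1) → Set ℕ → ℝ := fun τ S =>
      (poly P (M τ.1.1 τ.2) (a τ.1.1 τ.2) S /
        (C τ.1.1 τ.1.2.1 * ((τ.1.2.2 : ℝ) + 1) ^ (1 / ((τ.1.2.1 : ℝ) + 1)) * √(V τ.1.1 τ.2))) ^
          (2 * kk e τ.1.1 τ.1.2.1 + 4) with hf
    have hf0 : ∀ τ ∈ T, ∀ S, 0 ≤ f τ S := fun τ _ S => by
      simp only [hf]
      exact Even.pow_nonneg ⟨kk e τ.1.1 τ.1.2.1 + 2, by ring⟩ _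
    have hsum : ∑ τ ∈ T, E P M' (f τ) < 1 := by
      have h1 : ∑ τ ∈ T, E P M' (f τ) ≤ ∑ τ ∈ T,
          (1 / 2 : ℝ) ^ (τ.1.1 + τ.1.2.1 + 4) *
            ((τ.1.2.2 : ℝ) + 1) ^ (-(2 * (e τ.1.1 + 2 : ℕ)) : ℝ) := by
        refine sum_le_sum fun τ hτ => ?_
        have hτ' := (mem_sigma.1 hτ).2
        exact hC τ.1.1 τ.1.2.1 τ.1.2.2 τ.2 hτ' M' (hMle τ hτ)
      have h2 : ∑ τ ∈ T, (1 / 2 : ℝ) ^ (τ.1.1 + τ.1.2.1 + 4) *
            ((τ.1.2.2 : ℝ) + 1) ^ (-(2 * (e τ.1.1 + 2 : ℕ)) : ℝ) ≤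
          ∑ t ∈ range X ×ˢ range X ×ˢ range X, (1 / 2 : ℝ) ^ (t.1 + t.2.1 + 4) *
            (1 / ((t.2.2 : ℝ) + 1) ^ 2) := by
        rw [hT, sum_sigma]
        refine sum_le_sum fun t _ => ?_
        simp only
        rw [sum_const, nsmul_eq_mul]
        have hy : (0 : ℝ) < (t.2.2 : ℝ) + 1 := by positivity
        have hy1 : (1 : ℝ) ≤ (t.2.2 : ℝ) + 1 := by linarith [Nat.cast_nonneg (α := ℝ) t.2.2]
        have h3 : ((J t.1 t.2.2).card : ℝ) ≤ ((t.2.2 : ℝ) + 1) ^ (e t.1 : ℕ) := by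
          exact_mod_cast hJ t.1 t.2.2
        have h4 : ((t.2.2 : ℝ) + 1) ^ (e t.1 : ℕ) *
            ((t.2.2 : ℝ) + 1) ^ (-(2 * (e t.1 + 2 : ℕ)) : ℝ) ≤ 1 / ((t.2.2 : ℝ) + 1) ^ 2 := by
          rw [← Real.rpow_natCast _ (e t.1), ← Real.rpow_add hy, one_div,
            ← Real.rpow_natCast _ 2, ← Real.rpow_neg hy.le]
          apply Real.rpow_le_rpow_of_exponent_le hy1
          push_cast
          have : (0 : ℝ) ≤ e t.1 := Nat.cast_nonneg _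
          linarith
        calc ((J t.1 t.2.2).card : ℝ) * ((1 / 2 : ℝ) ^ (t.1 + t.2.1 + 4) *
              ((t.2.2 : ℝ) + 1) ^ (-(2 * (e t.1 + 2 : ℕ)) : ℝ))
            = (1 / 2 : ℝ) ^ (t.1 + t.2.1 + 4) * (((J t.1 t.2.2).card : ℝ) *
              ((t.2.2 : ℝ) + 1) ^ (-(2 * (e t.1 + 2 : ℕ)) : ℝ)) := by ring
          _ ≤ (1 / 2 : ℝ) ^ (t.1 + t.2.1 + 4) * (((t.2.2 : ℝ) + 1) ^ (e t.1 : ℕ) *
              ((t.2.2 : ℝ) + 1) ^ (-(2 * (e t.1 + 2 : ℕ)) : ℝ)) := by gcongr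
          _ ≤ _ := by gcongr
      have h5 : ∑ t ∈ range X ×ˢ range X ×ˢ range X, (1 / 2 : ℝ) ^ (t.1 + t.2.1 + 4) *
            (1 / ((t.2.2 : ℝ) + 1) ^ 2) =
          (∑ k ∈ range X, (1 / 2 : ℝ) ^ (k + 4)) * ((∑ l ∈ range X, (1 / 2 : ℝ) ^ (l + 0)) *
            ∑ x ∈ range X, 1 / ((x : ℝ) + 1) ^ 2) := by
        rw [sum_product, sum_mul]
        refine sum_congr rfl fun k _ => ?_
        rw [sum_product, sum_mul, mul_sum]
        refine sum_congr rfl fun l _ => ?_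
        rw [mul_sum, mul_sum]
        refine sum_congr rfl fun x _ => ?_
        rw [show k + l + 4 = (k + 4) + (l + 0) by ring, pow_add]
        ring
      have h6 := sum_two_pow X 4
      have h7 := sum_two_pow X 0
      have h8 := sum_inv_sq X
      have h9 : 0 ≤ ∑ x ∈ range X, 1 / ((x : ℝ) + 1) ^ 2 := sum_nonneg fun _ _ => by positivity
      have h10 : 0 ≤ ∑ l ∈ range X, (1 / 2 : ℝ) ^ (l + 0) := sum_nonneg fun _ _ => by positivity
      have h11 : (∑ l ∈ range X, (1 / 2 : ℝ) ^ (l + 0)) * ∑ x ∈ range X, 1 / ((x : ℝ) + 1) ^ 2 ≤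
          2 * 2 := by
        apply mul_le_mul (by simpa using h7) h8 h9 (by norm_num)
      calc ∑ τ ∈ T, E P M' (f τ) ≤ _ := h1.trans (h2.trans (le_of_eq h5))
        _ ≤ (2 * (1 / 2 : ℝ) ^ 4) * (2 * 2) := by
            apply mul_le_mul h6 h11 (mul_nonneg h10 h9) (by norm_num)
        _ < 1 := by norm_num
    obtain ⟨A, hA⟩ := exists_good P M' T f hf0 hsum
    refine ⟨A, fun k hk l hl x hx j hj => ?_⟩
    have hmem : (⟨(k, l, x), j⟩ : Σ t : ℕ × ℕ × ℕ, κ t.1) ∈ T := by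
      rw [hT, mem_sigma]
      exact ⟨mem_product.2 ⟨mem_range.2 hk, mem_product.2 ⟨mem_range.2 hl, mem_range.2 hx⟩⟩, hj⟩
    have h1 := hA _ hmem
    simp only [hf] at h1
    have hv := hV0 k x j hj
    have hb : 0 < C k l * ((x : ℝ) + 1) ^ (1 / ((l : ℝ) + 1)) * √(V k j) := by
      have := hC0 k l
      positivity
    have h2 : |poly P (M k j) (a k j) A /
        (C k l * ((x : ℝ) + 1) ^ (1 / ((l : ℝ) + 1)) * √(V k j))| < 1 := by
      by_contra hcon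
      rw [not_lt] at hcon
      have h3 := one_le_pow₀ hcon (n := 2 * kk e k l + 4)
      rw [Even.pow_abs ⟨kk e k l + 2, by ring⟩] at h3
      linarith
    rw [abs_div, abs_of_pos hb, div_lt_one hb] at h2
    exact h2.le
  choose A hA using hfin
  set 𝒰 : Ultrafilter ℕ := hyperfilter ℕ with h𝒰
  refine ⟨{i | ∀ᶠ X in (𝒰 : Filter ℕ), i ∈ A X}, fun k ε hε => ?_⟩
  obtain ⟨l, hl⟩ := exists_nat_one_div_lt hε
  refine ⟨C k l, hC0 k l, fun x j hj => ?_⟩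
  have hagree : ∀ᶠ X in (𝒰 : Filter ℕ), ∀ i ∈ range (M k j),
      (i ∈ (A X : Set ℕ) ↔ i ∈ {i | ∀ᶠ X in (𝒰 : Filter ℕ), i ∈ A X}) := by
    rw [Filter.eventually_all_finset]
    intro i _
    by_cases h : ∀ᶠ X in (𝒰 : Filter ℕ), i ∈ A X
    · filter_upwards [h] with X hX
      exact ⟨fun _ => h, fun _ => hX⟩
    · have h' := Ultrafilter.eventually_not.2 h
      filter_upwards [h'] with X hX
      exact ⟨fun hh => absurd hh hX, fun hh => absurd hh h⟩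
  have hlarge : ∀ᶠ X in (𝒰 : Filter ℕ), max k (max l x) < X := by
    have h1 : (𝒰 : Filter ℕ) ≤ atTop := by
      rw [h𝒰, ← Nat.cofinite_eq_atTop]
      exact hyperfilter_le_cofinite
    exact h1 (eventually_gt_atTop _)
  obtain ⟨X, hX1, hX2⟩ := (hagree.and hlarge).exists
  have e1 : poly P (M k j) (a k j) {i | ∀ᶠ X in (𝒰 : Filter ℕ), i ∈ A X} =
      poly P (M k j) (a k j) (A X) :=
    poly_loc P (M k j) (a k j) _ _ fun i hi => (hX1 i (mem_range.2 hi)).symm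
  rw [e1]
  have hk : k < X := lt_of_le_of_lt (le_max_left _ _) hX2
  have hl' : l < X := lt_of_le_of_lt ((le_max_left _ _).trans (le_max_right _ _)) hX2
  have hx : x < X := lt_of_le_of_lt ((le_max_right _ _).trans (le_max_right _ _)) hX2
  refine (hA X k hk l hl' x hx j hj).trans ?_
  have hy1 : (1 : ℝ) ≤ (x : ℝ) + 1 := by linarith [Nat.cast_nonneg (α := ℝ) x]
  have hc := hC0 k l
  gcongr

end

end Pool.Agent.H69.LB
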