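import Pool.Agent.H69.LB.Count
import Pool.Agent.H69.LB.Select

/-! # Linear sums of fluctuations in progressions -/

set_option autoImplicit false

namespace Pool.Agent.H69.LB

open Finset

/-- the coefficients of a linear polynomial -/
noncomputable def lin (T : ℕ → ℝ) (F : Finset ℕ) : ℝ := if F.card = 1 then T (∑ i ∈ F, i) else 0

lemma lin_singleton (T : ℕ → ℝ) (β : ℕ) : lin T {β} = T β := by
  unfold lin
  rw [card_singleton, if_pos rfl, sum_singleton]

lemma sum_singletons (M : ℕ) (G : Finset ℕ → ℝ) (hG : ∀ F, F.card ≠ 1 → G F = 0) :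
    ∑ F ∈ (range M).powerset, G F = ∑ β ∈ range M, G {β} := by
  classical
  have h1 : ∑ F ∈ (range M).powerset, G F = ∑ F ∈ powersetCard 1 (range M), G F := by
    symm
    apply sum_subset
    · intro F hF
      rw [mem_powersetCard] at hF
      exact mem_powerset.2 hF.1
    · intro F hF hF'
      apply hG
      intro hc
      exact hF' (mem_powersetCard.2 ⟨mem_powerset.1 hF, hc⟩)
  rw [h1, powersetCard_one, sum_map]
  rfl

lemma poly_lin (M : ℕ) (T : ℕ → ℝ) (S : Set ℕ) :
    poly proc M (lin T) S = ∑ β ∈ range M, T β * proc.d β S := by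
  unfold poly
  rw [sum_singletons]
  · refine sum_congr rfl fun β _ => ?_
    rw [lin_singleton, prod_singleton]
  · intro F hF
    unfold lin
    rw [if_neg hF, zero_mul]

lemma sum_lin_sq (M : ℕ) (T : ℕ → ℝ) :
    ∑ F ∈ (range M).powerset, lin T F ^ 2 = ∑ β ∈ range M, T β ^ 2 := by
  rw [sum_singletons]
  · refine sum_congr rfl fun β _ => ?_
    rw [lin_singleton]
  · intro F hF
    unfold lin
    rw [if_neg hF]
    norm_num

/-- the progression -/
def AP (x q r : ℕ) : Finset ℕ := (Icc 3 x).filter (fun n => n % q = r)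

lemma mem_AP {x q r n : ℕ} : n ∈ AP x q r ↔ (3 ≤ n ∧ n ≤ x) ∧ n % q = r := by
  unfold AP
  rw [mem_filter, mem_Icc]

lemma card_AP {x q r : ℕ} (hq : 0 < q) : (AP x q r).card ≤ x / q + 1 := by
  calc (AP x q r).card ≤ (range (x / q + 1)).card := by
        apply card_le_card_of_injOn (fun n => n / q)
        · intro n hn
          rw [mem_coe, mem_AP] at hn
          rw [mem_coe, mem_range]
          exact Nat.lt_succ_of_le (Nat.div_le_div_right hn.1.2)
        · intro a ha b hb hab
          rw [mem_coe, mem_AP] at ha hb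
          simp only at hab
          rw [← Nat.div_add_mod a q, ← Nat.div_add_mod b q, hab, ha.2, hb.2]
    _ = x / q + 1 := card_range _

lemma crt {p q r c h : ℕ} (hp : p.Prime) (hc : Nat.Coprime c p) (hpq : Nat.Coprime p q)
    (hq : 0 < q) (hr : r < q) :
    ∃ a, a < p * q ∧ ∀ n, (n % q = r ∧ p ∣ c * (n + h) + 1) ↔ n % (p * q) = a := by
  obtain ⟨u, _, hu⟩ := Nat.exists_mul_mod_eq_one_of_coprime hc hp.one_lt
  set v := (p - 1) * u with hv
  have hp1 := hp.one_lt
  have hdv : p ∣ c * v + 1 := by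
    have h1 : c * u = p * (c * u / p) + 1 := by
      have := Nat.div_add_mod (c * u) p
      rw [hu] at this
      exact this.symm
    obtain ⟨t, ht⟩ : ∃ t, p = t + 1 := ⟨p - 1, by omega⟩
    have h2 : c * v + 1 = p * (1 + (p - 1) * (c * u / p)) := by
      calc c * v + 1 = (p - 1) * (c * u) + 1 := by rw [hv]; ring
        _ = (p - 1) * (p * (c * u / p) + 1) + 1 := by rw [← h1]
        _ = p * (1 + (p - 1) * (c * u / p)) := by
            have h3 : p - 1 = t := by omega
            rw [h3]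
            generalize c * u / p = y
            rw [ht]
            ring
    rw [h2]
    exact dvd_mul_right _ _
  have hcp : Nat.Coprime p c := hc.symm
  set b := v + (p - 1) * h with hb
  have hbh : b + h ≡ v [MOD p] := by
    have h3 : b + h = v + p * h := by
      rw [hb]
      obtain ⟨t, ht⟩ : ∃ t, p = t + 1 := ⟨p - 1, by omega⟩
      rw [ht, Nat.add_sub_cancel]
      ring
    rw [h3]
    unfold Nat.ModEq
    rw [Nat.add_mul_mod_self_left]
  obtain ⟨k, hk1, hk2⟩ := Nat.chineseRemainder hpq b r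
  refine ⟨k % (p * q), Nat.mod_lt _ (Nat.mul_pos hp.pos hq), fun n => ?_⟩
  constructor
  · rintro ⟨h1, h2⟩
    have h3 : n ≡ k [MOD q] := by
      refine Nat.ModEq.trans ?_ hk2.symm
      unfold Nat.ModEq
      rw [h1, Nat.mod_eq_of_lt hr]
    have h4 : n + h ≡ v [MOD p] := modEq_of_dvd hcp h2 hdv
    have h5 : n ≡ k [MOD p] := by
      refine Nat.ModEq.trans ?_ hk1.symm
      exact Nat.ModEq.add_right_cancel' h (h4.trans hbh.symm)
    exact (Nat.modEq_and_modEq_iff_modEq_mul hpq).1 ⟨h5, h3⟩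
  · intro h1
    have h2 : n ≡ k [MOD p * q] := h1
    obtain ⟨h5, h3⟩ := (Nat.modEq_and_modEq_iff_modEq_mul hpq).2 h2
    constructor
    · have h4 := h3.trans hk2
      unfold Nat.ModEq at h4
      rwa [Nat.mod_eq_of_lt hr] at h4
    · have h4 : n + h ≡ v [MOD p] := ((h5.trans hk1).add_right h).trans hbh
      have h6 : c * (n + h) + 1 ≡ c * v + 1 [MOD p] := (h4.mul_left c).add_right 1
      exact Nat.modEq_zero_iff_dvd.1 (h6.trans (Nat.modEq_zero_iff_dvd.2 hdv))

/-- the two classes of a prime which does not divide the modulus compensate each other -/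
lemma compensate {x p q r h : ℕ} (hp : p.Prime) (h25 : 25 ≤ p) (hpq : ¬ p ∣ q)
    (hq : 0 < q) (hr : r < q) {f : ℕ → ℝ} (hf0 : ∀ n, 3 ≤ n → 0 ≤ f n)
    (hf1 : ∀ n, 3 ≤ n → f n ≤ 1) (hf : ∀ n m, 3 ≤ n → n ≤ m → f m ≤ f n) :
    |∑ n ∈ (AP x q r).filter (fun n => p ∈ Lp (n + h)), f n -
      ∑ n ∈ (AP x q r).filter (fun n => p ∈ Lm (n + h)), f n| ≤ 1 := by
  classical
  have hco : Nat.Coprime p q := (Nat.Prime.coprime_iff_not_dvd hp).2 hpq
  obtain ⟨a, ha, ha'⟩ := crt (h := h) (c := 2) hp
    (coprime_small hp (by norm_num) (by omega)).symm hco hq hr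
  obtain ⟨b, hb, hb'⟩ := crt (h := h) (c := 3) hp
    (coprime_small hp (by norm_num) (by omega)).symm hco hq hr
  set n₀ := max 3 (p ^ 2 - h) with hn₀
  have hn₀3 : 3 ≤ n₀ := le_max_left _ _
  by_cases hN : 4 * p ^ 2 ≤ h
  · have e1 : (AP x q r).filter (fun n => p ∈ Lp (n + h)) = ∅ := by
      rw [filter_eq_empty_iff]
      intro n _ h1
      have := (mem_Lp.1 h1).1.2.2.2
      omega
    have e2 : (AP x q r).filter (fun n => p ∈ Lm (n + h)) = ∅ := by
      rw [filter_eq_empty_iff]
      intro n _ h1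
      have := (mem_Lm.1 h1).1.2.2.2
      omega
    rw [e1, e2]
    simp
  rw [not_le] at hN
  set N := min x (4 * p ^ 2 - h - 1) with hNd
  have hset : ∀ (c e : ℕ) (Q : ℕ → Finset ℕ), (∀ n, p ∈ Q n ↔ Act p n ∧ p ∣ c * n + 1) →
      (∀ n, (n % q = r ∧ p ∣ c * (n + h) + 1) ↔ n % (p * q) = e) →
      (AP x q r).filter (fun n => p ∈ Q (n + h)) = Q198.CI.CL n₀ N (p * q) e := by
    intro c e Q hQ he
    ext n
    rw [mem_filter, mem_AP, hQ, Q198.CI.mem_CL, ← he]
    unfold Act
    rw [hn₀, hNd]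
    constructor
    · rintro ⟨⟨⟨h1, h2⟩, h3⟩, ⟨_, _, h4, h5⟩, h6⟩
      refine ⟨⟨?_, ?_⟩, h3, h6⟩
      · apply max_le h1
        omega
      · apply le_min h2
        omega
    · rintro ⟨⟨h1, h2⟩, h3, h4⟩
      have h5 := le_trans (le_max_left _ _) h1
      have h6 := le_trans (le_max_right _ _) h1
      have h7 := le_trans h2 (min_le_left _ _)
      have h8 := le_trans h2 (min_le_right _ _)
      refine ⟨⟨⟨h5, h7⟩, h3⟩, ⟨hp, h25, by omega, by omega⟩, h4⟩
  rw [hset 2 a Lp (fun n => mem_Lp) ha', hset 3 b Lm (fun n => mem_Lm) hb']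
  have hg0 : ∀ n, n₀ ≤ n → 0 ≤ f n := fun n hn => hf0 n (hn₀3.trans hn)
  have hg : ∀ n m, n₀ ≤ n → n ≤ m → f m ≤ f n := fun n m hn => hf n m (hn₀3.trans hn)
  have h1 := Q198.CI.CL_diff (N := N) ha hb hg0 hg
  have h2 := Q198.CI.CL_diff (N := N) hb ha hg0 hg
  have h3 := hf1 n₀ hn₀3
  rw [abs_le]
  constructor <;> linarith

section
variable (x q r h : ℕ) (w : ℕ → ℝ)

/-- the coefficients of the linear sum -/
noncomputable def tc (β : ℕ) : ℝ :=
  ∑ n ∈ (AP x q r).filter (fun n => β ∈ Ch (n + h)), w n * co (n + h) β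

lemma abs_tc_le_card (hw : ∀ n, |w n| ≤ 1) (β : ℕ) :
    |tc x q r h w β| ≤ ((AP x q r).filter (fun n => β ∈ Ch (n + h))).card := by
  unfold tc
  refine (abs_sum_le_sum_abs _ _).trans ?_
  calc _ ≤ ∑ n ∈ (AP x q r).filter (fun n => β ∈ Ch (n + h)), (1 : ℝ) := by
        refine sum_le_sum fun n _ => ?_
        rw [abs_mul]
        have h1 := abs_co_le (n + h) β
        have h2 := hw n
        nlinarith [abs_nonneg (w n), abs_nonneg (co (n + h) β)]
    _ = _ := by rw [sum_const, nsmul_eq_mul, mul_one]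

lemma tc_even (p : ℕ) : tc x q r h w (2 * p) =
    1 / 4 * (∑ n ∈ (AP x q r).filter (fun n => p ∈ Lp (n + h)), w n * g (n + h) -
      ∑ n ∈ (AP x q r).filter (fun n => p ∈ Lm (n + h)), w n * g (n + h)) := by
  classical
  unfold tc
  rw [sum_filter, sum_filter, sum_filter, ← sum_sub_distrib, mul_sum]
  refine sum_congr rfl fun n _ => ?_
  by_cases h1 : p ∈ Lp (n + h)
  · have h2 : p ∉ Lm (n + h) := fun h2 => disj h1 h2
    have h3 : 2 * p ∈ Ch (n + h) := mem_Ch.2 (Or.inr ⟨p, mem_union_left _ h1, rfl⟩)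
    rw [if_pos h1, if_neg h2, if_pos h3]
    unfold co
    rw [if_neg (by omega), Nat.mul_div_cancel_left p two_pos, if_pos h1]
    ring
  · by_cases h2 : p ∈ Lm (n + h)
    · have h3 : 2 * p ∈ Ch (n + h) := mem_Ch.2 (Or.inr ⟨p, mem_union_right _ h2, rfl⟩)
      rw [if_neg h1, if_pos h2, if_pos h3]
      unfold co
      rw [if_neg (by omega), Nat.mul_div_cancel_left p two_pos, if_neg h1]
      ring
    · have h3 : 2 * p ∉ Ch (n + h) := by
        intro h3
        rcases mem_Ch.1 h3 with h4 | ⟨p', hp', h4⟩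
        · omega
        · have : p = p' := by omega
          rw [← this] at hp'
          rcases mem_union.1 hp' with h5 | h5
          · exact h1 h5
          · exact h2 h5
      rw [if_neg h1, if_neg h2, if_neg h3]
      ring

open Classical in
/-- the coefficients without the primes dividing the modulus -/
noncomputable def tcr (β : ℕ) : ℝ := if ∃ p ∈ q.primeFactors, β = 2 * p then 0 else tc x q r h w β

/-- the linear sum -/
theorem lin_expand (hq : 0 < q) {M : ℕ} (hM : ∀ n ∈ AP x q r, 2 * (n + h) + 1 < M)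
    (S : Set ℕ) :
    ∑ n ∈ AP x q r, w n * z (n + h) S =
      ∑ p ∈ q.primeFactors, tc x q r h w (2 * p) * sg p S +
        poly proc M (lin (tcr x q r h w)) S := by
  classical
  -- `Ch` is below `M`
  have hCh : ∀ n ∈ AP x q r, Ch (n + h) ⊆ range M := by
    intro n hn β hβ
    rw [mem_range]
    have := hM n hn
    rcases mem_Ch.1 hβ with h2 | ⟨p, hp, h2⟩
    · omega
    · have := (mem_L.1 hp).1.le
      omega
  have h0 : ∀ β, β ∉ range M → tc x q r h w β = 0 := by
    intro β hβ
    unfold tc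
    rw [filter_eq_empty_iff.2 (fun n hn h1 => hβ (hCh n hn h1)), sum_empty]
  have h1 : ∑ n ∈ AP x q r, w n * z (n + h) S =
      ∑ β ∈ range M, tc x q r h w β * proc.d β S := by
    unfold tc
    simp_rw [sum_mul, sum_filter]
    rw [sum_comm]
    refine sum_congr rfl fun n hn => ?_
    rw [z_eq, mul_sum, ← sum_filter, filter_mem_eq_inter, inter_eq_right.2 (hCh n hn)]
    exact sum_congr rfl fun β _ => by ring
  rw [h1, poly_lin]
  have h2 : ∀ β ∈ range M, tc x q r h w β * proc.d β S =
      (if ∃ p ∈ q.primeFactors, β = 2 * p then tc x q r h w β * proc.d β S else 0) +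
        tcr x q r h w β * proc.d β S := by
    intro β _
    unfold tcr
    split_ifs <;> ring
  rw [sum_congr rfl h2, sum_add_distrib]
  congr 1
  rw [← sum_filter]
  have h3 : (range M).filter (fun β => ∃ p ∈ q.primeFactors, β = 2 * p) =
      (q.primeFactors.filter (fun p => 2 * p ∈ range M)).image (fun p => 2 * p) := by
    ext β
    rw [mem_filter, mem_image]
    constructor
    · rintro ⟨a1, p, a2, rfl⟩
      exact ⟨p, mem_filter.2 ⟨a2, a1⟩, rfl⟩
    · rintro ⟨p, a1, rfl⟩
      exact ⟨(mem_filter.1 a1).2, p, (mem_filter.1 a1).1, rfl⟩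
  rw [h3, sum_image (fun a _ b _ hab => by simpa using hab), sum_filter]
  refine sum_congr rfl fun p _ => ?_
  rw [d_even]
  split_ifs with h4
  · rfl
  · rw [h0 _ h4, zero_mul]

lemma tcr_sq_le (hq : 0 < q) (hr : r < q) (hw : ∀ n, |w n| ≤ 1)
    (hf0 : ∀ n, 3 ≤ n → 0 ≤ w n * g (n + h)) (hf1 : ∀ n, 3 ≤ n → w n * g (n + h) ≤ 1)
    (hf : ∀ n m, 3 ≤ n → n ≤ m → w m * g (m + h) ≤ w n * g (n + h)) (β : ℕ) :
    tcr x q r h w β ^ 2 ≤ ((AP x q r).filter (fun n => β ∈ Ch (n + h))).card := by
  classical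
  unfold tcr
  split_ifs with hex
  · norm_num
  · rcases ((AP x q r).filter (fun n => β ∈ Ch (n + h))).eq_empty_or_nonempty with h1 | h1
    · have h2 := abs_tc_le_card x q r h w hw β
      rw [h1, card_empty] at h2 ⊢
      have h3 : tc x q r h w β = 0 := by
        have := abs_nonneg (tc x q r h w β)
        have h4 : |tc x q r h w β| = 0 := le_antisymm (by simpa using h2) this
        exact abs_eq_zero.1 h4
      rw [h3]
      norm_num
    · have hcard : (1 : ℝ) ≤ ((AP x q r).filter (fun n => β ∈ Ch (n + h))).card := by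
        exact_mod_cast card_pos.2 h1
      have h2 : |tc x q r h w β| ≤ 1 := by
        obtain ⟨n, hn⟩ := h1
        rcases mem_Ch.1 (mem_filter.1 hn).2 with h3 | ⟨p, hp, h3⟩
        · -- odd
          refine (abs_tc_le_card x q r h w hw β).trans ?_
          have h4 : ((AP x q r).filter (fun n => β ∈ Ch (n + h))).card ≤ 1 := by
            rw [card_le_one]
            intro a ha b hb
            have ha' := mem_Ch.1 (mem_filter.1 ha).2
            have hb' := mem_Ch.1 (mem_filter.1 hb).2
            rcases ha' with ha' | ⟨p, _, ha'⟩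
            · rcases hb' with hb' | ⟨p, _, hb'⟩
              · omega
              · omega
            · omega
          exact_mod_cast h4
        · -- even
          obtain ⟨⟨hpp, h25, _, _⟩, _⟩ := mem_L.1 hp
          have hpq : ¬ p ∣ q := by
            intro hd
            exact hex ⟨p, Nat.mem_primeFactors.2 ⟨hpp, hd, hq.ne'⟩, h3⟩
          rw [h3, tc_even]
          have h5 := compensate (x := x) (h := h) hpp h25 hpq hq hr hf0 hf1 hf
          rw [abs_mul]
          have : |(1 : ℝ) / 4| = 1 / 4 := by norm_num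
          rw [this]
          linarith
      have h3 : tc x q r h w β ^ 2 ≤ 1 := by
        rw [← sq_abs]
        have := abs_nonneg (tc x q r h w β)
        nlinarith
      linarith

theorem lin_var (hq : 0 < q) (hr : r < q) (hw : ∀ n, |w n| ≤ 1)
    (hf0 : ∀ n, 3 ≤ n → 0 ≤ w n * g (n + h)) (hf1 : ∀ n, 3 ≤ n → w n * g (n + h) ≤ 1)
    (hf : ∀ n m, 3 ≤ n → n ≤ m → w m * g (m + h) ≤ w n * g (n + h)) (M : ℕ) :
    ∑ F ∈ (range M).powerset, lin (tcr x q r h w) F ^ 2 ≤ 5 * ((x / q + 1 : ℕ) : ℝ) := by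
  classical
  rw [sum_lin_sq]
  calc ∑ β ∈ range M, tcr x q r h w β ^ 2
      ≤ ∑ β ∈ range M, (((AP x q r).filter (fun n => β ∈ Ch (n + h))).card : ℝ) :=
        sum_le_sum fun β _ => tcr_sq_le x q r h w hq hr hw hf0 hf1 hf β
    _ = ((∑ β ∈ range M, ((AP x q r).filter (fun n => β ∈ Ch (n + h))).card : ℕ) : ℝ) := by
        push_cast; rfl
    _ ≤ ((5 * (AP x q r).card : ℕ) : ℝ) := by
        have h1 : ∑ β ∈ range M, ((AP x q r).filter (fun n => β ∈ Ch (n + h))).card ≤
            5 * (AP x q r).card := by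
          simp_rw [card_filter]
          rw [sum_comm]
          calc _ ≤ ∑ n ∈ AP x q r, 5 := by
                refine sum_le_sum fun n _ => ?_
                rw [← card_filter]
                refine (card_le_card ?_).trans (card_Ch (n + h))
                intro β hβ
                exact (mem_filter.1 hβ).2
            _ = _ := by rw [sum_const, smul_eq_mul, mul_comm]
        exact_mod_cast h1
    _ ≤ _ := by
        push_cast
        have := card_AP (x := x) (r := r) hq
        have h2 : ((AP x q r).card : ℝ) ≤ ((x / q + 1 : ℕ) : ℝ) := by exact_mod_cast this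
        push_cast at h2
        linarith

end

end Pool.Agent.H69.LB
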