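import Pool.Agent.H69.LB.Prob

/-! # The construction -/

set_option autoImplicit false

namespace Pool.Agent.H69.LB

open Finset

/-- the density -/
noncomputable def g (n : ℕ) : ℝ := if n < 3 then 0 else 1 / Real.log n

/-- the prime `p` is active at `n` -/
def Act (p n : ℕ) : Prop := p.Prime ∧ 25 ≤ p ∧ p ^ 2 ≤ n ∧ n < 4 * p ^ 2

instance (p n : ℕ) : Decidable (Act p n) := inferInstanceAs (Decidable (_ ∧ _ ∧ _ ∧ _))

/-- the active primes with a positive influence -/
def Lp (n : ℕ) : Finset ℕ := (range (n + 1)).filter (fun p => Act p n ∧ p ∣ 2 * n + 1)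

/-- the active primes with a negative influence -/
def Lm (n : ℕ) : Finset ℕ := (range (n + 1)).filter (fun p => Act p n ∧ p ∣ 3 * n + 1)

lemma Act.le {p n : ℕ} (h : Act p n) : p ≤ n := by
  obtain ⟨_, h1, h2, _⟩ := h
  nlinarith

lemma mem_Lp {p n : ℕ} : p ∈ Lp n ↔ Act p n ∧ p ∣ 2 * n + 1 := by
  unfold Lp
  rw [mem_filter, mem_range]
  exact ⟨fun h => h.2, fun h => ⟨Nat.lt_succ_of_le h.1.le, h⟩⟩

lemma mem_Lm {p n : ℕ} : p ∈ Lm n ↔ Act p n ∧ p ∣ 3 * n + 1 := by
  unfold Lm
  rw [mem_filter, mem_range]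
  exact ⟨fun h => h.2, fun h => ⟨Nat.lt_succ_of_le h.1.le, h⟩⟩

lemma disj {p n : ℕ} (h1 : p ∈ Lp n) (h2 : p ∈ Lm n) : False := by
  rw [mem_Lp] at h1
  rw [mem_Lm] at h2
  have h3 : p ∣ 3 * (2 * n + 1) := h1.2.mul_left 3
  have h4 : p ∣ 2 * (3 * n + 1) := h2.2.mul_left 2
  have h5 : p ∣ 3 * (2 * n + 1) - 2 * (3 * n + 1) := Nat.dvd_sub h3 h4
  have h6 : 3 * (2 * n + 1) - 2 * (3 * n + 1) = 1 := by omega
  rw [h6] at h5
  have := h1.1.1.one_lt
  have := Nat.le_of_dvd one_pos h5
  omega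

lemma card_le_two {n m : ℕ} (hm0 : 0 < m) (hm : m ≤ 3 * n + 1) (T : Finset ℕ)
    (hT : ∀ p ∈ T, Act p n ∧ p ∣ m) : T.card ≤ 2 := by
  by_contra hc
  rw [not_le] at hc
  obtain ⟨t, htT, ht⟩ := exists_subset_card_eq (show 3 ≤ T.card from hc)
  have hdvd : ∏ p ∈ t, p ∣ m := by
    apply Finset.prod_primes_dvd
    · intro p hp
      exact (hT p (htT hp)).1.1.prime
    · intro p hp
      exact (hT p (htT hp)).2
  obtain ⟨a, b, c, hab, hac, hbc, rfl⟩ := card_eq_three.1 ht
  rw [prod_insert (by simp [hab, hac]), prod_insert (by simp [hbc]), prod_singleton] at hdvd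
  have hle := (Nat.le_of_dvd hm0 hdvd).trans hm
  obtain ⟨⟨_, a1, a2, a3⟩, _⟩ := hT a (htT (by simp))
  obtain ⟨⟨_, b1, b2, b3⟩, _⟩ := hT b (htT (by simp))
  obtain ⟨⟨_, c1, c2, c3⟩, _⟩ := hT c (htT (by simp))
  have hn : 625 ≤ n := by nlinarith
  have h1 : n * n * n ≤ (4 * a ^ 2) * (4 * b ^ 2) * (4 * c ^ 2) :=
    Nat.mul_le_mul (Nat.mul_le_mul a3.le b3.le) c3.le
  have h2 : (4 * a ^ 2) * (4 * b ^ 2) * (4 * c ^ 2) = 64 * (a * (b * c)) ^ 2 := by ring
  have h3 : (a * (b * c)) ^ 2 ≤ (3 * n + 1) ^ 2 := Nat.pow_le_pow_left hle 2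
  have h4 : n * n * n ≤ 64 * (3 * n + 1) ^ 2 := by
    rw [h2] at h1
    exact h1.trans (Nat.mul_le_mul_left 64 h3)
  nlinarith

lemma card_Lp (n : ℕ) : (Lp n).card ≤ 2 :=
  card_le_two (m := 2 * n + 1) (by omega) (by omega) _ fun _ hp => mem_Lp.1 hp

lemma card_Lm (n : ℕ) : (Lm n).card ≤ 2 :=
  card_le_two (m := 3 * n + 1) (by omega) (by omega) _ fun _ hp => mem_Lm.1 hp

/-- the sign of a prime -/
noncomputable def sg (p : ℕ) (S : Set ℕ) : ℝ := open Classical in if 2 * p ∈ S then 1 else -1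

/-- the indicator function of the set -/
noncomputable def bit (n : ℕ) (S : Set ℕ) : ℝ := open Classical in if 2 * n + 1 ∈ S then 1 else 0

/-- the probability of `n` -/
noncomputable def Pn (n : ℕ) (S : Set ℕ) : ℝ :=
  g n + g n / 4 * (∑ p ∈ Lp n, sg p S - ∑ p ∈ Lm n, sg p S)

lemma abs_sg (p : ℕ) (S : Set ℕ) : |sg p S| = 1 := by
  unfold sg
  split_ifs <;> simp

lemma one_lt_log {n : ℕ} (hn : 3 ≤ n) : 1 < Real.log n := by
  have h1 : Real.exp 1 < n := by
    have := Real.exp_one_lt_d9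
    have h2 : (3 : ℝ) ≤ n := by exact_mod_cast hn
    linarith
  rw [Real.lt_log_iff_exp_lt (by positivity)]
  exact h1

lemma g_nonneg (n : ℕ) : 0 ≤ g n := by
  unfold g
  split_ifs with h
  · exact le_rfl
  · have := one_lt_log (not_lt.1 h)
    positivity

lemma g_le_one (n : ℕ) : g n ≤ 1 := by
  unfold g
  split_ifs with h
  · norm_num
  · have := one_lt_log (not_lt.1 h)
    rw [div_le_one (by linarith)]
    exact this.le

lemma g_le_half {n : ℕ} (hn : 625 ≤ n) : g n ≤ 1 / 2 := by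
  unfold g
  rw [if_neg (by omega)]
  have h1 : 2 ≤ Real.log n := by
    rw [Real.le_log_iff_exp_le (by positivity)]
    have h2 : Real.exp 2 = Real.exp 1 * Real.exp 1 := by rw [← Real.exp_add]; norm_num
    have h3 := Real.exp_one_lt_d9
    have h4 : (625 : ℝ) ≤ n := by exact_mod_cast hn
    have h5 := Real.exp_pos 1
    nlinarith
  exact one_div_le_one_div_of_le (by norm_num) h1

lemma abs_sum_sg_le (T : Finset ℕ) (hT : T.card ≤ 2) (S : Set ℕ) : |∑ p ∈ T, sg p S| ≤ 2 := by
  calc |∑ p ∈ T, sg p S| ≤ ∑ p ∈ T, |sg p S| := abs_sum_le_sum_abs _ _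
    _ = T.card := by simp [abs_sg]
    _ ≤ 2 := by exact_mod_cast hT

lemma Pn_bounds (n : ℕ) (S : Set ℕ) : 0 ≤ Pn n S ∧ Pn n S ≤ 1 := by
  have h1 := abs_le.1 (abs_sum_sg_le _ (card_Lp n) S)
  have h2 := abs_le.1 (abs_sum_sg_le _ (card_Lm n) S)
  have hg := g_nonneg n
  have hg1 := g_le_one n
  unfold Pn
  by_cases h : Lp n = ∅ ∧ Lm n = ∅
  · rw [h.1, h.2]
    simp [hg, hg1]
  · have hn : 625 ≤ n := by
      rw [not_and_or] at h
      rcases h with h | h
      · obtain ⟨p, hp⟩ := nonempty_iff_ne_empty.2 h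
        obtain ⟨⟨_, h3, h4, _⟩, _⟩ := mem_Lp.1 hp
        nlinarith
      · obtain ⟨p, hp⟩ := nonempty_iff_ne_empty.2 h
        obtain ⟨⟨_, h3, h4, _⟩, _⟩ := mem_Lm.1 hp
        nlinarith
    have hg2 := g_le_half hn
    constructor
    · nlinarith
    · nlinarith

lemma sg_loc {p m : ℕ} (h : 2 * p < m) : Loc m (sg p) := by
  intro S T hST
  have h1 := hST _ h
  unfold sg
  by_cases hs : 2 * p ∈ S
  · rw [if_pos hs, if_pos (h1.1 hs)]
  · rw [if_neg hs, if_neg fun h => hs (h1.2 h)]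

lemma Pn_loc (n : ℕ) : Loc (2 * n + 1) (Pn n) := by
  intro S T hST
  unfold Pn
  have h1 : ∑ p ∈ Lp n, sg p S = ∑ p ∈ Lp n, sg p T :=
    sum_congr rfl fun p hp => sg_loc (by have := (mem_Lp.1 hp).1.le; omega) S T hST
  have h2 : ∑ p ∈ Lm n, sg p S = ∑ p ∈ Lm n, sg p T :=
    sum_congr rfl fun p hp => sg_loc (by have := (mem_Lm.1 hp).1.le; omega) S T hST
  rw [h1, h2]

open Classical in
/-- the process -/
noncomputable def proc : Proc where
  pr β S := if Even β then 1 / 2 else Pn (β / 2) S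
  d β S := if Even β then sg (β / 2) S else bit (β / 2) S - Pn (β / 2) S
  pr0 β S := by
    split_ifs
    · norm_num
    · exact (Pn_bounds _ _).1
  pr1 β S := by
    split_ifs
    · norm_num
    · exact (Pn_bounds _ _).2
  prloc β S T h := by
    split_ifs with hβ
    · rfl
    · rw [Nat.not_even_iff_odd] at hβ
      have := Nat.two_mul_div_two_add_one_of_odd hβ
      exact Pn_loc (β / 2) S T fun i hi => h i (by omega)
  dloc β S T h := by
    split_ifs with hβ
    · have := Nat.two_mul_div_two_of_even hβ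
      exact sg_loc (m := β + 1) (by omega) S T fun i hi => h i (by omega)
    · rw [Nat.not_even_iff_odd] at hβ
      have h2 := Nat.two_mul_div_two_add_one_of_odd hβ
      have h4 := h (2 * (β / 2) + 1) (by omega)
      have h3 : bit (β / 2) S = bit (β / 2) T := by
        unfold bit
        by_cases hs : 2 * (β / 2) + 1 ∈ S
        · rw [if_pos hs, if_pos (h4.1 hs)]
        · rw [if_neg hs, if_neg fun h => hs (h4.2 h)]
      rw [h3, Pn_loc (β / 2) S T fun i hi => h i (by omega)]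
  d1 β S := by
    split_ifs
    · exact (abs_sg _ _).le
    · have := Pn_bounds (β / 2) S
      rw [abs_le]
      unfold bit
      split_ifs <;> constructor <;> linarith
  mean β S hβS := by
    by_cases hβ : Even β
    · have h2 := Nat.two_mul_div_two_of_even hβ
      simp only [if_pos hβ]
      unfold sg
      rw [h2, if_neg hβS, if_pos (Set.mem_insert _ _)]
      norm_num
    · simp only [if_neg hβ]
      rw [Nat.not_even_iff_odd] at hβ
      have h2 := Nat.two_mul_div_two_add_one_of_odd hβ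
      have h3 : Pn (β / 2) (insert β S) = Pn (β / 2) S := by
        apply Pn_loc
        intro i hi
        simp only [Set.mem_insert_iff]
        constructor
        · rintro (h | h)
          · omega
          · exact h
        · exact fun h => Or.inr h
      rw [h3]
      unfold bit
      rw [h2, if_neg hβS, if_pos (Set.mem_insert _ _)]
      ring

lemma d_even (p : ℕ) (S : Set ℕ) : proc.d (2 * p) S = sg p S := by
  show (if Even (2 * p) then sg (2 * p / 2) S else _) = _
  rw [if_pos (even_two_mul p), Nat.mul_div_cancel_left p two_pos]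

lemma d_odd (n : ℕ) (S : Set ℕ) : proc.d (2 * n + 1) S = bit n S - Pn n S := by
  show (if Even (2 * n + 1) then _ else bit ((2 * n + 1) / 2) S - Pn ((2 * n + 1) / 2) S) = _
  have h : ¬ Even (2 * n + 1) := by simp
  rw [if_neg h]
  have : (2 * n + 1) / 2 = n := by omega
  rw [this]

/-- the possible terms of the fluctuation at `n` -/
def Ch (n : ℕ) : Finset ℕ := insert (2 * n + 1) ((Lp n ∪ Lm n).image (fun p => 2 * p))

/-- the coefficients of the fluctuation at `n` -/
noncomputable def co (n β : ℕ) : ℝ :=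
  if β = 2 * n + 1 then 1 else if β / 2 ∈ Lp n then g n / 4 else - (g n / 4)

lemma abs_co_le (n β : ℕ) : |co n β| ≤ 1 := by
  have h1 := g_nonneg n
  have h2 := g_le_one n
  unfold co
  rw [abs_le]
  split_ifs <;> constructor <;> linarith

lemma card_Ch (n : ℕ) : (Ch n).card ≤ 5 := by
  unfold Ch
  refine (card_insert_le _ _).trans ?_
  have h1 := card_image_le (s := Lp n ∪ Lm n) (f := fun p => 2 * p)
  have h2 := card_union_le (Lp n) (Lm n)
  have h3 := card_Lp n
  have h4 := card_Lm n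
  omega

/-- the fluctuation at `n` -/
noncomputable def z (n : ℕ) (S : Set ℕ) : ℝ := bit n S - g n

lemma z_eq (n : ℕ) (S : Set ℕ) : z n S = ∑ β ∈ Ch n, co n β * proc.d β S := by
  unfold Ch
  rw [sum_insert, sum_image (fun a _ b _ h => by simpa using h), sum_union]
  · rw [d_odd]
    have h1 : ∑ p ∈ Lp n, co n (2 * p) * proc.d (2 * p) S = g n / 4 * ∑ p ∈ Lp n, sg p S := by
      rw [mul_sum]
      refine sum_congr rfl fun p hp => ?_
      rw [d_even]
      unfold co
      rw [if_neg (by omega), Nat.mul_div_cancel_left p two_pos, if_pos hp]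
    have h2 : ∑ p ∈ Lm n, co n (2 * p) * proc.d (2 * p) S = - (g n / 4 * ∑ p ∈ Lm n, sg p S) := by
      rw [mul_sum, ← sum_neg_distrib]
      refine sum_congr rfl fun p hp => ?_
      rw [d_even]
      unfold co
      rw [if_neg (by omega), Nat.mul_div_cancel_left p two_pos, if_neg fun h => disj h hp]
      ring
    rw [h1, h2]
    unfold z Pn co
    rw [if_pos rfl]
    ring
  · rw [disjoint_left]
    exact fun p h1 h2 => disj h1 h2
  · intro h
    rw [mem_image] at h
    obtain ⟨p, _, hp⟩ := h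
    omega

end Pool.Agent.H69.LB
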