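import Pool.Agent.H69.LB.Count
import Pool.Agent.H69.LB.Select

/-! # Products of at least two fluctuations -/

set_option autoImplicit false

namespace Pool.Agent.H69.LB

open Finset

variable {ι : Type} [Fintype ι] [DecidableEq ι] (h : ι → ℕ) (I : Finset ℕ) (w : ℕ → ℝ)

/-- the choices of terms -/
def cs (n : ℕ) : Finset (ι → ℕ) := Fintype.piFinset (fun i => Ch (n + h i))

/-- the coefficient of a choice -/
noncomputable def cf (n : ℕ) (c : ι → ℕ) : ℝ := w n * ∏ i, co (n + h i) (c i)

lemma card_cs (n : ℕ) : (cs h n).card ≤ 5 ^ Fintype.card ι := by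
  unfold cs
  rw [Fintype.card_piFinset]
  calc ∏ i, (Ch (n + h i)).card ≤ ∏ _i : ι, 5 := prod_le_prod' fun i _ => card_Ch _
    _ = 5 ^ Fintype.card ι := by rw [prod_const, card_univ]

lemma abs_cf_le (hw : ∀ n, |w n| ≤ 1) (n : ℕ) (c : ι → ℕ) : |cf h w n c| ≤ 1 := by
  unfold cf
  rw [abs_mul, abs_prod]
  have h1 : ∏ i, |co (n + h i) (c i)| ≤ 1 :=
    prod_le_one (fun i _ => abs_nonneg _) fun i _ => abs_co_le _ _
  have h2 : 0 ≤ ∏ i, |co (n + h i) (c i)| := prod_nonneg fun i _ => abs_nonneg _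
  have h3 := hw n
  nlinarith [abs_nonneg (w n)]

lemma prod_z (n : ℕ) (S : Set ℕ) :
    w n * ∏ i, z (n + h i) S = ∑ c ∈ cs h n, cf h w n c * ∏ i, proc.d (c i) S := by
  simp_rw [z_eq]
  rw [prod_univ_sum, mul_sum]
  refine sum_congr rfl fun c _ => ?_
  unfold cf
  rw [prod_mul_distrib, mul_assoc]

open Classical in
/-- the coefficients of the polynomial -/
noncomputable def acoef (F : Finset ℕ) : ℝ :=
  ∑ n ∈ I, ∑ c ∈ (cs h n).filter (fun c => Function.Injective c ∧ univ.image c = F), cf h w n c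

lemma acoef_card (F : Finset ℕ) (hF : acoef h I w F ≠ 0) : F.card ≤ Fintype.card ι := by
  classical
  unfold acoef at hF
  obtain ⟨n, _, hn⟩ := exists_ne_zero_of_sum_ne_zero hF
  obtain ⟨c, hc, _⟩ := exists_ne_zero_of_sum_ne_zero hn
  rw [mem_filter] at hc
  rw [← hc.2.2]
  exact card_image_le.trans (by rw [card_univ])

/-- the number of choices with a given set -/
noncomputable def NF (F : Finset ℕ) : ℕ := open Classical in
  ∑ n ∈ I, ((cs h n).filter (fun c => Function.Injective c ∧ univ.image c = F)).card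

lemma abs_acoef_le (hw : ∀ n, |w n| ≤ 1) (F : Finset ℕ) : |acoef h I w F| ≤ NF h I F := by
  classical
  unfold acoef NF
  push_cast
  refine (abs_sum_le_sum_abs _ _).trans (sum_le_sum fun n _ => ?_)
  refine (abs_sum_le_sum_abs _ _).trans ?_
  calc ∑ c ∈ (cs h n).filter (fun c => Function.Injective c ∧ univ.image c = F), |cf h w n c|
      ≤ ∑ c ∈ (cs h n).filter (fun c => Function.Injective c ∧ univ.image c = F), (1 : ℝ) :=
        sum_le_sum fun c _ => abs_cf_le h w hw n c
    _ = _ := by rw [sum_const, nsmul_eq_mul, mul_one]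

/-- the integers at which a given set can arise -/
lemma card_nF (ht : 2 ≤ Fintype.card ι) (hinj : Function.Injective h) (F : Finset ℕ)
    (T : Finset ℕ) (hT : ∀ n ∈ T, ∃ c ∈ cs h n, Function.Injective c ∧ univ.image c = F) :
    T.card ≤ 16 * Fintype.card ι ^ 2 := by
  classical
  by_cases hodd : ∃ m, 2 * m + 1 ∈ F
  · obtain ⟨m, hm⟩ := hodd
    have hsub : T ⊆ (univ : Finset ι).image (fun i => m - h i) := by
      intro n hn
      obtain ⟨c, hc, _, hF⟩ := hT n hn
      rw [← hF, mem_image] at hm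
      obtain ⟨i, _, hi⟩ := hm
      have h1 : c i ∈ Ch (n + h i) := Fintype.mem_piFinset.1 hc i
      rw [hi, mem_Ch] at h1
      rcases h1 with h1 | ⟨p, _, h1⟩
      · rw [mem_image]
        exact ⟨i, mem_univ _, by omega⟩
      · omega
    calc T.card ≤ _ := card_le_card hsub
      _ ≤ Fintype.card ι := card_image_le.trans (by rw [card_univ])
      _ ≤ 16 * Fintype.card ι ^ 2 := by nlinarith
  · push Not at hodd
    rcases T.eq_empty_or_nonempty with hT0 | ⟨n₀, hn₀⟩
    · rw [hT0]; simp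
    -- two different elements
    obtain ⟨β, β', hβ, hβ', hne⟩ : ∃ β β', β ∈ F ∧ β' ∈ F ∧ β ≠ β' := by
      obtain ⟨c, _, hcinj, hF⟩ := hT n₀ hn₀
      have hcard : F.card = Fintype.card ι := by
        rw [← hF, card_image_of_injective _ hcinj, card_univ]
      have : 1 < F.card := by omega
      obtain ⟨a, ha, b, hb, hab⟩ := one_lt_card.1 this
      exact ⟨a, b, ha, hb, hab⟩
    have key : ∀ n ∈ T, ∃ i j : ι, β / 2 ∈ L (n + h i) ∧ β' / 2 ∈ L (n + h j) ∧
        β = 2 * (β / 2) ∧ β' = 2 * (β' / 2) := by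
      intro n hn
      obtain ⟨c, hc, _, hF⟩ := hT n hn
      have hget : ∀ γ ∈ F, ∃ i, γ / 2 ∈ L (n + h i) ∧ γ = 2 * (γ / 2) := by
        intro γ hγ
        have hγ' := hγ
        rw [← hF, mem_image] at hγ
        obtain ⟨i, _, hi⟩ := hγ
        have h1 : c i ∈ Ch (n + h i) := Fintype.mem_piFinset.1 hc i
        rw [hi, mem_Ch] at h1
        rcases h1 with h1 | ⟨p, hp, h1⟩
        · exact absurd (h1 ▸ hγ') (hodd _)
        · refine ⟨i, ?_, by omega⟩
          have : γ / 2 = p := by omega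
          rw [this]
          exact hp
      obtain ⟨i, hi, hi'⟩ := hget β hβ
      obtain ⟨j, hj, hj'⟩ := hget β' hβ'
      exact ⟨i, j, hi, hj, hi', hj'⟩
    have hpp : β / 2 ≠ β' / 2 := by
      obtain ⟨_, _, _, _, h1, h2⟩ := key n₀ hn₀
      intro h3
      exact hne (by omega)
    have hsub : T ⊆ (univ : Finset (ι × ι)).biUnion (fun ij =>
        T.filter (fun n => β / 2 ∈ L (n + h ij.1) ∧ β' / 2 ∈ L (n + h ij.2))) := by
      intro n hn
      obtain ⟨i, j, h1, h2, _, _⟩ := key n hn
      rw [mem_biUnion]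
      exact ⟨(i, j), mem_univ _, mem_filter.2 ⟨hn, h1, h2⟩⟩
    calc T.card ≤ _ := card_le_card hsub
      _ ≤ ∑ ij : ι × ι, (T.filter (fun n => β / 2 ∈ L (n + h ij.1) ∧
          β' / 2 ∈ L (n + h ij.2))).card := card_biUnion_le
      _ ≤ ∑ _ij : ι × ι, 16 := by
          refine sum_le_sum fun ij _ => card_two hpp _ fun n hn => (mem_filter.1 hn).2
      _ = 16 * Fintype.card ι ^ 2 := by
          rw [sum_const, card_univ, Fintype.card_prod, smul_eq_mul]
          ring

lemma NF_le (ht : 2 ≤ Fintype.card ι) (hinj : Function.Injective h) (F : Finset ℕ) :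
    NF h I F ≤ 16 * Fintype.card ι ^ 2 * 5 ^ Fintype.card ι := by
  classical
  unfold NF
  set T := I.filter (fun n => ∃ c ∈ cs h n, Function.Injective c ∧ univ.image c = F) with hT
  have h1 : ∑ n ∈ I, ((cs h n).filter (fun c => Function.Injective c ∧ univ.image c = F)).card =
      ∑ n ∈ T, ((cs h n).filter (fun c => Function.Injective c ∧ univ.image c = F)).card := by
    rw [hT, sum_filter]
    refine sum_congr rfl fun n _ => ?_
    split_ifs with h2
    · rfl
    · rw [card_eq_zero, filter_eq_empty_iff]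
      intro c hc h3
      exact h2 ⟨c, hc, h3⟩
  rw [h1]
  calc _ ≤ ∑ n ∈ T, 5 ^ Fintype.card ι :=
        sum_le_sum fun n _ => (card_filter_le _ _).trans (card_cs h n)
    _ = T.card * 5 ^ Fintype.card ι := by rw [sum_const, smul_eq_mul]
    _ ≤ _ := by
        apply Nat.mul_le_mul_right
        exact card_nF h ht hinj F T fun n hn => (mem_filter.1 hn).2

lemma image_mem {M : ℕ} (hM : ∀ n ∈ I, ∀ i, 2 * (n + h i) + 1 < M) {n : ℕ} (hn : n ∈ I)
    {c : ι → ℕ} (hc : c ∈ cs h n) : univ.image c ∈ (range M).powerset := by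
  classical
  rw [mem_powerset]
  intro β hβ
  rw [mem_image] at hβ
  obtain ⟨i, _, rfl⟩ := hβ
  have h1 : c i ∈ Ch (n + h i) := Fintype.mem_piFinset.1 hc i
  rw [mem_range]
  have := hM n hn i
  rcases mem_Ch.1 h1 with h2 | ⟨p, hp, h2⟩
  · omega
  · have := (mem_L.1 hp).1.le
    omega

lemma sum_NF {M : ℕ} (hM : ∀ n ∈ I, ∀ i, 2 * (n + h i) + 1 < M) :
    ∑ F ∈ (range M).powerset, NF h I F ≤ 5 ^ Fintype.card ι * I.card := by
  classical
  unfold NF
  rw [sum_comm]
  calc _ ≤ ∑ n ∈ I, 5 ^ Fintype.card ι := by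
        refine sum_le_sum fun n hn => ?_
        refine le_trans (le_of_eq ?_) ((card_filter_le (cs h n)
          (fun c => Function.Injective c)).trans (card_cs h n))
        rw [card_eq_sum_card_fiberwise (f := fun c => univ.image c) (t := (range M).powerset)]
        · refine sum_congr rfl fun F _ => ?_
          rw [filter_filter]
        · intro c hc
          exact image_mem h I hM hn (mem_filter.1 (mem_coe.1 hc)).1
    _ = _ := by rw [sum_const, smul_eq_mul, mul_comm]

lemma sum_acoef_sq (hw : ∀ n, |w n| ≤ 1) (ht : 2 ≤ Fintype.card ι) (hinj : Function.Injective h)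
    {M : ℕ} (hM : ∀ n ∈ I, ∀ i, 2 * (n + h i) + 1 < M) :
    ∑ F ∈ (range M).powerset, acoef h I w F ^ 2 ≤
      (16 * Fintype.card ι ^ 2 * 25 ^ Fintype.card ι : ℕ) * (I.card : ℝ) := by
  calc ∑ F ∈ (range M).powerset, acoef h I w F ^ 2
      ≤ ∑ F ∈ (range M).powerset, ((16 * Fintype.card ι ^ 2 * 5 ^ Fintype.card ι : ℕ) : ℝ) *
          (NF h I F : ℝ) := by
        refine sum_le_sum fun F _ => ?_
        have h1 := abs_acoef_le h I w hw F
        have h2 : (NF h I F : ℝ) ≤ ((16 * Fintype.card ι ^ 2 * 5 ^ Fintype.card ι : ℕ) : ℝ) := by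
          exact_mod_cast NF_le h I ht hinj F
        rw [← sq_abs, sq]
        exact mul_le_mul (h1.trans h2) h1 (abs_nonneg _) (Nat.cast_nonneg _)
    _ = ((16 * Fintype.card ι ^ 2 * 5 ^ Fintype.card ι : ℕ) : ℝ) *
          ((∑ F ∈ (range M).powerset, NF h I F : ℕ) : ℝ) := by
        rw [← mul_sum]
        push_cast
        rfl
    _ ≤ ((16 * Fintype.card ι ^ 2 * 5 ^ Fintype.card ι : ℕ) : ℝ) *
          ((5 ^ Fintype.card ι * I.card : ℕ) : ℝ) := by
        gcongr
        exact sum_NF h I hM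
    _ = _ := by
        push_cast
        have : (25 : ℝ) ^ Fintype.card ι = 5 ^ Fintype.card ι * 5 ^ Fintype.card ι := by
          rw [← mul_pow]; norm_num
        rw [this]
        ring

/-- the expansion -/
theorem mul_expand (hw : ∀ n, |w n| ≤ 1) (hinj : Function.Injective h)
    {M : ℕ} (hM : ∀ n ∈ I, ∀ i, 2 * (n + h i) + 1 < M) (x : ℕ) (hI : I ⊆ range (x + 1))
    (hx : ∀ i, h i ≤ x) (S : Set ℕ) :
    |∑ n ∈ I, w n * ∏ i, z (n + h i) S - poly proc M (acoef h I w) S| ≤
      ((5 ^ Fintype.card ι * (Fintype.card ι ^ 2 *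
        (24 * (Nat.log 2 (x + 1) + 4) * Nat.sqrt (2 * x))) : ℕ) : ℝ) := by
  classical
  set k := Fintype.card ι with hk
  have hsplit : ∑ n ∈ I, w n * ∏ i, z (n + h i) S =
      ∑ n ∈ I, ∑ c ∈ (cs h n).filter (fun c => Function.Injective c),
        cf h w n c * ∏ i, proc.d (c i) S +
      ∑ n ∈ I, ∑ c ∈ (cs h n).filter (fun c => ¬ Function.Injective c),
        cf h w n c * ∏ i, proc.d (c i) S := by
    rw [← sum_add_distrib]
    refine sum_congr rfl fun n _ => ?_
    rw [prod_z, sum_filter_add_sum_filter_not]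
  have hfirst : ∑ n ∈ I, ∑ c ∈ (cs h n).filter (fun c => Function.Injective c),
        cf h w n c * ∏ i, proc.d (c i) S = poly proc M (acoef h I w) S := by
    unfold poly acoef
    simp_rw [sum_mul]
    rw [sum_comm]
    refine sum_congr rfl fun n hn => ?_
    rw [← sum_fiberwise_of_maps_to (s := (cs h n).filter (fun c => Function.Injective c))
      (t := (range M).powerset) (g := fun c => univ.image c)
      (fun c hc => image_mem h I hM hn (mem_filter.1 hc).1)]
    refine sum_congr rfl fun F _ => ?_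
    rw [filter_filter]
    refine sum_congr rfl fun c hc => ?_
    obtain ⟨hcinj, hF⟩ := (mem_filter.1 hc).2
    rw [← hF, prod_image (fun a _ b _ hab => hcinj hab)]
  rw [hsplit, hfirst, add_sub_cancel_left]
  set B := I.filter (fun n => ∃ c ∈ cs h n, ¬ Function.Injective c) with hB
  have hBcard : B.card ≤ k ^ 2 * (24 * (Nat.log 2 (x + 1) + 4) * Nat.sqrt (2 * x)) := by
    have hsub : B ⊆ ((univ : Finset (ι × ι)).filter (fun ij => ij.1 ≠ ij.2)).biUnion
        (fun ij => Bad x (h ij.1) (h ij.2)) := by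
      intro n hn
      rw [hB, mem_filter] at hn
      obtain ⟨hnI, c, hc, hni⟩ := hn
      unfold Function.Injective at hni
      push Not at hni
      obtain ⟨i, j, hij, hne⟩ := hni
      rw [mem_biUnion]
      refine ⟨(i, j), mem_filter.2 ⟨mem_univ _, hne⟩, ?_⟩
      unfold Bad
      rw [mem_filter]
      refine ⟨hI hnI, ?_⟩
      have h1 : c i ∈ Ch (n + h i) := Fintype.mem_piFinset.1 hc i
      have h2 : c j ∈ Ch (n + h j) := Fintype.mem_piFinset.1 hc j
      have hhne : h i ≠ h j := fun h => hne (hinj h)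
      rw [← hij] at h2
      rcases mem_Ch.1 h1 with a1 | ⟨p, hp, a1⟩ <;> rcases mem_Ch.1 h2 with a2 | ⟨p', hp', a2⟩
      · exact absurd (show h i = h j by omega) hhne
      · omega
      · omega
      · have : p = p' := by omega
        exact ⟨p, hp, this ▸ hp'⟩
    calc B.card ≤ _ := card_le_card hsub
      _ ≤ ∑ ij ∈ (univ : Finset (ι × ι)).filter (fun ij => ij.1 ≠ ij.2),
          (Bad x (h ij.1) (h ij.2)).card := card_biUnion_le
      _ ≤ ∑ ij ∈ (univ : Finset (ι × ι)).filter (fun ij => ij.1 ≠ ij.2),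
          24 * (Nat.log 2 (x + 1) + 4) * Nat.sqrt (2 * x) := by
          refine sum_le_sum fun ij hij => ?_
          exact card_bad (fun h' => (mem_filter.1 hij).2 (hinj h')) (hx _) (hx _)
      _ = ((univ : Finset (ι × ι)).filter (fun ij => ij.1 ≠ ij.2)).card *
          (24 * (Nat.log 2 (x + 1) + 4) * Nat.sqrt (2 * x)) := by rw [sum_const, smul_eq_mul]
      _ ≤ _ := by
          apply Nat.mul_le_mul_right
          refine (card_filter_le _ _).trans ?_
          rw [card_univ, Fintype.card_prod, ← hk]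
          exact le_of_eq (by ring)
  have hd1 : ∀ n c, |cf h w n c * ∏ i, proc.d (c i) S| ≤ 1 := by
    intro n c
    rw [abs_mul, abs_prod]
    have h1 : ∏ i, |proc.d (c i) S| ≤ 1 :=
      prod_le_one (fun i _ => abs_nonneg _) fun i _ => proc.d1 _ _
    have h2 : 0 ≤ ∏ i, |proc.d (c i) S| := prod_nonneg fun i _ => abs_nonneg _
    have h3 := abs_cf_le h w hw n c
    nlinarith [abs_nonneg (cf h w n c)]
  have hrest : ∑ n ∈ I, ∑ c ∈ (cs h n).filter (fun c => ¬ Function.Injective c),
        cf h w n c * ∏ i, proc.d (c i) S =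
      ∑ n ∈ B, ∑ c ∈ (cs h n).filter (fun c => ¬ Function.Injective c),
        cf h w n c * ∏ i, proc.d (c i) S := by
    rw [hB, sum_filter]
    refine sum_congr rfl fun n _ => ?_
    split_ifs with h2
    · rfl
    · have : (cs h n).filter (fun c => ¬ Function.Injective c) = ∅ := by
        rw [filter_eq_empty_iff]
        intro c hc h3
        exact h2 ⟨c, hc, h3⟩
      rw [this, sum_empty]
  rw [hrest]
  calc _ ≤ ∑ n ∈ B, |∑ c ∈ (cs h n).filter (fun c => ¬ Function.Injective c),
        cf h w n c * ∏ i, proc.d (c i) S| := abs_sum_le_sum_abs _ _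
    _ ≤ ∑ n ∈ B, ((5 ^ k : ℕ) : ℝ) := by
        refine sum_le_sum fun n _ => ?_
        calc _ ≤ ∑ c ∈ (cs h n).filter (fun c => ¬ Function.Injective c),
              |cf h w n c * ∏ i, proc.d (c i) S| := abs_sum_le_sum_abs _ _
          _ ≤ ∑ c ∈ (cs h n).filter (fun c => ¬ Function.Injective c), (1 : ℝ) :=
              sum_le_sum fun c _ => hd1 n c
          _ = (((cs h n).filter (fun c => ¬ Function.Injective c)).card : ℝ) := by
              rw [sum_const, nsmul_eq_mul, mul_one]
          _ ≤ _ := by exact_mod_cast (card_filter_le _ _).trans (card_cs h n)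
    _ = ((B.card * 5 ^ k : ℕ) : ℝ) := by rw [sum_const, nsmul_eq_mul]; push_cast; rfl
    _ ≤ _ := by
        rw [mul_comm]
        exact_mod_cast Nat.mul_le_mul_left _ hBcard

end Pool.Agent.H69.LB
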