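import Pool.Agent.H69.LB.Fixed

/-! # Levels at least one half are not admissible -/

set_option autoImplicit false

namespace Pool.Agent.H69.LB

open Finset Filter

/-- many primes between `m / 4` and `m` -/
lemma many_primes : ∀ᶠ m : ℕ in atTop,
    (m : ℝ) / 4 ≤ ((Icc 1 m).filter (fun p => p.Prime ∧ m < 4 * p)).card * Real.log m := by
  have hlog : ∀ᶠ m : ℕ in atTop, Real.log m ≤ 1 / 100 * (m : ℝ) ^ (1 / 2 : ℝ) := by
    have h1 := (isLittleO_log_rpow_atTop (r := 1 / 2) (by norm_num)).def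
      (show (0 : ℝ) < 1 / 100 by norm_num)
    filter_upwards [tendsto_natCast_atTop_atTop.eventually h1, eventually_ge_atTop 1] with m h2 h3
    rw [Real.norm_of_nonneg (Real.log_nonneg (by exact_mod_cast h3)),
      Real.norm_of_nonneg (by positivity)] at h2
    exact h2
  filter_upwards [hlog, eventually_ge_atTop 1000] with m hm hm1
  have hm1' : (1000 : ℝ) ≤ m := by exact_mod_cast hm1
  have hm0 : (0 : ℝ) < m := by linarith
  have hlog0 : 0 ≤ Real.log m := Real.log_nonneg (by linarith)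
  have hsq : √(m : ℝ) * √(m : ℝ) = m := Real.mul_self_sqrt hm0.le
  rw [← Real.sqrt_eq_rpow] at hm
  have hsq0 : 0 ≤ √(m : ℝ) := Real.sqrt_nonneg _
  have hs30 : 30 ≤ √(m : ℝ) := by
    apply Real.le_sqrt_of_sq_le
    linarith
  have h1 := Chebyshev.theta_ge m
  have h2 := Chebyshev.theta_le_log4_mul_x (x := (m : ℝ) / 4) (by positivity)
  have hl4 : Real.log 4 = 2 * Real.log 2 := by
    rw [show (4 : ℝ) = 2 ^ 2 by norm_num, Real.log_pow]
    norm_num
  have hl2 := Real.log_two_gt_d9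
  have h3 : Real.log ((m : ℝ) + 1) ≤ Real.log m + 1 := by
    have : Real.log ((m : ℝ) + 1) ≤ Real.log (m * Real.exp 1) := by
      apply Real.log_le_log (by positivity)
      have := Real.add_one_le_exp (1 : ℝ)
      nlinarith
    rwa [Real.log_mul hm0.ne' (Real.exp_pos 1).ne', Real.log_exp] at this
  have h4 : (m : ℝ) / 4 ≤ Chebyshev.theta m - Chebyshev.theta ((m : ℝ) / 4) := by
    rw [hl4] at h2
    nlinarith
  refine h4.trans ?_
  rw [Chebyshev.theta_eq_sum_Icc, Chebyshev.theta_eq_sum_Icc, Nat.floor_natCast]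
  have h5 : (Icc 0 ⌊(m : ℝ) / 4⌋₊).filter Nat.Prime ⊆ (Icc 0 m).filter Nat.Prime := by
    apply filter_subset_filter
    apply Icc_subset_Icc_right
    apply Nat.floor_le_of_le
    linarith
  rw [← sum_sdiff h5, add_sub_cancel_right]
  have h6 : (Icc 0 m).filter Nat.Prime \ (Icc 0 ⌊(m : ℝ) / 4⌋₊).filter Nat.Prime ⊆
      (Icc 1 m).filter (fun p => p.Prime ∧ m < 4 * p) := by
    intro p hp
    rw [Finset.mem_sdiff, mem_filter, mem_filter, mem_Icc, mem_Icc] at hp
    obtain ⟨⟨hp1, hp2⟩, hp3⟩ := hp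
    rw [mem_filter, mem_Icc]
    refine ⟨⟨hp2.one_le, hp1.2⟩, hp2, ?_⟩
    by_contra hc
    rw [not_lt] at hc
    apply hp3
    refine ⟨⟨Nat.zero_le _, Nat.le_floor ?_⟩, hp2⟩
    have : (4 : ℝ) * p ≤ m := by exact_mod_cast hc
    linarith
  calc _ ≤ ∑ p ∈ (Icc 1 m).filter (fun p => p.Prime ∧ m < 4 * p), Real.log p := by
        apply sum_le_sum_of_subset_of_nonneg h6
        intro p hp _
        rw [mem_filter, mem_Icc] at hp
        exact Real.log_nonneg (by exact_mod_cast hp.1.1)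
    _ ≤ ∑ p ∈ (Icc 1 m).filter (fun p => p.Prime ∧ m < 4 * p), Real.log m := by
        refine sum_le_sum fun p hp => ?_
        rw [mem_filter, mem_Icc] at hp
        exact Real.log_le_log (by exact_mod_cast hp.1.1) (by exact_mod_cast hp.1.2)
    _ = _ := by rw [sum_const, nsmul_eq_mul]

/-- the class of a prime with many elements or few elements -/
lemma tc_large {m p : ℕ} (hp : p.Prime) (h25 : 25 ≤ p) (hpm : p ≤ m) :
    (p : ℝ) / (4 * Real.log ((4 * m ^ 2 : ℕ) : ℝ)) ≤
      |tc (4 * m ^ 2) p ((p - 1) / 2) 0 (fun _ => 1) (2 * p)| := by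
  classical
  set x := 4 * m ^ 2 with hx
  set r := (p - 1) / 2 with hr
  have hodd : 2 * r + 1 = p := by
    have h1 : p ≠ 2 := by omega
    obtain ⟨t, ht⟩ := hp.odd_of_ne_two h1
    omega
  have hpx : 4 * p ^ 2 ≤ x := by
    rw [hx]
    exact Nat.mul_le_mul_left 4 (Nat.pow_le_pow_left hpm 2)
  have hlogx : 1 < Real.log (x : ℝ) := one_lt_log (by nlinarith)
  have hdvd : ∀ n ∈ AP x p r, p ∣ 2 * n + 1 := by
    intro n hn
    rw [mem_AP] at hn
    have h1 : 2 * n + 1 ≡ 2 * r + 1 [MOD p] := by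
      apply Nat.ModEq.add_right
      apply Nat.ModEq.mul_left
      show n % p = r % p
      rw [hn.2, Nat.mod_eq_of_lt (by omega)]
    rw [hodd] at h1
    exact Nat.modEq_zero_iff_dvd.1 (h1.trans (Nat.modEq_zero_iff_dvd.2 dvd_rfl))
  rw [tc_even]
  simp only [add_zero, one_mul]
  have hm : (AP x p r).filter (fun n => p ∈ Lm n) = ∅ := by
    rw [filter_eq_empty_iff]
    intro n hn h1
    exact disj (mem_Lp.2 ⟨(mem_Lm.1 h1).1, hdvd n hn⟩) h1
  rw [hm, sum_empty, sub_zero]
  have hsub : (range p).image (fun t => p ^ 2 + p * t + r) ⊆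
      (AP x p r).filter (fun n => p ∈ Lp n) := by
    intro n hn
    rw [mem_image] at hn
    obtain ⟨t, ht, rfl⟩ := hn
    rw [mem_range] at ht
    have h1 : p * t + r < p ^ 2 := by
      have : p * t + p ≤ p * p := by
        rw [← Nat.mul_succ]
        exact Nat.mul_le_mul_left p ht
      have : p ^ 2 = p * p := sq p
      omega
    have h2 : p ^ 2 + p * t + r ∈ AP x p r := by
      rw [mem_AP]
      refine ⟨⟨by nlinarith, by omega⟩, ?_⟩
      rw [show p ^ 2 + p * t + r = r + p * (p + t) by ring, Nat.add_mul_mod_self_left]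
      exact Nat.mod_eq_of_lt (by omega)
    rw [mem_filter]
    refine ⟨h2, mem_Lp.2 ⟨⟨hp, h25, by omega, by omega⟩, hdvd _ h2⟩⟩
  have hsum : (p : ℝ) / Real.log x ≤ ∑ n ∈ (AP x p r).filter (fun n => p ∈ Lp n), g n := by
    calc (p : ℝ) / Real.log x = ∑ t ∈ range p, 1 / Real.log x := by
          rw [sum_const, card_range, nsmul_eq_mul]
          ring
      _ ≤ ∑ t ∈ range p, g (p ^ 2 + p * t + r) := by
          refine sum_le_sum fun t ht => ?_
          have h1 := hsub (mem_image.2 ⟨t, ht, rfl⟩)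
          rw [mem_filter, mem_AP] at h1
          have h2 := g_anti h1.1.1.1 h1.1.1.2
          refine le_trans (le_of_eq ?_) h2
          unfold g
          rw [if_neg (by omega)]
      _ = ∑ n ∈ (range p).image (fun t => p ^ 2 + p * t + r), g n := by
          rw [sum_image]
          intro a _ b _ hab
          simp only at hab
          have : p * a = p * b := by omega
          exact Nat.eq_of_mul_eq_mul_left hp.pos this
      _ ≤ _ := sum_le_sum_of_subset_of_nonneg hsub fun n _ _ => g_nonneg n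
  have h0 : 0 ≤ (p : ℝ) / Real.log x := by positivity
  rw [abs_of_nonneg (by linarith)]
  calc (p : ℝ) / (4 * Real.log (x : ℝ)) = 1 / 4 * ((p : ℝ) / Real.log x) := by
        field_simp
    _ ≤ _ := by linarith

theorem not_admissible {S : Set ℕ} (hS : LinTest S) {α : ℝ} (hα : 1 / 2 ≤ α) :
    ¬ Admissible (setA S) α := by
  classical
  intro hadm
  obtain ⟨C, hC⟩ := hadm 3 (by norm_num)
  obtain ⟨C1, hC10, hC1⟩ := hS (1 / 16) (by norm_num)
  -- the parameter
  have hev1 : ∀ᶠ m : ℕ in atTop,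
      Real.log m ≤ 1 / (128 * (20 * C1 + 4)) * (m : ℝ) ^ (3 / 8 : ℝ) := by
    have h1 := (isLittleO_log_rpow_atTop (r := 3 / 8) (by norm_num)).def
      (show (0 : ℝ) < 1 / (128 * (20 * C1 + 4)) by positivity)
    filter_upwards [tendsto_natCast_atTop_atTop.eventually h1, eventually_ge_atTop 1] with m h2 h3
    rw [Real.norm_of_nonneg (Real.log_nonneg (by exact_mod_cast h3)),
      Real.norm_of_nonneg (by positivity)] at h2
    exact h2
  have hev2 : ∀ᶠ m : ℕ in atTop, 512 * |C| < Real.log m :=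
    (Real.tendsto_log_atTop.comp tendsto_natCast_atTop_atTop).eventually_gt_atTop _
  obtain ⟨m, hm1, hm2, hm3, hm4⟩ :=
    (hev1.and (hev2.and (many_primes.and (eventually_ge_atTop 100)))).exists
  have hm4' : (100 : ℝ) ≤ m := by exact_mod_cast hm4
  have hm0 : (0 : ℝ) < m := by linarith
  set x : ℕ := 4 * m ^ 2 with hx
  have hxR : ((x : ℕ) : ℝ) = 4 * (m : ℝ) ^ 2 := by rw [hx]; push_cast; ring
  have hx3 : (3 : ℝ) ≤ (x : ℝ) := by rw [hxR]; nlinarith
  have hlogm : 1 < Real.log m := one_lt_log (by omega)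
  have hlx1 : Real.log m ≤ Real.log x := by
    apply Real.log_le_log hm0
    rw [hxR]
    nlinarith
  have hlx2 : Real.log x ≤ 4 * Real.log m := by
    have : Real.log x ≤ Real.log ((m : ℝ) ^ 4) := by
      apply Real.log_le_log (by linarith)
      rw [hxR]
      nlinarith [sq_nonneg ((m : ℝ) ^ 2 - 4), pow_pos hm0 2]
    rwa [Real.log_pow] at this
  have hlx0 : 0 < Real.log (x : ℝ) := by linarith
  set P := (Icc 1 m).filter (fun p => p.Prime ∧ m < 4 * p) with hP
  set l : ℕ → ℕ := fun d => if d.Prime ∧ 2 < d then (d - 1) / 2 else 1 with hl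
  have hlco : ∀ d, Nat.Coprime (l d) d := by
    intro d
    simp only [hl]
    split_ifs with h
    · have : Nat.Coprime d ((d - 1) / 2) := by
        rw [Nat.Prime.coprime_iff_not_dvd h.1]
        intro hd
        have := Nat.le_of_dvd (by omega) hd
        omega
      exact this.symm
    · exact Nat.coprime_one_left d
  have h1 := hC x hx3 l hlco
  rw [Nat.floor_natCast] at h1
  -- the primes
  have hPsub : P ⊆ (Icc 1 ⌊(x : ℝ) ^ α⌋₊).filter Squarefree := by
    intro p hp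
    rw [hP, mem_filter, mem_Icc] at hp
    rw [mem_filter, mem_Icc]
    refine ⟨⟨hp.1.1, Nat.le_floor ?_⟩, hp.2.1.squarefree⟩
    have h2 : (p : ℝ) ≤ m := by exact_mod_cast hp.1.2
    have h3 : (x : ℝ) ^ (1 / 2 : ℝ) ≤ (x : ℝ) ^ α :=
      Real.rpow_le_rpow_of_exponent_le (by linarith) hα
    have h4 : (x : ℝ) ^ (1 / 2 : ℝ) = 2 * m := by
      rw [← Real.sqrt_eq_rpow, hxR, show 4 * (m : ℝ) ^ 2 = (2 * m) ^ 2 by ring]
      exact Real.sqrt_sq (by positivity)
    linarith
  have hone : ∀ p ∈ P, (m : ℝ) / (32 * Real.log x) ≤ |err (setA S) x p (l p)| := by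
    intro p hp
    rw [hP, mem_filter, mem_Icc] at hp
    obtain ⟨⟨_, hpm⟩, hpp, hmp⟩ := hp
    have h26 : 26 ≤ p := by omega
    have hlp : l p = (p - 1) / 2 := by
      simp only [hl]
      rw [if_pos ⟨hpp, by omega⟩]
    rw [hlp]
    set r := (p - 1) / 2 with hr
    have hrp : r < p := by omega
    have hr' : ∀ n : ℕ, (n : ℤ) ≡ (r : ℤ) [ZMOD p] ↔ n % p = r := by
      intro n
      rw [Int.natCast_modEq_iff]
      unfold Nat.ModEq
      rw [Nat.mod_eq_of_lt hrp]
    have e1 := err_le S x hpp.pos hrp hr'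
    have hpx : p ≤ x := by rw [hx]; nlinarith
    have e2 := hC1 x p r (by omega) hpp.one_le hpx hrp
    rw [hpp.primeFactors, sum_singleton] at e2
    have e3 := tc_large hpp (by omega) hpm
    rw [← hx, ← hr] at e3
    have e4 : |tc x p r 0 (fun _ => 1) (2 * p) * sg p S| =
        |tc x p r 0 (fun _ => 1) (2 * p)| := by rw [abs_mul, abs_sg, mul_one]
    -- the error terms
    have e5 : C1 * ((x : ℝ) + 1) ^ (1 / 16 : ℝ) * √(5 * ((x / p + 1 : ℕ) : ℝ)) ≤
        20 * C1 * (m : ℝ) ^ (5 / 8 : ℝ) := by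
      have f1 : ((x : ℝ) + 1) ^ (1 / 16 : ℝ) ≤ 2 * (m : ℝ) ^ (1 / 8 : ℝ) := by
        have : ((x : ℝ) + 1) ≤ 2 ^ (16 : ℝ) * (m : ℝ) ^ (2 : ℝ) := by
          rw [hxR]
          norm_num
          nlinarith
        calc ((x : ℝ) + 1) ^ (1 / 16 : ℝ) ≤ (2 ^ (16 : ℝ) * (m : ℝ) ^ (2 : ℝ)) ^ (1 / 16 : ℝ) :=
              Real.rpow_le_rpow (by positivity) this (by norm_num)
          _ = _ := by
              rw [Real.mul_rpow (by positivity) (by positivity), ← Real.rpow_mul (by norm_num),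
                ← Real.rpow_mul hm0.le]
              norm_num
      have f2 : √(5 * ((x / p + 1 : ℕ) : ℝ)) ≤ 10 * (m : ℝ) ^ (1 / 2 : ℝ) := by
        rw [← Real.sqrt_eq_rpow]
        have f3 : ((x / p + 1 : ℕ) : ℝ) ≤ 17 * m := by
          have f4 : x / p ≤ 16 * m := by
            rw [Nat.div_le_iff_le_mul_add_pred hpp.pos, hx]
            nlinarith
          have f5 : x / p + 1 ≤ 17 * m := by omega
          exact_mod_cast f5
        calc √(5 * ((x / p + 1 : ℕ) : ℝ)) ≤ √(10 ^ 2 * m) := by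
              apply Real.sqrt_le_sqrt
              linarith
          _ = 10 * √(m : ℝ) := by
              rw [Real.sqrt_mul (by norm_num), Real.sqrt_sq (by norm_num)]
      calc C1 * ((x : ℝ) + 1) ^ (1 / 16 : ℝ) * √(5 * ((x / p + 1 : ℕ) : ℝ)) ≤
          C1 * (2 * (m : ℝ) ^ (1 / 8 : ℝ)) * (10 * (m : ℝ) ^ (1 / 2 : ℝ)) := by gcongr
        _ = 20 * C1 * ((m : ℝ) ^ (1 / 8 : ℝ) * (m : ℝ) ^ (1 / 2 : ℝ)) := by ring
        _ = _ := by
            rw [← Real.rpow_add hm0]
            norm_num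
    have e6 : (20 * C1 + 4) * (m : ℝ) ^ (5 / 8 : ℝ) ≤ (m : ℝ) / (32 * Real.log x) := by
      rw [le_div_iff₀ (by positivity)]
      have g1 : (m : ℝ) ^ (5 / 8 : ℝ) * (m : ℝ) ^ (3 / 8 : ℝ) = m := by
        rw [← Real.rpow_add hm0]
        norm_num
      have g2 : 0 < (m : ℝ) ^ (5 / 8 : ℝ) := by positivity
      calc (20 * C1 + 4) * (m : ℝ) ^ (5 / 8 : ℝ) * (32 * Real.log x) ≤
          (20 * C1 + 4) * (m : ℝ) ^ (5 / 8 : ℝ) * (32 * (4 *
            (1 / (128 * (20 * C1 + 4)) * (m : ℝ) ^ (3 / 8 : ℝ)))) := by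
            apply mul_le_mul_of_nonneg_left _ (by positivity)
            linarith
        _ = (m : ℝ) ^ (5 / 8 : ℝ) * (m : ℝ) ^ (3 / 8 : ℝ) := by
            field_simp
            ring
        _ = m := g1
    have e7 : (4 : ℝ) ≤ 4 * (m : ℝ) ^ (5 / 8 : ℝ) := by
      have : 1 ≤ (m : ℝ) ^ (5 / 8 : ℝ) := Real.one_le_rpow (by linarith) (by norm_num)
      linarith
    have e8 : (m : ℝ) / (16 * Real.log x) ≤ (p : ℝ) / (4 * Real.log x) := by
      rw [div_le_div_iff₀ (by positivity) (by positivity)]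
      have : (m : ℝ) ≤ 4 * p := by exact_mod_cast hmp.le
      nlinarith
    have e9 : (m : ℝ) / (16 * Real.log x) = 2 * ((m : ℝ) / (32 * Real.log x)) := by
      field_simp
      norm_num
    have e10 : |tc x p r 0 (fun _ => 1) (2 * p) * sg p S| ≤
        |err (setA S) x p r| + |err (setA S) x p r - ∑ n ∈ AP x p r, z n S| +
        |∑ n ∈ AP x p r, z n S - tc x p r 0 (fun _ => 1) (2 * p) * sg p S| := by
      have a1 := abs_sub_le (0 : ℝ) (∑ n ∈ AP x p r, z n S)
        (tc x p r 0 (fun _ => 1) (2 * p) * sg p S)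
      have a2 := abs_sub_le (0 : ℝ) (err (setA S) x p r) (∑ n ∈ AP x p r, z n S)
      rw [zero_sub, abs_neg, zero_sub, abs_neg] at a1 a2
      linarith
    rw [e4] at e10
    linarith
  -- the sum
  have h2 : (P.card : ℝ) * ((m : ℝ) / (32 * Real.log x)) ≤
      ∑ d ∈ (Icc 1 ⌊(x : ℝ) ^ α⌋₊).filter Squarefree, |err (setA S) x d (l d)| := by
    calc (P.card : ℝ) * ((m : ℝ) / (32 * Real.log x)) = ∑ p ∈ P, (m : ℝ) / (32 * Real.log x) := by
          rw [sum_const, nsmul_eq_mul]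
      _ ≤ ∑ p ∈ P, |err (setA S) x p (l p)| := sum_le_sum hone
      _ ≤ _ := sum_le_sum_of_subset_of_nonneg hPsub fun _ _ _ => abs_nonneg _
  have h3 : (m : ℝ) / (4 * Real.log x) ≤ P.card := by
    rw [div_le_iff₀ (by positivity)]
    have : (P.card : ℝ) * Real.log m ≤ (P.card : ℝ) * Real.log x :=
      mul_le_mul_of_nonneg_left hlx1 (Nat.cast_nonneg _)
    linarith
  have h4 : (m : ℝ) / (4 * Real.log x) * ((m : ℝ) / (32 * Real.log x)) ≤
      |C| * ((x : ℝ) / (Real.log x) ^ 3) := by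
    calc (m : ℝ) / (4 * Real.log x) * ((m : ℝ) / (32 * Real.log x)) ≤
        (P.card : ℝ) * ((m : ℝ) / (32 * Real.log x)) := by
          apply mul_le_mul_of_nonneg_right h3 (by positivity)
      _ ≤ C * ((x : ℝ) / (Real.log x) ^ (3 : ℝ)) := h2.trans h1
      _ ≤ |C| * ((x : ℝ) / (Real.log x) ^ (3 : ℝ)) := by
          apply mul_le_mul_of_nonneg_right (le_abs_self C) (by positivity)
      _ = _ := by
          rw [show (3 : ℝ) = ((3 : ℕ) : ℝ) by norm_num, Real.rpow_natCast]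
  have hfrac : |C| * ((x : ℝ) / (Real.log x) ^ 3) = |C| * (4 * (m : ℝ) ^ 2) / (Real.log x) ^ 3 := by
    rw [← hxR]
    ring
  rw [hfrac, div_mul_div_comm, div_le_div_iff₀ (by positivity) (by positivity)] at h4
  have h5 : (m : ℝ) ^ 2 * (Real.log x) ^ 2 * Real.log x ≤
      (m : ℝ) ^ 2 * (Real.log x) ^ 2 * (512 * |C|) := by nlinarith
  have h6 := le_of_mul_le_mul_left h5 (by positivity)
  linarith

end Pool.Agent.H69.LB
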