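import Mathlib
import Pool.Graph.R_pool_sql_team_22c7b01f.H18.Bonami1

/-! # Finite random processes of bits and hypercontractivity -/

set_option autoImplicit false

namespace Pool.Agent.H69.LB

open Finset

/-- a random process of bits: `pr β S` is the probability of the bit `β` given the past `S`, and
`d β` is a bounded martingale difference -/
structure Proc where
  pr : ℕ → Set ℕ → ℝ
  d : ℕ → Set ℕ → ℝ
  pr0 : ∀ β S, 0 ≤ pr β S
  pr1 : ∀ β S, pr β S ≤ 1
  prloc : ∀ β S T, (∀ i, i < β → (i ∈ S ↔ i ∈ T)) → pr β S = pr β T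
  dloc : ∀ β S T, (∀ i, i ≤ β → (i ∈ S ↔ i ∈ T)) → d β S = d β T
  d1 : ∀ β S, |d β S| ≤ 1
  mean : ∀ β S, β ∉ S → (1 - pr β S) * d β S + pr β S * d β (insert β S) = 0

variable (P : Proc)

open Classical in
/-- the weight of a configuration of the first `M` bits -/
noncomputable def W (M : ℕ) (A : Finset ℕ) : ℝ :=
  ∏ β ∈ range M, if β ∈ A then P.pr β A else 1 - P.pr β A

/-- the expectation -/
noncomputable def E (M : ℕ) (G : Set ℕ → ℝ) : ℝ := ∑ A ∈ (range M).powerset, W P M A * G A

lemma W_nonneg (M : ℕ) (A : Finset ℕ) : 0 ≤ W P M A := by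
  classical
  unfold W
  refine prod_nonneg fun β _ => ?_
  split_ifs
  · exact P.pr0 _ _
  · linarith [P.pr1 β A]

lemma E_congr {M : ℕ} {G G' : Set ℕ → ℝ} (h : ∀ A : Finset ℕ, A ⊆ range M → G A = G' A) :
    E P M G = E P M G' :=
  sum_congr rfl fun A hA => by rw [h A (mem_powerset.1 hA)]

lemma E_mono {M : ℕ} {G G' : Set ℕ → ℝ} (h : ∀ A : Finset ℕ, A ⊆ range M → G A ≤ G' A) :
    E P M G ≤ E P M G' :=
  sum_le_sum fun A hA => mul_le_mul_of_nonneg_left (h A (mem_powerset.1 hA)) (W_nonneg P M A)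

lemma E_add (M : ℕ) (G G' : Set ℕ → ℝ) :
    E P M (fun S => G S + G' S) = E P M G + E P M G' := by
  unfold E
  rw [← sum_add_distrib]
  exact sum_congr rfl fun A _ => by ring

lemma E_mul (M : ℕ) (c : ℝ) (G : Set ℕ → ℝ) :
    E P M (fun S => c * G S) = c * E P M G := by
  unfold E
  rw [mul_sum]
  exact sum_congr rfl fun A _ => by ring

lemma E_sum {κ : Type*} (M : ℕ) (t : Finset κ) (G : κ → Set ℕ → ℝ) :
    E P M (fun S => ∑ k ∈ t, G k S) = ∑ k ∈ t, E P M (G k) := by
  unfold E
  rw [sum_comm]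
  exact sum_congr rfl fun A _ => by rw [mul_sum]

lemma E_succ (M : ℕ) (G : Set ℕ → ℝ) :
    E P (M + 1) G = E P M (fun S => (1 - P.pr M S) * G S + P.pr M S * G (insert M S)) := by
  classical
  unfold E
  rw [range_add_one, sum_powerset_insert (notMem_range_self)]
  rw [← sum_add_distrib]
  refine sum_congr rfl fun A hA => ?_
  have hA' : A ⊆ range M := mem_powerset.1 hA
  have hM : M ∉ A := fun h => notMem_range_self (hA' h)
  have e1 : W P (M + 1) A = W P M A * (1 - P.pr M A) := by
    unfold W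
    rw [prod_range_succ, if_neg hM]
  have e2 : W P (M + 1) (insert M A) = W P M A * P.pr M A := by
    unfold W
    rw [prod_range_succ, if_pos (mem_insert_self _ _)]
    congr 1
    · refine prod_congr rfl fun β hβ => ?_
      have hβM : β < M := mem_range.1 hβ
      have h1 : P.pr β (insert M A : Finset ℕ) = P.pr β A := by
        apply P.prloc
        intro i hi
        simp only [coe_insert, Set.mem_insert_iff, mem_coe]
        constructor
        · rintro (h | h)
          · omega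
          · exact h
        · exact fun h => Or.inr h
      have h2 : β ∈ insert M A ↔ β ∈ A := by
        rw [mem_insert]
        constructor
        · rintro (h | h)
          · omega
          · exact h
        · exact fun h => Or.inr h
      simp only [h1, h2]
    · apply P.prloc
      intro i hi
      simp only [coe_insert, Set.mem_insert_iff, mem_coe]
      constructor
      · rintro (h | h)
        · omega
        · exact h
      · exact fun h => Or.inr h
  rw [e1, e2, coe_insert]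
  ring

lemma E_one (M : ℕ) : E P M (fun _ => 1) = 1 := by
  induction M with
  | zero => simp [E, W]
  | succ M ih =>
    rw [E_succ]
    refine (congrArg (E P M) (funext fun S => ?_)).trans ih
    ring

/-- `G` depends on the bits below `m` only -/
def Loc (m : ℕ) (G : Set ℕ → ℝ) : Prop := ∀ S T, (∀ i, i < m → (i ∈ S ↔ i ∈ T)) → G S = G T

lemma Loc.mono {m m' : ℕ} {G : Set ℕ → ℝ} (h : Loc m G) (hm : m ≤ m') : Loc m' G :=
  fun S T hST => h S T fun i hi => hST i (hi.trans_le hm)

lemma Loc.const (m : ℕ) (c : ℝ) : Loc m (fun _ => c) := fun _ _ _ => rfl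

lemma Loc.add {m : ℕ} {G G' : Set ℕ → ℝ} (h : Loc m G) (h' : Loc m G') :
    Loc m (fun S => G S + G' S) := fun S T hST => by simp only [h S T hST, h' S T hST]

lemma Loc.mul {m : ℕ} {G G' : Set ℕ → ℝ} (h : Loc m G) (h' : Loc m G') :
    Loc m (fun S => G S * G' S) := fun S T hST => by simp only [h S T hST, h' S T hST]

lemma Loc.pow {m : ℕ} {G : Set ℕ → ℝ} (h : Loc m G) (n : ℕ) :
    Loc m (fun S => G S ^ n) := fun S T hST => by simp only [h S T hST]

lemma Loc.sum {m : ℕ} {κ : Type*} (t : Finset κ) {G : κ → Set ℕ → ℝ}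
    (h : ∀ k ∈ t, Loc m (G k)) : Loc m (fun S => ∑ k ∈ t, G k S) :=
  fun S T hST => sum_congr rfl fun k hk => h k hk S T hST

lemma Loc.prod {m : ℕ} {κ : Type*} (t : Finset κ) {G : κ → Set ℕ → ℝ}
    (h : ∀ k ∈ t, Loc m (G k)) : Loc m (fun S => ∏ k ∈ t, G k S) :=
  fun S T hST => prod_congr rfl fun k hk => h k hk S T hST

lemma loc_d (β : ℕ) : Loc (β + 1) (P.d β) := fun S T h =>
  P.dloc β S T fun i hi => h i (Nat.lt_succ_of_le hi)

lemma E_loc {m M : ℕ} (hm : m ≤ M) {G : Set ℕ → ℝ} (hG : Loc m G) : E P M G = E P m G := by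
  induction M, hm using Nat.le_induction with
  | base => rfl
  | succ M hmM ih =>
    rw [E_succ, ← ih]
    refine E_congr P fun A hA => ?_
    have : G (insert M (A : Set ℕ)) = G A := by
      apply hG
      intro i hi
      simp only [Set.mem_insert_iff]
      constructor
      · rintro (h | h)
        · omega
        · exact h
      · exact fun h => Or.inr h
    rw [this]
    ring

lemma E_orth {β M : ℕ} (hβ : β < M) {φ : Set ℕ → ℝ} (hφ : Loc β φ) :
    E P M (fun S => φ S * P.d β S) = 0 := by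
  rw [E_loc P (m := β + 1) hβ ((hφ.mono (Nat.le_succ β)).mul (loc_d P β)), E_succ]
  have h0 : E P β (fun _ => 0) = 0 := by simp [E]
  rw [← h0]
  refine E_congr P fun A hA => ?_
  have hβA : β ∉ (A : Set ℕ) := fun h => notMem_range_self (hA h)
  have h1 : φ (insert β (A : Set ℕ)) = φ A := by
    apply hφ
    intro i hi
    simp only [Set.mem_insert_iff]
    constructor
    · rintro (h | h)
      · omega
      · exact h
    · exact fun h => Or.inr h
  rw [h1]
  have h2 := P.mean β A hβA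
  linear_combination φ A * h2

/-- hypercontractivity for all even moments -/
theorem hyper (k : ℕ) :
    ∃ ρ : ℝ, 0 < ρ ∧ ∀ (M : ℕ) (B : Finset ℕ), (∀ β ∈ B, β < M) →
      ∀ (a : Finset ℕ → ℝ) (s : ℝ), ∑ F ∈ B.powerset, a F ^ 2 < s →
      E P M (fun S => (∑ F ∈ B.powerset, a F * (ρ ^ F.card * ∏ β ∈ F, P.d β S)) ^ (2 * k + 4)) ≤
        s ^ (k + 2) := by
  obtain ⟨ρ, hρ, hp⟩ := Pool.Agent.H18.Bonami.pointwise k
  refine ⟨ρ, hρ, fun M B => ?_⟩
  induction B using Finset.induction_on_max with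
  | empty =>
    intro _ a s hs
    simp only [Finset.powerset_empty, Finset.sum_singleton, Finset.card_empty, pow_zero,
      Finset.prod_empty, mul_one] at hs ⊢
    have h1 : a ∅ ^ (2 * k + 4) = (a ∅ ^ 2) ^ (k + 2) := by rw [← pow_mul]; rfl
    have h2 : E P M (fun _ => a ∅ ^ (2 * k + 4)) = a ∅ ^ (2 * k + 4) := by
      have := E_mul P M (a ∅ ^ (2 * k + 4)) (fun _ => 1)
      rw [E_one, mul_one] at this
      simpa using this
    rw [h2, h1]
    gcongr
  | insert β B hB ih =>
    intro hBM a s hs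
    have hβM : β < M := hBM β (mem_insert_self _ _)
    have ih := ih fun γ hγ => hBM γ (mem_insert_of_mem hγ)
    have hβ : β ∉ B := fun h => lt_irrefl _ (hB β h)
    rw [Finset.sum_powerset_insert hβ] at hs
    set s₀ := ∑ F ∈ B.powerset, a F ^ 2 with hs₀
    set s₁ := ∑ F ∈ B.powerset, a (insert β F) ^ 2 with hs₁
    have h0 : 0 ≤ s₀ := Finset.sum_nonneg fun _ _ => sq_nonneg _
    have h1 : 0 ≤ s₁ := Finset.sum_nonneg fun _ _ => sq_nonneg _
    obtain ⟨u, t, hu, ht, hut⟩ : ∃ u t : ℝ, s₀ < u ∧ s₁ < t ∧ u + t = s :=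
      ⟨s₀ + (s - s₀ - s₁) / 2, s₁ + (s - s₀ - s₁) / 2, by linarith, by linarith, by ring⟩
    have hu0 : 0 < u := h0.trans_lt hu
    have ht0 : 0 < t := h1.trans_lt ht
    have ix := ih a u hu
    have iy := ih (fun F => a (insert β F)) t ht
    have hbm : ∀ b : Finset ℕ → ℝ, Loc β
        fun x => ∑ F ∈ B.powerset, b F * (ρ ^ F.card * ∏ β ∈ F, P.d β x) := fun b =>
      Loc.sum _ fun F hF => (Loc.const _ _).mul ((Loc.const _ _).mul (Loc.prod _ fun γ hγ =>
        (loc_d P γ).mono (hB γ (Finset.mem_powerset.1 hF hγ))))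
    set X : Set ℕ → ℝ := fun x => ∑ F ∈ B.powerset, a F * (ρ ^ F.card * ∏ β ∈ F, P.d β x) with hX
    set Y : Set ℕ → ℝ := fun x => ∑ F ∈ B.powerset, a (insert β F) *
      (ρ ^ F.card * ∏ β ∈ F, P.d β x) with hY
    have bX : Loc β X := hbm a
    have bY : Loc β Y := hbm _
    have e : ∀ x, ∑ F ∈ (insert β B).powerset, a F * (ρ ^ F.card * ∏ β ∈ F, P.d β x) =
        X x + ρ * (P.d β x * Y x) := by
      intro x
      rw [Finset.sum_powerset_insert hβ]
      simp only [hX, hY, Finset.mul_sum]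
      congr 1
      refine Finset.sum_congr rfl fun F hF => ?_
      have hF' : β ∉ F := fun h => hβ (Finset.mem_powerset.1 hF h)
      rw [Finset.card_insert_of_notMem hF', Finset.prod_insert hF']
      ring
    simp only [e]
    have hZ : E P M (fun x => (X x ^ (2 * k + 3) * Y x) * P.d β x) = 0 :=
      E_orth P hβM ((bX.pow (2 * k + 3)).mul bY)
    refine (E_mono P (G' := fun S => X S ^ (2 * k + 4) + (2 * k + 4) * ρ *
        (X S ^ (2 * k + 3) * Y S * P.d β S) + (t / (2 * u)) * X S ^ (2 * k + 4) +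
        (u ^ (k + 1) / (2 * t ^ (k + 1)) + 1) * Y S ^ (2 * k + 4))
      fun A _ => hp (X A) (Y A) (P.d β A) u t (P.d1 β A) hu0 ht0).trans ?_
    have hlin : E P M (fun S => X S ^ (2 * k + 4) + (2 * k + 4) * ρ *
        (X S ^ (2 * k + 3) * Y S * P.d β S) + (t / (2 * u)) * X S ^ (2 * k + 4) +
        (u ^ (k + 1) / (2 * t ^ (k + 1)) + 1) * Y S ^ (2 * k + 4)) =
        E P M (fun S => X S ^ (2 * k + 4)) + (t / (2 * u)) * E P M (fun S => X S ^ (2 * k + 4)) +
        (u ^ (k + 1) / (2 * t ^ (k + 1)) + 1) * E P M (fun S => Y S ^ (2 * k + 4)) := by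
      rw [E_add P M (fun S => X S ^ (2 * k + 4) + (2 * k + 4) * ρ *
        (X S ^ (2 * k + 3) * Y S * P.d β S) + (t / (2 * u)) * X S ^ (2 * k + 4)),
        E_add P M (fun S => X S ^ (2 * k + 4) + (2 * k + 4) * ρ *
        (X S ^ (2 * k + 3) * Y S * P.d β S)), E_add P M (fun S => X S ^ (2 * k + 4)),
        E_mul, E_mul, E_mul, hZ]
      ring
    rw [hlin, ← hut]
    have b := Pool.Agent.H18.Bonami.binom hu0.le ht0.le k
    refine le_trans ?_ b
    have c1 : t / (2 * u) * E P M (fun S => X S ^ (2 * k + 4)) ≤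
        t / (2 * u) * (u ^ (k + 2)) := by gcongr
    have c2 : (u ^ (k + 1) / (2 * t ^ (k + 1)) + 1) * E P M (fun S => Y S ^ (2 * k + 4)) ≤
        (u ^ (k + 1) / (2 * t ^ (k + 1)) + 1) * (t ^ (k + 2)) := by gcongr
    have e1 : t / (2 * u) * (u ^ (k + 2)) = (u ^ (k + 1) * t) / 2 := by
      field_simp
      try ring
    have e2 : (u ^ (k + 1) / (2 * t ^ (k + 1)) + 1) * (t ^ (k + 2)) =
        (u ^ (k + 1) * t) / 2 + t ^ (k + 2) := by
      field_simp
      try ring
    rw [e1] at c1
    rw [e2] at c2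
    linarith

end Pool.Agent.H69.LB
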