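import Pool.Agent.H69.LB.Lin
import Pool.Agent.H69.LB.Mul

/-! # The configuration which passes all tests -/

set_option autoImplicit false

namespace Pool.Agent.H69.LB

open Finset

/-- the weight from the shifts outside `T` -/
noncomputable def wt {k : ℕ} (h : Fin k → ℕ) (T : Finset (Fin k)) (n : ℕ) : ℝ :=
  ∏ j ∈ univ \ T, g (n + h j)

lemma wt_nonneg {k : ℕ} (h : Fin k → ℕ) (T : Finset (Fin k)) (n : ℕ) : 0 ≤ wt h T n :=
  prod_nonneg fun _ _ => g_nonneg _

lemma wt_le_one {k : ℕ} (h : Fin k → ℕ) (T : Finset (Fin k)) (n : ℕ) : wt h T n ≤ 1 :=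
  prod_le_one (fun _ _ => g_nonneg _) fun _ _ => g_le_one _

lemma abs_wt {k : ℕ} (h : Fin k → ℕ) (T : Finset (Fin k)) (n : ℕ) : |wt h T n| ≤ 1 := by
  rw [abs_of_nonneg (wt_nonneg h T n)]
  exact wt_le_one h T n

lemma g_anti {n m : ℕ} (hn : 3 ≤ n) (hnm : n ≤ m) : g m ≤ g n := by
  unfold g
  rw [if_neg (by omega), if_neg (by omega)]
  have h1 := one_lt_log hn
  apply one_div_le_one_div_of_le (by linarith)
  apply Real.log_le_log (by positivity)
  exact_mod_cast hnm

lemma wt_mul {k : ℕ} (h : Fin k → ℕ) (i : Fin k) (n : ℕ) :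
    wt h {i} n * g (n + h i) = ∏ j, g (n + h j) := by
  unfold wt
  rw [sdiff_singleton_eq_erase, prod_erase_mul _ _ (mem_univ i)]

lemma wt_anti {k : ℕ} (h : Fin k → ℕ) (i : Fin k) {n m : ℕ} (hn : 3 ≤ n) (hnm : n ≤ m) :
    wt h {i} m * g (m + h i) ≤ wt h {i} n * g (n + h i) := by
  rw [wt_mul, wt_mul]
  exact prod_le_prod (fun _ _ => g_nonneg _) fun j _ => g_anti (by omega) (by omega)

/-- the parameters of a test: `y`, `q`, `r`, the shifts and the set of indices -/
abbrev Par (k : ℕ) : Type := (ℕ × ℕ × ℕ × (Fin k → ℕ)) × Finset (Fin k)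

/-- the linear tests -/
def J1 (k x : ℕ) : Finset (Par k × Fin k) :=
  (((range (x + 1) ×ˢ Icc 1 x ×ˢ range (x + 1) ×ˢ Fintype.piFinset (fun _ => range (x + 1))) ×ˢ
    (univ : Finset (Finset (Fin k)))) ×ˢ univ).filter
    (fun j => 1 ≤ x ∧ j.1.2 = {j.2} ∧ j.1.1.2.2.1 < j.1.1.2.1)

/-- the other tests -/
def J2 (k x : ℕ) : Finset (Par k) :=
  ((range (x + 1) ×ˢ Icc 1 x ×ˢ range (x + 1) ×ˢ Fintype.piFinset (fun _ => range (x + 1))) ×ˢ
    (univ : Finset (Finset (Fin k)))).filter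
    (fun j => 1 ≤ x ∧ 2 ≤ j.2.card ∧ Function.Injective j.1.2.2.2)

lemma card_base (k x : ℕ) (hx : 1 ≤ x) :
    ((range (x + 1) ×ˢ Icc 1 x ×ˢ range (x + 1) ×ˢ
      Fintype.piFinset (fun _ : Fin k => range (x + 1))) ×ˢ
    (univ : Finset (Finset (Fin k)))).card ≤ (x + 1) ^ (3 + 2 * k) := by
  rw [card_product, card_product, card_product, card_product, card_range, Nat.card_Icc,
    Fintype.card_piFinset, card_univ, Fintype.card_finset, Fintype.card_fin, prod_const, card_range,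
    card_univ, Fintype.card_fin]
  calc (x + 1) * ((x + 1 - 1) * ((x + 1) * (x + 1) ^ k)) * 2 ^ k
      ≤ (x + 1) * ((x + 1) * ((x + 1) * (x + 1) ^ k)) * (x + 1) ^ k := by
        gcongr
        · omega
        · omega
    _ = (x + 1) ^ (3 + 2 * k) := by ring

lemma card_J1 (k x : ℕ) : (J1 k x).card ≤ (x + 1) ^ (3 + 3 * k) := by
  by_cases hx : 1 ≤ x
  · unfold J1
    refine (card_filter_le _ _).trans ?_
    rw [card_product, card_univ, Fintype.card_fin]
    have h1 := card_base k x hx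
    have h2 : k ≤ (x + 1) ^ k := by
      calc k ≤ 2 ^ k := Nat.lt_two_pow_self.le
        _ ≤ (x + 1) ^ k := Nat.pow_le_pow_left (by omega) k
    calc _ ≤ (x + 1) ^ (3 + 2 * k) * (x + 1) ^ k := Nat.mul_le_mul h1 h2
      _ = (x + 1) ^ (3 + 3 * k) := by rw [← pow_add]; congr 1; ring
  · have : J1 k x = ∅ := by
      unfold J1
      rw [filter_eq_empty_iff]
      intro j _ hj
      exact hx hj.1
    rw [this]
    simp

lemma card_J2 (k x : ℕ) : (J2 k x).card ≤ (x + 1) ^ (3 + 3 * k) := by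
  by_cases hx : 1 ≤ x
  · unfold J2
    refine (card_filter_le _ _).trans ((card_base k x hx).trans ?_)
    exact Nat.pow_le_pow_right (by omega) (by omega)
  · have : J2 k x = ∅ := by
      unfold J2
      rw [filter_eq_empty_iff]
      intro j _ hj
      exact hx hj.1
    rw [this]
    simp

/-- the range of bits -/
def Mt {k : ℕ} (j : Par k) : ℕ := 2 * (j.1.1 + ∑ i, j.1.2.2.2 i) + 2

lemma lt_Mt {k : ℕ} (j : Par k) {n : ℕ} (hn : n ∈ AP j.1.1 j.1.2.1 j.1.2.2.1) (i : Fin k) :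
    2 * (n + j.1.2.2.2 i) + 1 < Mt j := by
  have h1 := (mem_AP.1 hn).1.2
  have h2 : j.1.2.2.2 i ≤ ∑ i, j.1.2.2.2 i :=
    single_le_sum (f := fun i => j.1.2.2.2 i) (fun _ _ => Nat.zero_le _) (mem_univ i)
  unfold Mt
  omega

/-- the polynomials of the linear tests -/
noncomputable def a1 {k : ℕ} (j : Par k × Fin k) : Finset ℕ → ℝ :=
  lin (tcr j.1.1.1 j.1.1.2.1 j.1.1.2.2.1 (j.1.1.2.2.2 j.2) (wt j.1.1.2.2.2 {j.2}))

/-- the polynomials of the other tests -/
noncomputable def a2 {k : ℕ} (j : Par k) : Finset ℕ → ℝ :=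
  acoef (fun i : j.2 => j.1.2.2.2 i) (AP j.1.1 j.1.2.1 j.1.2.2.1) (wt j.1.2.2.2 j.2)

theorem exists_S : ∃ S : Set ℕ,
    (∀ (k : ℕ) (ε : ℝ), 0 < ε → ∃ C : ℝ, 0 < C ∧ ∀ x y q r : ℕ, 1 ≤ x → y ≤ x → 1 ≤ q → q ≤ x →
      r < q → ∀ h : Fin k → ℕ, (∀ i, h i ≤ x) → ∀ i,
      |∑ n ∈ AP y q r, wt h {i} n * z (n + h i) S -
        ∑ p ∈ q.primeFactors, tc y q r (h i) (wt h {i}) (2 * p) * sg p S| ≤
      C * ((x : ℝ) + 1) ^ ε * √(5 * ((y / q + 1 : ℕ) : ℝ))) ∧
    (∀ (k : ℕ) (ε : ℝ), 0 < ε → ∃ C : ℝ, 0 < C ∧ ∀ x y q r : ℕ, 1 ≤ x → y ≤ x → 1 ≤ q → q ≤ x →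
      r < q → ∀ h : Fin k → ℕ, Function.Injective h → (∀ i, h i ≤ x) →
      ∀ T : Finset (Fin k), 2 ≤ T.card →
      |∑ n ∈ AP y q r, wt h T n * ∏ i : T, z (n + h i) S| ≤
      C * ((x : ℝ) + 1) ^ ε * √((16 * k ^ 2 * 25 ^ k : ℕ) * ((y : ℝ) + 1)) +
        ((5 ^ k * (k ^ 2 * (24 * (Nat.log 2 (x + 1) + 4) * Nat.sqrt (2 * x))) : ℕ) : ℝ)) := by
  classical
  have hcardAP : ∀ y q r, ((AP y q r).card : ℝ) ≤ (y : ℝ) + 1 := by
    intro y q r
    have h1 : (AP y q r).card ≤ y + 1 := by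
      unfold AP
      refine (card_filter_le _ _).trans ?_
      rw [Nat.card_Icc]
      omega
    exact_mod_cast h1
  obtain ⟨S, hS⟩ := select proc (κ := fun k => (Par k × Fin k) ⊕ Par k)
    (J := fun k x => (J1 k x).disjSum (J2 k x)) (e := fun k => 4 + 3 * k) (D := fun k => k + 1)
    (M := fun k => Sum.elim (fun j => Mt j.1) Mt)
    (a := fun k => Sum.elim a1 a2)
    (V := fun k => Sum.elim (fun j => 5 * ((j.1.1.1 / j.1.1.2.1 + 1 : ℕ) : ℝ))
      (fun j => (16 * (k + 1) ^ 2 * 25 ^ k : ℕ) * ((j.1.1 : ℝ) + 1)))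
    (by
      intro k x
      rw [card_disjSum]
      have h1 := card_J1 k x
      have h2 := card_J2 k x
      by_cases hx : 1 ≤ x
      · calc (J1 k x).card + (J2 k x).card ≤ (x + 1) ^ (3 + 3 * k) + (x + 1) ^ (3 + 3 * k) :=
            Nat.add_le_add h1 h2
          _ = 2 * (x + 1) ^ (3 + 3 * k) := by ring
          _ ≤ (x + 1) * (x + 1) ^ (3 + 3 * k) := Nat.mul_le_mul_right _ (by omega)
          _ = (x + 1) ^ (4 + 3 * k) := by rw [← pow_succ']; congr 1; ring
      · have e1 : J1 k x = ∅ := by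
          unfold J1
          rw [filter_eq_empty_iff]
          intro j _ hj
          exact hx hj.1
        have e2 : J2 k x = ∅ := by
          unfold J2
          rw [filter_eq_empty_iff]
          intro j _ hj
          exact hx hj.1
        rw [e1, e2]
        simp)
    (by
      intro k x j _
      rcases j with j | j
      · simp only [Sum.elim_inl]
        positivity
      · simp only [Sum.elim_inr]
        positivity)
    (by
      intro k x j _ F hF
      rcases j with j | j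
      · simp only [Sum.elim_inl] at hF
        unfold a1 lin at hF
        by_cases hc : F.card = 1
        · omega
        · rw [if_neg hc] at hF
          exact absurd rfl hF
      · simp only [Sum.elim_inr] at hF
        unfold a2 at hF
        have h1 := acoef_card _ _ _ F hF
        rw [Fintype.card_coe] at h1
        have h2 := card_le_univ j.2
        rw [Fintype.card_fin] at h2
        omega)
    (by
      intro k x j hj
      rcases j with j | j
      · simp only [Sum.elim_inl]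
        rw [inl_mem_disjSum] at hj
        unfold J1 at hj
        rw [mem_filter, mem_product, mem_product, mem_product, mem_product, mem_Icc] at hj
        obtain ⟨⟨⟨⟨_, ⟨hq, _⟩, _⟩, _⟩, _⟩, _, _, hr⟩ := hj
        exact lin_var _ _ _ _ _ hq hr (abs_wt _ _)
          (fun n _ => mul_nonneg (wt_nonneg _ _ _) (g_nonneg _))
          (fun n _ => mul_le_one₀ (wt_le_one _ _ _) (g_nonneg _) (g_le_one _))
          (fun n m hn hnm => wt_anti _ _ hn hnm) _
      · simp only [Sum.elim_inr]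
        rw [inr_mem_disjSum] at hj
        unfold J2 at hj
        rw [mem_filter] at hj
        obtain ⟨_, _, hT, hinj⟩ := hj
        have h1 := sum_acoef_sq (fun i : j.2 => j.1.2.2.2 i) (AP j.1.1 j.1.2.1 j.1.2.2.1)
          (wt j.1.2.2.2 j.2) (abs_wt _ _) (by rw [Fintype.card_coe]; exact hT)
          (fun a b hab => Subtype.ext (hinj hab)) (M := Mt j) (fun n hn i => lt_Mt j hn i)
        refine h1.trans ?_
        rw [Fintype.card_coe]
        have h2 := card_le_univ j.2
        rw [Fintype.card_fin] at h2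
        have h3 := hcardAP j.1.1 j.1.2.1 j.1.2.2.1
        have h4 : 16 * j.2.card ^ 2 * 25 ^ j.2.card ≤ 16 * (k + 1) ^ 2 * 25 ^ k := by
          gcongr
          · omega
          · norm_num
        have h5 : ((16 * j.2.card ^ 2 * 25 ^ j.2.card : ℕ) : ℝ) ≤
          ((16 * (k + 1) ^ 2 * 25 ^ k : ℕ) : ℝ) := by exact_mod_cast h4
        exact mul_le_mul h5 h3 (Nat.cast_nonneg _) (Nat.cast_nonneg _))
  refine ⟨S, fun k ε hε => ?_, fun k ε hε => ?_⟩
  · obtain ⟨C, hC0, hC⟩ := hS k ε hε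
    refine ⟨C, hC0, fun x y q r hx hy hq hqx hr h hh i => ?_⟩
    set j : Par k × Fin k := (((y, q, r, h), {i}), i) with hj
    have hmem : Sum.inl j ∈ (J1 k x).disjSum (J2 k x) := by
      rw [inl_mem_disjSum]
      unfold J1
      rw [mem_filter, mem_product, mem_product, mem_product, mem_product, mem_product, mem_Icc,
        mem_range, mem_range]
      refine ⟨⟨⟨⟨?_, ⟨hq, hqx⟩, ?_, ?_⟩, mem_univ _⟩, mem_univ _⟩, hx, rfl, hr⟩
      · simp only [hj]; omega
      · simp only [hj]; omega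
      · rw [Fintype.mem_piFinset]
        intro i'
        rw [mem_range]
        have := hh i'
        simp only [hj]
        omega
    have h1 := hC x (Sum.inl j) hmem
    simp only [Sum.elim_inl] at h1
    have h2 := lin_expand y q r (h i) (wt h {i}) hq (M := Mt j.1) (fun n hn => lt_Mt j.1 hn i) S
    rw [h2, add_sub_cancel_left]
    exact h1
  · obtain ⟨C, hC0, hC⟩ := hS k ε hε
    refine ⟨2 * C, by positivity, fun x y q r hx hy hq hqx hr h hinj hh T hT => ?_⟩
    set j : Par k := ((y, q, r, h), T) with hj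
    have hmem : Sum.inr j ∈ (J1 k x).disjSum (J2 k x) := by
      rw [inr_mem_disjSum]
      unfold J2
      rw [mem_filter, mem_product, mem_product, mem_product, mem_product, mem_Icc,
        mem_range, mem_range]
      refine ⟨⟨⟨?_, ⟨hq, hqx⟩, ?_, ?_⟩, mem_univ _⟩, hx, hT, hinj⟩
      · simp only [hj]; omega
      · simp only [hj]; omega
      · rw [Fintype.mem_piFinset]
        intro i'
        rw [mem_range]
        have := hh i'
        simp only [hj]
        omega
    have h1 := hC x (Sum.inr j) hmem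
    simp only [Sum.elim_inr] at h1
    have h2 := mul_expand (fun i : T => h i) (AP y q r) (wt h T) (abs_wt _ _)
      (fun a b hab => Subtype.ext (hinj hab)) (M := Mt j) (fun n hn i => lt_Mt j hn i) x
      (fun n hn => mem_range.2 (by have := (mem_AP.1 hn).1.2; omega)) (fun i => hh i) S
    have hTk : T.card ≤ k := by
      have := card_le_univ T
      rwa [Fintype.card_fin] at this
    have hk : 2 ≤ k := hT.trans hTk
    have h3 : |∑ n ∈ AP y q r, wt h T n * ∏ i : T, z (n + h i) S| ≤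
        |poly proc (Mt j) (a2 j) S| + |∑ n ∈ AP y q r, wt h T n * ∏ i : T, z (n + h i) S -
          poly proc (Mt j) (a2 j) S| := by
      have := abs_add_le (poly proc (Mt j) (a2 j) S)
        (∑ n ∈ AP y q r, wt h T n * ∏ i : T, z (n + h i) S - poly proc (Mt j) (a2 j) S)
      rwa [add_sub_cancel] at this
    refine h3.trans (add_le_add ?_ ?_)
    · refine h1.trans ?_
      have e1 : √(((16 * (k + 1) ^ 2 * 25 ^ k : ℕ) : ℝ) * ((y : ℝ) + 1)) ≤
          2 * √((16 * k ^ 2 * 25 ^ k : ℕ) * ((y : ℝ) + 1)) := by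
        rw [show (2 : ℝ) = √4 by
          rw [show (4 : ℝ) = 2 ^ 2 by norm_num]; exact (Real.sqrt_sq (by norm_num)).symm,
          ← Real.sqrt_mul (by norm_num)]
        apply Real.sqrt_le_sqrt
        have h5 : 16 * (k + 1) ^ 2 * 25 ^ k ≤ 4 * (16 * k ^ 2 * 25 ^ k) := by
          have : (k + 1) ^ 2 ≤ 4 * k ^ 2 := by nlinarith
          calc 16 * (k + 1) ^ 2 * 25 ^ k ≤ 16 * (4 * k ^ 2) * 25 ^ k := by gcongr
            _ = _ := by ring
        have h6 : ((16 * (k + 1) ^ 2 * 25 ^ k : ℕ) : ℝ) ≤ 4 * ((16 * k ^ 2 * 25 ^ k : ℕ) : ℝ) := by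
          exact_mod_cast h5
        have h7 : (0 : ℝ) ≤ (y : ℝ) + 1 := by positivity
        nlinarith
      calc C * ((x : ℝ) + 1) ^ ε * √(((16 * (k + 1) ^ 2 * 25 ^ k : ℕ) : ℝ) * ((j.1.1 : ℝ) + 1))
          ≤ C * ((x : ℝ) + 1) ^ ε * (2 * √((16 * k ^ 2 * 25 ^ k : ℕ) * ((y : ℝ) + 1))) := by
            apply mul_le_mul_of_nonneg_left e1
            positivity
        _ = _ := by ring
    · refine h2.trans ?_
      rw [Fintype.card_coe]
      have h5 : 5 ^ T.card * (T.card ^ 2 * (24 * (Nat.log 2 (x + 1) + 4) * Nat.sqrt (2 * x))) ≤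
          5 ^ k * (k ^ 2 * (24 * (Nat.log 2 (x + 1) + 4) * Nat.sqrt (2 * x))) := by
        gcongr
        norm_num
      exact_mod_cast h5

end Pool.Agent.H69.LB
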