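import Pool.Agent.H69.LB.Tests
import Pool.Agent.H69.LB.Defs
import Pool.Agent.H69.LB.Growth

/-! # The correlations of the set -/

set_option autoImplicit false

namespace Pool.Agent.H69.LB

open Finset

/-- the set of integers -/
def setA (S : Set ℕ) : Set ℕ := {n | 2 * n + 1 ∈ S}

open Classical in
lemma bit_eq (n : ℕ) (S : Set ℕ) : bit n S = if n ∈ setA S then 1 else 0 := rfl

lemma exists_res {q : ℕ} (hq : 1 ≤ q) (a : ℤ) :
    ∃ r, r < q ∧ (∀ n : ℕ, (n : ℤ) ≡ a [ZMOD q] ↔ n % q = r) ∧ (q : ℤ) ∣ a - r := by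
  have hq' : (q : ℤ) ≠ 0 := by exact_mod_cast (by omega : q ≠ 0)
  obtain ⟨r, hr⟩ := Int.eq_ofNat_of_zero_le (Int.emod_nonneg a hq')
  refine ⟨r, ?_, fun n => ?_, ?_⟩
  · have := Int.emod_lt_of_pos a (show (0 : ℤ) < q by exact_mod_cast hq)
    rw [hr] at this
    exact_mod_cast this
  · unfold Int.ModEq
    rw [hr]
    constructor
    · intro h
      exact_mod_cast h
    · intro h
      exact_mod_cast h
  · rw [← hr]
    exact Int.dvd_self_sub_emod

open Classical in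
/-- the count and the sum over the progression -/
lemma count_eq (S : Set ℕ) (H : Finset ℕ) (y : ℕ) {q r : ℕ} {a : ℤ}
    (hr : ∀ n : ℕ, (n : ℤ) ≡ a [ZMOD q] ↔ n % q = r) :
    |(count (setA S) H y q a : ℝ) - ∑ n ∈ AP y q r, ∏ h ∈ H, bit (n + h) S| ≤ 3 := by
  have h1 : ∀ n, ∏ h ∈ H, bit (n + h) S = if ∀ h ∈ H, n + h ∈ setA S then 1 else 0 := by
    intro n
    rw [← prod_boole]
    exact prod_congr rfl fun h _ => bit_eq _ _
  have h2 : ∑ n ∈ AP y q r, ∏ h ∈ H, bit (n + h) S =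
      (((AP y q r).filter (fun n => ∀ h ∈ H, n + h ∈ setA S)).card : ℝ) := by
    rw [card_filter]
    push_cast
    exact sum_congr rfl fun n _ => by rw [h1]
  have h3 : (AP y q r).filter (fun n => ∀ h ∈ H, n + h ∈ setA S) ⊆
      (range (y + 1)).filter (fun n : ℕ => (n : ℤ) ≡ a [ZMOD q] ∧ ∀ h ∈ H, n + h ∈ setA S) := by
    intro n hn
    rw [mem_filter, mem_AP] at hn
    rw [mem_filter, mem_range, hr]
    exact ⟨by omega, hn.1.2, hn.2⟩
  have h4 : (range (y + 1)).filter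
      (fun n : ℕ => (n : ℤ) ≡ a [ZMOD q] ∧ ∀ h ∈ H, n + h ∈ setA S) ⊆
      (AP y q r).filter (fun n => ∀ h ∈ H, n + h ∈ setA S) ∪ range 3 := by
    intro n hn
    rw [mem_filter, mem_range, hr] at hn
    rw [mem_union, mem_filter, mem_AP, mem_range]
    by_cases h : n < 3
    · exact Or.inr h
    · exact Or.inl ⟨⟨⟨by omega, by omega⟩, hn.2.1⟩, hn.2.2⟩
  have h5 := card_le_card h3
  have h6 := (card_le_card h4).trans (card_union_le _ _)
  rw [card_range] at h6
  rw [h2]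
  unfold count
  have h5' : (((AP y q r).filter (fun n => ∀ h ∈ H, n + h ∈ setA S)).card : ℝ) ≤
      (((range (y + 1)).filter
        (fun n : ℕ => (n : ℤ) ≡ a [ZMOD q] ∧ ∀ h ∈ H, n + h ∈ setA S)).card : ℝ) := by
    exact_mod_cast h5
  have h6' : (((range (y + 1)).filter
        (fun n : ℕ => (n : ℤ) ≡ a [ZMOD q] ∧ ∀ h ∈ H, n + h ∈ setA S)).card : ℝ) ≤
      (((AP y q r).filter (fun n => ∀ h ∈ H, n + h ∈ setA S)).card : ℝ) + 3 := by
    exact_mod_cast h6
  rw [abs_le]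
  constructor <;> linarith

/-- the expected number and the sum over the progression -/
lemma expected_eq (H : Finset ℕ) (y : ℕ) {q r : ℕ} {a : ℤ}
    (hr : ∀ n : ℕ, (n : ℤ) ≡ a [ZMOD q] ↔ n % q = r) :
    expected H y q a = ∑ n ∈ AP y q r, ∏ h ∈ H, g (n + h) := by
  classical
  unfold expected
  have h1 : (Icc 3 y).filter (fun n : ℕ => (n : ℤ) ≡ a [ZMOD q]) = AP y q r := by
    ext n
    rw [mem_filter, mem_AP, mem_Icc, hr]
  have h2 : ∀ n ∈ AP y q r, ∏ h ∈ H, 1 / Real.log ((n : ℝ) + h) = ∏ h ∈ H, g (n + h) := by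
    intro n hn
    refine prod_congr rfl fun h _ => ?_
    have := (mem_AP.1 hn).1.1
    unfold g
    rw [if_neg (by omega)]
    push_cast
    rfl
  rw [← h1] at h2 ⊢
  convert sum_congr rfl h2

/-- the expansion -/
lemma expand {k : ℕ} (h : Fin k → ℕ) (N : Finset ℕ) (S : Set ℕ) :
    ∑ n ∈ N, ∏ i, bit (n + h i) S =
      ∑ T : Finset (Fin k), ∑ n ∈ N, wt h T n * ∏ i : T, z (n + h i) S := by
  classical
  rw [sum_comm]
  refine sum_congr rfl fun n _ => ?_
  have h1 : ∏ i, bit (n + h i) S = ∏ i, (z (n + h i) S + g (n + h i)) := by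
    refine prod_congr rfl fun i _ => ?_
    unfold z
    ring
  rw [h1, prod_add, powerset_univ]
  refine sum_congr rfl fun T _ => ?_
  unfold wt
  rw [prod_coe_sort T (fun i => z (n + h i) S), mul_comm]

lemma prod_fin (H : Finset ℕ) {k : ℕ} (hk : H.card = k) (f : ℕ → ℝ) :
    ∏ h ∈ H, f h = ∏ i : Fin k, f (H.orderEmbOfFin hk i) := by
  conv_lhs => rw [← Finset.map_orderEmbOfFin_univ H hk]
  rw [prod_map]
  rfl

/-- the bounds for the terms of the expansion -/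
lemma term_bound {S : Set ℕ} {k : ℕ} {ε : ℝ} (hε : 0 < ε)
    (h1 : ∃ C : ℝ, 0 < C ∧ ∀ x y q r : ℕ, 1 ≤ x → y ≤ x → 1 ≤ q → q ≤ x →
      r < q → ∀ h : Fin k → ℕ, (∀ i, h i ≤ x) → ∀ i,
      |∑ n ∈ AP y q r, wt h {i} n * z (n + h i) S -
        ∑ p ∈ q.primeFactors, tc y q r (h i) (wt h {i}) (2 * p) * sg p S| ≤
      C * ((x : ℝ) + 1) ^ ε * √(5 * ((y / q + 1 : ℕ) : ℝ)))
    (h2 : ∃ C : ℝ, 0 < C ∧ ∀ x y q r : ℕ, 1 ≤ x → y ≤ x → 1 ≤ q → q ≤ x →
      r < q → ∀ h : Fin k → ℕ, Function.Injective h → (∀ i, h i ≤ x) →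
      ∀ T : Finset (Fin k), 2 ≤ T.card →
      |∑ n ∈ AP y q r, wt h T n * ∏ i : T, z (n + h i) S| ≤
      C * ((x : ℝ) + 1) ^ ε * √((16 * k ^ 2 * 25 ^ k : ℕ) * ((y : ℝ) + 1)) +
        ((5 ^ k * (k ^ 2 * (24 * (Nat.log 2 (x + 1) + 4) * Nat.sqrt (2 * x))) : ℕ) : ℝ)) :
    ∃ C : ℝ, 0 < C ∧ ∀ x y q r : ℕ, 1 ≤ x → y ≤ x → 1 ≤ q → q ≤ x → r < q →
      ∀ h : Fin k → ℕ, Function.Injective h → (∀ i, h i ≤ x) →
      ∀ T : Finset (Fin k), T.Nonempty →
      |∑ n ∈ AP y q r, wt h T n * ∏ i : T, z (n + h i) S| ≤ C * ((x : ℝ) + 1) ^ (1 / 2 + ε) := by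
  classical
  obtain ⟨C1, hC1, hb1⟩ := h1
  obtain ⟨C2, hC2, hb2⟩ := h2
  obtain ⟨C3, hC3, hb3⟩ := natLog_le hε
  refine ⟨C1 * √5 + C3 * 16 + C2 * √(16 * k ^ 2 * 25 ^ k) + 5 ^ k * k ^ 2 * 48 * C3,
    by positivity, fun x y q r hx hy hq hqx hr h hinj hh T hT => ?_⟩
  have hX0 : (0 : ℝ) ≤ x := Nat.cast_nonneg x
  set X : ℝ := (x : ℝ) + 1 with hX
  have hX1 : 1 ≤ X := by linarith
  have hXpos : 0 < X := by linarith
  have hsq : X ^ ε * √X = X ^ (1 / 2 + ε) := by
    rw [Real.sqrt_eq_rpow, ← Real.rpow_add hXpos, add_comm]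
  have hyX : (y : ℝ) + 1 ≤ X := by
    have : (y : ℝ) ≤ x := by exact_mod_cast hy
    linarith
  have hns : (Nat.sqrt (2 * x) : ℝ) ≤ 2 * √X := by
    have h3 : (Nat.sqrt (2 * x) : ℝ) ≤ √((2 * x : ℕ) : ℝ) := Real.nat_sqrt_le_real_sqrt
    refine h3.trans ?_
    rw [show (2 : ℝ) = √4 by
      rw [show (4 : ℝ) = 2 ^ 2 by norm_num]; exact (Real.sqrt_sq (by norm_num)).symm,
      ← Real.sqrt_mul (by norm_num)]
    apply Real.sqrt_le_sqrt
    push_cast
    linarith
  have hXε : 0 < X ^ ε := Real.rpow_pos_of_pos hXpos ε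
  have hlog := hb3 x hx
  have hXh : 0 < X ^ (1 / 2 + ε) := Real.rpow_pos_of_pos hXpos _
  rcases Nat.lt_or_ge 1 T.card with hT2 | hT1
  · -- at least two
    refine (hb2 x y q r hx hy hq hqx hr h hinj hh T hT2).trans ?_
    have e1 : C2 * X ^ ε * √((16 * k ^ 2 * 25 ^ k : ℕ) * ((y : ℝ) + 1)) ≤
        C2 * √(16 * k ^ 2 * 25 ^ k) * X ^ (1 / 2 + ε) := by
      rw [Real.sqrt_mul (by positivity), ← hsq]
      have : √((y : ℝ) + 1) ≤ √X := Real.sqrt_le_sqrt hyX
      push_cast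
      calc C2 * X ^ ε * (√(16 * (k : ℝ) ^ 2 * 25 ^ k) * √((y : ℝ) + 1)) ≤
          C2 * X ^ ε * (√(16 * (k : ℝ) ^ 2 * 25 ^ k) * √X) := by gcongr
        _ = _ := by ring
    have e2 : ((5 ^ k * (k ^ 2 * (24 * (Nat.log 2 (x + 1) + 4) * Nat.sqrt (2 * x))) : ℕ) : ℝ) ≤
        5 ^ k * k ^ 2 * 48 * C3 * X ^ (1 / 2 + ε) := by
      rw [← hsq]
      have : ((5 ^ k * (k ^ 2 * (24 * (Nat.log 2 (x + 1) + 4) * Nat.sqrt (2 * x))) : ℕ) : ℝ) =
          5 ^ k * (k ^ 2 * (24 * ((Nat.log 2 (x + 1) + 4 : ℕ) : ℝ) * (Nat.sqrt (2 * x) : ℝ))) := by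
        push_cast
        ring
      rw [this]
      calc (5 : ℝ) ^ k * (k ^ 2 * (24 * ((Nat.log 2 (x + 1) + 4 : ℕ) : ℝ) *
          (Nat.sqrt (2 * x) : ℝ))) ≤ (5 : ℝ) ^ k * (k ^ 2 * (24 * (C3 * X ^ ε) * (2 * √X))) := by
            gcongr
        _ = _ := by ring
    have e3 : 0 ≤ C1 * √5 * X ^ (1 / 2 + ε) := by positivity
    have e4 : 0 ≤ C3 * 16 * X ^ (1 / 2 + ε) := by positivity
    calc _ ≤ C2 * √(16 * k ^ 2 * 25 ^ k) * X ^ (1 / 2 + ε) +
          5 ^ k * k ^ 2 * 48 * C3 * X ^ (1 / 2 + ε) := add_le_add e1 e2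
      _ ≤ _ := by linarith
  · -- one
    obtain ⟨i, rfl⟩ := card_eq_one.1 (le_antisymm hT1 (card_pos.2 hT))
    have e0 : ∑ n ∈ AP y q r, wt h {i} n * ∏ j : ({i} : Finset (Fin k)), z (n + h j) S =
        ∑ n ∈ AP y q r, wt h {i} n * z (n + h i) S := by
      refine sum_congr rfl fun n _ => ?_
      rw [prod_coe_sort ({i} : Finset (Fin k)) (fun i => z (n + h i) S), prod_singleton]
    rw [e0]
    have e1 := hb1 x y q r hx hy hq hqx hr h hh i
    have e2 : |∑ p ∈ q.primeFactors, tc y q r (h i) (wt h {i}) (2 * p) * sg p S| ≤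
        C3 * 16 * X ^ (1 / 2 + ε) := by
      refine (abs_sum_le_sum_abs _ _).trans ?_
      have e3 : ∀ p ∈ q.primeFactors, |tc y q r (h i) (wt h {i}) (2 * p) * sg p S| ≤
          8 * (Nat.sqrt (2 * x) : ℝ) := by
        intro p hp
        rw [abs_mul, abs_sg, mul_one]
        refine (abs_tc_le_card _ _ _ _ _ (abs_wt _ _) _).trans ?_
        have e4 : ∀ n ∈ (AP y q r).filter (fun n => 2 * p ∈ Ch (n + h i)), p ∈ L (n + h i) := by
          intro n hn
          rcases mem_Ch.1 (mem_filter.1 hn).2 with h4 | ⟨p', hp', h4⟩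
          · omega
          · have : p = p' := by omega
            rwa [this]
        rcases ((AP y q r).filter (fun n => 2 * p ∈ Ch (n + h i))).eq_empty_or_nonempty with
          h5 | ⟨n, hn⟩
        · rw [h5, card_empty]
          push_cast
          positivity
        · have e5 : p ≤ Nat.sqrt (2 * x) := by
            rw [Nat.le_sqrt']
            have h6 := (mem_L.1 (e4 n hn)).1.2.2.1
            have h7 := (mem_AP.1 (mem_filter.1 hn).1).1.2
            have h8 := hh i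
            omega
          have e6 := card_one _ e4
          have e7 : ((AP y q r).filter (fun n => 2 * p ∈ Ch (n + h i))).card ≤
            8 * Nat.sqrt (2 * x) := e6.trans (Nat.mul_le_mul_left 8 e5)
          exact_mod_cast e7
      refine (sum_le_sum e3).trans ?_
      rw [sum_const, nsmul_eq_mul]
      have e8 : q.primeFactors.card ≤ Nat.log 2 (x + 1) + 4 := by
        have := (card_primeFactors_le q (by omega)).trans
          (Nat.log_mono_right (b := 2) (show q ≤ x + 1 by omega))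
        omega
      have e9 : (q.primeFactors.card : ℝ) ≤ ((Nat.log 2 (x + 1) + 4 : ℕ) : ℝ) := by
        exact_mod_cast e8
      calc (q.primeFactors.card : ℝ) * (8 * (Nat.sqrt (2 * x) : ℝ)) ≤
          (C3 * X ^ ε) * (8 * (2 * √X)) := by
            apply mul_le_mul (e9.trans hlog) _ (by positivity) (by positivity)
            gcongr
        _ = C3 * 16 * (X ^ ε * √X) := by ring
        _ = _ := by rw [hsq]
    have e3 : C1 * X ^ ε * √(5 * ((y / q + 1 : ℕ) : ℝ)) ≤ C1 * √5 * X ^ (1 / 2 + ε) := by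
      rw [Real.sqrt_mul (by norm_num), ← hsq]
      have e4 : √((y / q + 1 : ℕ) : ℝ) ≤ √X := by
        apply Real.sqrt_le_sqrt
        have e5 : y / q + 1 ≤ y + 1 := by
          have := Nat.div_le_self y q
          omega
        have e6 : ((y / q + 1 : ℕ) : ℝ) ≤ ((y + 1 : ℕ) : ℝ) := by exact_mod_cast e5
        refine e6.trans ?_
        push_cast
        exact hyX
      calc C1 * X ^ ε * (√5 * √((y / q + 1 : ℕ) : ℝ)) ≤ C1 * X ^ ε * (√5 * √X) := by gcongr
        _ = _ := by ring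
    have e4 : |∑ n ∈ AP y q r, wt h {i} n * z (n + h i) S| ≤
        |∑ n ∈ AP y q r, wt h {i} n * z (n + h i) S -
          ∑ p ∈ q.primeFactors, tc y q r (h i) (wt h {i}) (2 * p) * sg p S| +
        |∑ p ∈ q.primeFactors, tc y q r (h i) (wt h {i}) (2 * p) * sg p S| := by
      have := abs_add_le (∑ n ∈ AP y q r, wt h {i} n * z (n + h i) S -
          ∑ p ∈ q.primeFactors, tc y q r (h i) (wt h {i}) (2 * p) * sg p S)
          (∑ p ∈ q.primeFactors, tc y q r (h i) (wt h {i}) (2 * p) * sg p S)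
      rwa [sub_add_cancel] at this
    have e5 : 0 ≤ C2 * √(16 * k ^ 2 * 25 ^ k) * X ^ (1 / 2 + ε) := by positivity
    have e6 : 0 ≤ 5 ^ k * k ^ 2 * 48 * C3 * X ^ (1 / 2 + ε) := by positivity
    linarith

/-- the correlations -/
theorem correlations {S : Set ℕ} {k : ℕ}
    (hS : ∀ ε : ℝ, 0 < ε → ∃ C : ℝ, 0 < C ∧ ∀ x y q r : ℕ, 1 ≤ x → y ≤ x → 1 ≤ q → q ≤ x → r < q →
      ∀ h : Fin k → ℕ, Function.Injective h → (∀ i, h i ≤ x) →
      ∀ T : Finset (Fin k), T.Nonempty →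
      |∑ n ∈ AP y q r, wt h T n * ∏ i : T, z (n + h i) S| ≤ C * ((x : ℝ) + 1) ^ (1 / 2 + ε)) :
    CorrelationsAP (setA S) k := by
  classical
  intro ε hε
  obtain ⟨C, hC0, hC⟩ := hS ε hε
  refine ⟨(2 ^ k * C * 2 ^ (1 / 2 + ε) + 5 : ℝ), fun x hx y hy H hH hHx q hq a => ?_⟩
  obtain ⟨r, hr, hr', -⟩ := exists_res hq a
  have hx1 : (1 : ℝ) ≤ x := by exact_mod_cast hx
  have hxp : (1 : ℝ) ≤ (x : ℝ) ^ (1 / 2 + ε) := Real.one_le_rpow hx1 (by positivity)
  have h1 := count_eq S H y hr'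
  have h2 := expected_eq H y hr'
  set cnt : ℝ := (count (setA S) H y q a : ℝ) with hcnt
  have hmain : |∑ n ∈ AP y q r, ∏ h ∈ H, bit (n + h) S - expected H y q a| ≤
      2 ^ k * C * 2 ^ (1 / 2 + ε) * (x : ℝ) ^ (1 / 2 + ε) + 2 := by
    rw [h2]
    rcases Nat.lt_or_ge x q with hxq | hqx
    · -- at most one element
      have h3 : (AP y q r).card ≤ 1 := by
        have := card_AP (x := y) (r := r) (show 0 < q by omega)
        rwa [Nat.div_eq_of_lt (by omega), zero_add] at this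
      have h4 : ∀ n, |∏ h ∈ H, bit (n + h) S - ∏ h ∈ H, g (n + h)| ≤ 1 := by
        intro n
        have a1 : 0 ≤ ∏ h ∈ H, bit (n + h) S := prod_nonneg fun h _ => by
          rw [bit_eq]; split_ifs <;> norm_num
        have a2 : ∏ h ∈ H, bit (n + h) S ≤ 1 := prod_le_one
          (fun h _ => by rw [bit_eq]; split_ifs <;> norm_num)
          (fun h _ => by rw [bit_eq]; split_ifs <;> norm_num)
        have a3 : 0 ≤ ∏ h ∈ H, g (n + h) := prod_nonneg fun h _ => g_nonneg _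
        have a4 : ∏ h ∈ H, g (n + h) ≤ 1 := prod_le_one (fun h _ => g_nonneg _)
          (fun h _ => g_le_one _)
        rw [abs_le]
        constructor <;> linarith
      have h5 : |∑ n ∈ AP y q r, ∏ h ∈ H, bit (n + h) S -
          ∑ n ∈ AP y q r, ∏ h ∈ H, g (n + h)| ≤ 1 := by
        rw [← sum_sub_distrib]
        refine (abs_sum_le_sum_abs _ _).trans ((sum_le_sum fun n _ => h4 n).trans ?_)
        rw [sum_const, nsmul_eq_mul, mul_one]
        exact_mod_cast h3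
      have h6 : 0 ≤ 2 ^ k * C * 2 ^ (1 / 2 + ε) * (x : ℝ) ^ (1 / 2 + ε) := by positivity
      linarith
    · set h : Fin k → ℕ := fun i => H.orderEmbOfFin hH i with hh
      have hinj : Function.Injective h := fun i j hij => (H.orderEmbOfFin hH).injective hij
      have hhx : ∀ i, h i ≤ x := fun i => hHx _ (H.orderEmbOfFin_mem hH i)
      have h3 : ∑ n ∈ AP y q r, ∏ h ∈ H, bit (n + h) S =
          ∑ T : Finset (Fin k), ∑ n ∈ AP y q r, wt h T n * ∏ i : T, z (n + h i) S := by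
        rw [← expand]
        exact sum_congr rfl fun n _ => prod_fin H hH (fun m => bit (n + m) S)
      have h4 : ∑ n ∈ AP y q r, ∏ h ∈ H, g (n + h) =
          ∑ n ∈ AP y q r, wt h ∅ n * ∏ i : (∅ : Finset (Fin k)), z (n + h i) S := by
        refine sum_congr rfl fun n _ => ?_
        rw [prod_coe_sort (∅ : Finset (Fin k)) (fun i => z (n + h i) S), prod_empty, mul_one]
        unfold wt
        rw [sdiff_empty]
        exact prod_fin H hH (fun m => g (n + m))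
      rw [h3, h4, ← sum_erase_add _ _ (mem_univ ∅), add_sub_cancel_right]
      refine (abs_sum_le_sum_abs _ _).trans ?_
      have h5 : ∀ T ∈ (univ : Finset (Finset (Fin k))).erase ∅,
          |∑ n ∈ AP y q r, wt h T n * ∏ i : T, z (n + h i) S| ≤
            C * ((x : ℝ) + 1) ^ (1 / 2 + ε) := by
        intro T hT
        exact hC x y q r hx hy hq hqx hr h hinj hhx T
          (nonempty_iff_ne_empty.2 (ne_of_mem_erase hT))
      refine (sum_le_sum h5).trans ?_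
      rw [sum_const, nsmul_eq_mul]
      have h6 : ((univ : Finset (Finset (Fin k))).erase ∅).card ≤ 2 ^ k := by
        refine (card_erase_le).trans ?_
        rw [card_univ, Fintype.card_finset, Fintype.card_fin]
      have h7 : (((univ : Finset (Finset (Fin k))).erase ∅).card : ℝ) ≤ 2 ^ k := by
        exact_mod_cast h6
      have h8 := add_one_rpow_le hx (show (0 : ℝ) ≤ 1 / 2 + ε by positivity)
      calc (((univ : Finset (Finset (Fin k))).erase ∅).card : ℝ) *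
            (C * ((x : ℝ) + 1) ^ (1 / 2 + ε)) ≤
          2 ^ k * (C * (2 ^ (1 / 2 + ε) * (x : ℝ) ^ (1 / 2 + ε))) := by
            gcongr
        _ ≤ _ := by linarith
  have h9 : |cnt - expected H y q a| ≤ |cnt - ∑ n ∈ AP y q r, ∏ h ∈ H, bit (n + h) S| +
      |∑ n ∈ AP y q r, ∏ h ∈ H, bit (n + h) S - expected H y q a| := abs_sub_le _ _ _
  calc |cnt - expected H y q a| ≤ 3 + (2 ^ k * C * 2 ^ (1 / 2 + ε) * (x : ℝ) ^ (1 / 2 + ε) + 2) :=
        h9.trans (add_le_add h1 hmain)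
    _ ≤ _ := by nlinarith

end Pool.Agent.H69.LB
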