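import Pool.Agent.H69.LB.Tup

/-! # Pair correlations give the level of distribution one half -/

set_option autoImplicit false

namespace Pool.Agent.H69.LB

open Finset

/-- every set is of the form `setA S` -/
lemma exists_setA (A : Set ℕ) : ∃ S, setA S = A := by
  refine ⟨{m | ∃ n ∈ A, m = 2 * n + 1}, ?_⟩
  ext n
  unfold setA
  show (∃ n_1 ∈ A, 2 * n + 1 = 2 * n_1 + 1) ↔ n ∈ A
  constructor
  · rintro ⟨m, hm, h⟩
    have : n = m := by omega
    rwa [this]
  · intro h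
    exact ⟨n, h, rfl⟩

lemma AP_one (y : ℕ) : AP y 1 0 = Icc 3 y := by
  ext n
  rw [mem_AP, mem_Icc]
  simp [Nat.mod_one]

lemma abel (w f : ℕ → ℝ) (B : ℝ) (hw0 : ∀ n, 3 ≤ n → 0 ≤ w n) (hw1 : w 3 ≤ 1)
    (hw : ∀ n, 3 ≤ n → w (n + 1) ≤ w n) (Y : ℕ) (hB : ∀ y ≤ Y, |∑ n ∈ Icc 3 y, f n| ≤ B) :
    |∑ n ∈ Icc 3 Y, w n * f n| ≤ B := by
  have hB0 : 0 ≤ B := (abs_nonneg _).trans (hB Y le_rfl)
  rcases Nat.lt_or_ge Y 3 with h3 | h3
  · rw [Icc_eq_empty (by omega), sum_empty, abs_zero]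
    exact hB0
  have key : ∀ y, 2 ≤ y → ∑ n ∈ Icc 3 y, w n * f n = w (y + 1) * ∑ n ∈ Icc 3 y, f n +
      ∑ n ∈ Icc 3 y, (w n - w (n + 1)) * ∑ m ∈ Icc 3 n, f m := by
    intro y hy
    induction y, hy using Nat.le_induction with
    | base => simp
    | succ y hy ih =>
      rw [← insert_Icc_right_eq_Icc_add_one (by omega)]
      have hn : y + 1 ∉ Icc 3 y := by
        rw [mem_Icc]
        omega
      rw [sum_insert hn, sum_insert hn, sum_insert hn, ih,
        ← insert_Icc_right_eq_Icc_add_one (by omega), sum_insert hn]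
      ring
  have tele : ∀ y, 2 ≤ y → ∑ n ∈ Icc 3 y, (w n - w (n + 1)) = w 3 - w (y + 1) := by
    intro y hy
    induction y, hy using Nat.le_induction with
    | base => simp
    | succ y hy ih =>
      rw [← insert_Icc_right_eq_Icc_add_one (by omega)]
      have hn : y + 1 ∉ Icc 3 y := by
        rw [mem_Icc]
        omega
      rw [sum_insert hn, ih]
      ring
  rw [key Y (by omega)]
  calc |w (Y + 1) * ∑ n ∈ Icc 3 Y, f n + ∑ n ∈ Icc 3 Y, (w n - w (n + 1)) * ∑ m ∈ Icc 3 n, f m|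
      ≤ |w (Y + 1) * ∑ n ∈ Icc 3 Y, f n| +
        |∑ n ∈ Icc 3 Y, (w n - w (n + 1)) * ∑ m ∈ Icc 3 n, f m| := abs_add_le _ _
    _ ≤ w (Y + 1) * B + ∑ n ∈ Icc 3 Y, (w n - w (n + 1)) * B := by
        apply add_le_add
        · rw [abs_mul, abs_of_nonneg (hw0 _ (by omega))]
          exact mul_le_mul_of_nonneg_left (hB Y le_rfl) (hw0 _ (by omega))
        · refine (abs_sum_le_sum_abs _ _).trans (sum_le_sum fun n hn => ?_)
          rw [mem_Icc] at hn
          have h1 := hw n hn.1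
          rw [abs_mul, abs_of_nonneg (by linarith)]
          exact mul_le_mul_of_nonneg_left (hB n hn.2) (by linarith)
    _ = w 3 * B := by
        rw [← sum_mul, tele Y (by omega)]
        ring
    _ ≤ B := by nlinarith

lemma sq_sum (N : Finset ℕ) (f : ℕ → ℝ) : (∑ n ∈ N, f n) ^ 2 =
    ∑ n ∈ N, f n ^ 2 + 2 * ∑ n ∈ N, f n * ∑ m ∈ N.filter (fun m => n < m), f m := by
  induction N using Finset.induction_on_max with
  | empty => simp
  | insert a s ha ih =>
    have hn : a ∉ s := fun h => lt_irrefl _ (ha a h)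
    rw [sum_insert hn, sum_insert hn, sum_insert hn]
    have h1 : (insert a s).filter (fun m => a < m) = ∅ := by
      rw [filter_eq_empty_iff]
      intro m hm h
      rcases mem_insert.1 hm with h2 | h2
      · omega
      · exact absurd (ha m h2) (by omega)
    have h2 : ∀ n ∈ s, f n * ∑ m ∈ (insert a s).filter (fun m => n < m), f m =
        f n * ∑ m ∈ s.filter (fun m => n < m), f m + f n * f a := by
      intro n hns
      rw [filter_insert, if_pos (ha n hns), sum_insert (by simp [hn])]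
      ring
    rw [h1, sum_empty, mul_zero, zero_add, sum_congr rfl h2, sum_add_distrib, ← sum_mul]
    have h3 := ih
    nlinarith [h3]

/-- the variance -/
lemma variance (f : ℕ → ℝ) (hf : ∀ n, |f n| ≤ 1) (x : ℕ) {d : ℕ} (hd : 0 < d) (B : ℝ)
    (hB : ∀ j ∈ Icc 1 (x / d), |∑ n ∈ Icc 3 (x - j * d), f n * f (n + j * d)| ≤ B) {r : ℕ}
    (hr : r < d) :
    (∑ n ∈ AP x d r, f n) ^ 2 ≤ x + 2 * ((x / d : ℕ) * B) := by
  classical
  have h1 : (∑ n ∈ AP x d r, f n) ^ 2 ≤ ∑ r ∈ range d, (∑ n ∈ AP x d r, f n) ^ 2 :=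
    single_le_sum (f := fun r => (∑ n ∈ AP x d r, f n) ^ 2) (fun _ _ => sq_nonneg _)
      (mem_range.2 hr)
  refine h1.trans ?_
  have h2 : ∀ (G : ℕ → ℝ), ∑ r ∈ range d, ∑ n ∈ AP x d r, G n = ∑ n ∈ Icc 3 x, G n := by
    intro G
    unfold AP
    exact sum_fiberwise_of_maps_to (fun n _ => mem_range.2 (Nat.mod_lt n hd)) G
  have h3 : ∀ r ∈ range d, (∑ n ∈ AP x d r, f n) ^ 2 = ∑ n ∈ AP x d r, (f n ^ 2 +
      2 * (f n * ∑ j ∈ Icc 1 (x / d), if n + j * d ≤ x then f (n + j * d) else 0)) := by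
    intro r hr
    rw [sq_sum, sum_add_distrib, ← mul_sum]
    congr 2
    refine sum_congr rfl fun n hn => ?_
    congr 1
    rw [← sum_filter]
    rw [mem_AP] at hn
    symm
    apply sum_bij (fun j _ => n + j * d)
    · intro j hj
      rw [mem_filter, mem_Icc] at hj
      rw [mem_filter, mem_AP]
      have h4 : d ≤ j * d := Nat.le_mul_of_pos_left d (by omega)
      refine ⟨⟨⟨by omega, hj.2⟩, ?_⟩, by omega⟩
      rw [Nat.add_mul_mod_self_right]
      exact hn.2
    · intro a _ b _ hab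
      exact Nat.eq_of_mul_eq_mul_right hd (Nat.add_left_cancel hab)
    · intro m hm
      rw [mem_filter, mem_AP] at hm
      have h5 : n ≡ m [MOD d] := by
        show n % d = m % d
        rw [hn.2, hm.1.2]
      have h6 := (Nat.modEq_iff_dvd' hm.2.le).1 h5
      obtain ⟨j, hj⟩ := h6
      have h7 : m = n + j * d := by
        rw [mul_comm] at hj
        omega
      refine ⟨j, ?_, h7.symm⟩
      rw [mem_filter, mem_Icc, ← h7]
      refine ⟨⟨?_, ?_⟩, hm.1.1.2⟩
      · rcases Nat.eq_zero_or_pos j with h8 | h8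
        · rw [h8] at h7
          omega
        · exact h8
      · rw [Nat.le_div_iff_mul_le hd]
        omega
    · intro j _
      rfl
  rw [sum_congr rfl h3, h2, sum_add_distrib, ← mul_sum]
  apply add_le_add
  · calc ∑ n ∈ Icc 3 x, f n ^ 2 ≤ ∑ n ∈ Icc 3 x, (1 : ℝ) := by
          refine sum_le_sum fun n _ => ?_
          rw [← sq_abs]
          have := abs_nonneg (f n)
          have := hf n
          nlinarith
      _ ≤ x := by
          rw [sum_const, nsmul_eq_mul, mul_one, Nat.card_Icc]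
          exact_mod_cast (by omega : x + 1 - 3 ≤ x)
  · have h4 : ∑ n ∈ Icc 3 x, f n * ∑ j ∈ Icc 1 (x / d),
        (if n + j * d ≤ x then f (n + j * d) else 0) =
        ∑ j ∈ Icc 1 (x / d), ∑ n ∈ Icc 3 (x - j * d), f n * f (n + j * d) := by
      simp_rw [mul_sum]
      rw [sum_comm]
      refine sum_congr rfl fun j hj => ?_
      have h5 : j * d ≤ x := by
        rw [mem_Icc, Nat.le_div_iff_mul_le hd] at hj
        exact hj.2
      have h6 : Icc 3 (x - j * d) = (Icc 3 x).filter (fun n => n + j * d ≤ x) := by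
        ext n
        rw [mem_filter, mem_Icc, mem_Icc]
        omega
      rw [h6, sum_filter]
      refine sum_congr rfl fun n _ => ?_
      split_ifs <;> simp
    rw [h4]
    have h5 : ∑ j ∈ Icc 1 (x / d), ∑ n ∈ Icc 3 (x - j * d), f n * f (n + j * d) ≤
        (x / d : ℕ) * B := by
      calc _ ≤ ∑ j ∈ Icc 1 (x / d), B := sum_le_sum fun j hj => (le_abs_self _).trans (hB j hj)
        _ = (x / d : ℕ) * B := by
          rw [sum_const, nsmul_eq_mul, Nat.card_Icc, Nat.add_sub_cancel]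
    linarith

lemma abs_z_le (n : ℕ) (S : Set ℕ) : |z n S| ≤ 1 := by
  have h1 := g_nonneg n
  have h2 := g_le_one n
  unfold z
  rw [bit_eq, abs_le]
  split_ifs <;> constructor <;> linarith

/-- the sums of the fluctuations -/
lemma single_sum {S : Set ℕ} {ε C : ℝ} (hC : ∀ x : ℕ, 1 ≤ x → ∀ y ≤ x, ∀ H : Finset ℕ,
      H.card = 1 → (∀ h ∈ H, h ≤ x) →
      |(count (setA S) H y 1 0 : ℝ) - expected H y 1 0| ≤ C * (x : ℝ) ^ (1 / 2 + ε))
    {x y h : ℕ} (hx : 1 ≤ x) (hy : y ≤ x) (hh : h ≤ x) :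
    |∑ n ∈ Icc 3 y, z (n + h) S| ≤ C * (x : ℝ) ^ (1 / 2 + ε) + 3 := by
  obtain ⟨r, hr, hr', -⟩ := exists_res (le_refl 1) 0
  have hr0 : r = 0 := by omega
  subst hr0
  have h1 := hC x hx y hy {h} (card_singleton h) (by simpa using hh)
  have h2 := count_eq S {h} y hr'
  have h3 := expected_eq {h} y hr'
  rw [AP_one] at h2 h3
  simp only [prod_singleton] at h2 h3
  rw [h3] at h1
  unfold z
  rw [sum_sub_distrib]
  rw [abs_le] at h1 h2 ⊢
  constructor <;> linarith [h1.1, h1.2, h2.1, h2.2]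

lemma pair_sum {S : Set ℕ} {ε C : ℝ} (hC : ∀ x : ℕ, 1 ≤ x → ∀ y ≤ x, ∀ H : Finset ℕ,
      H.card = 2 → (∀ h ∈ H, h ≤ x) →
      |(count (setA S) H y 1 0 : ℝ) - expected H y 1 0| ≤ C * (x : ℝ) ^ (1 / 2 + ε))
    {x y h : ℕ} (hx : 1 ≤ x) (hy : y ≤ x) (hh : h ≤ x) (hh0 : 1 ≤ h) :
    |∑ n ∈ Icc 3 y, (bit n S * bit (n + h) S - g n * g (n + h))| ≤
      C * (x : ℝ) ^ (1 / 2 + ε) + 3 := by
  obtain ⟨r, hr, hr', -⟩ := exists_res (le_refl 1) 0
  have hr0 : r = 0 := by omega
  subst hr0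
  have hne : (0 : ℕ) ≠ h := by omega
  have h1 := hC x hx y hy {0, h} (card_pair hne) (by simpa using hh)
  have h2 := count_eq S {0, h} y hr'
  have h3 := expected_eq {0, h} y hr'
  rw [AP_one] at h2 h3
  simp only [prod_pair hne, add_zero] at h2 h3
  rw [h3] at h1
  rw [sum_sub_distrib]
  rw [abs_le] at h1 h2 ⊢
  constructor <;> linarith [h1.1, h1.2, h2.1, h2.2]

/-- the correlations of the fluctuations -/
lemma corr_sum {S : Set ℕ} {ε C C' : ℝ} (hC : ∀ x : ℕ, 1 ≤ x → ∀ y ≤ x, ∀ H : Finset ℕ,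
      H.card = 1 → (∀ h ∈ H, h ≤ x) →
      |(count (setA S) H y 1 0 : ℝ) - expected H y 1 0| ≤ C * (x : ℝ) ^ (1 / 2 + ε))
    (hC' : ∀ x : ℕ, 1 ≤ x → ∀ y ≤ x, ∀ H : Finset ℕ,
      H.card = 2 → (∀ h ∈ H, h ≤ x) →
      |(count (setA S) H y 1 0 : ℝ) - expected H y 1 0| ≤ C' * (x : ℝ) ^ (1 / 2 + ε))
    {x y h : ℕ} (hx : 1 ≤ x) (hy : y ≤ x) (hh : h ≤ x) (hh0 : 1 ≤ h) :
    |∑ n ∈ Icc 3 y, z n S * z (n + h) S| ≤ (C' + 2 * C) * (x : ℝ) ^ (1 / 2 + ε) + 9 := by
  have h1 := pair_sum hC' hx hy hh hh0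
  have h2 := abel g (fun n => z (n + h) S) (C * (x : ℝ) ^ (1 / 2 + ε) + 3)
    (fun n _ => g_nonneg n) (g_le_one 3) (fun n hn => g_anti hn (by omega)) y
    (fun y' hy' => single_sum hC hx (hy'.trans hy) hh)
  have h3 := abel (fun n => g (n + h)) (fun n => z n S) (C * (x : ℝ) ^ (1 / 2 + ε) + 3)
    (fun n _ => g_nonneg _) (g_le_one _) (fun n hn => g_anti (by omega) (by omega)) y
    (fun y' hy' => by
      have := single_sum hC hx (hy'.trans hy) (Nat.zero_le x)
      simpa using this)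
  have h4 : ∑ n ∈ Icc 3 y, z n S * z (n + h) S =
      ∑ n ∈ Icc 3 y, (bit n S * bit (n + h) S - g n * g (n + h)) -
      ∑ n ∈ Icc 3 y, g n * z (n + h) S - ∑ n ∈ Icc 3 y, g (n + h) * z n S := by
    rw [← sum_sub_distrib, ← sum_sub_distrib]
    refine sum_congr rfl fun n _ => ?_
    unfold z
    ring
  rw [h4]
  rw [abs_le] at h1 h2 h3 ⊢
  constructor <;> linarith [h1.1, h1.2, h2.1, h2.2, h3.1, h3.2]

/-- the error and the sum of the fluctuations -/
lemma err_le (S : Set ℕ) (x : ℕ) {d r : ℕ} {a : ℤ} (hd : 0 < d) (hrd : r < d)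
    (hr : ∀ n : ℕ, (n : ℤ) ≡ a [ZMOD d] ↔ n % d = r) :
    |err (setA S) x d a - ∑ n ∈ AP x d r, z n S| ≤ 4 := by
  have h1 := count_eq S {0} x hr
  simp only [prod_singleton, add_zero] at h1
  have h2 : AP x d r = Q198.CI.CL 3 x d r := by
    ext n
    rw [mem_AP, Q198.CI.mem_CL]
  have h3 : liSum x = ∑ n ∈ Ico 3 (x + 1), g n := by
    unfold liSum
    have : Icc 3 x = Ico 3 (x + 1) := by
      ext n
      rw [mem_Icc, mem_Ico, Nat.lt_succ_iff]
    rw [this]
    refine sum_congr rfl fun n hn => ?_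
    rw [mem_Ico] at hn
    unfold g
    rw [if_neg (by omega)]
  have h4 := Q198.CI.CL_share (f := g) (n₀ := 3) (N := x) hd hrd (fun n _ => g_nonneg n)
    (fun n m hn hnm => g_anti hn hnm)
  rw [← h2, ← h3] at h4
  have h5 := g_le_one 3
  unfold err
  have h6 : ∑ n ∈ AP x d r, z n S = ∑ n ∈ AP x d r, bit n S - ∑ n ∈ AP x d r, g n := by
    rw [← sum_sub_distrib]
    rfl
  rw [h6]
  rw [abs_le] at h1 h4 ⊢
  constructor <;> linarith [h1.1, h1.2, h4.1, h4.2]

/-- Square-root accurate pair correlations give the level of distribution `1/2`. -/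
theorem admissible_of_correlations (A : Set ℕ) (h1 : Correlations A 1) (h2 : Correlations A 2)
    {α : ℝ} (hα : α < 1 / 2) : Admissible A α := by
  classical
  obtain ⟨S, rfl⟩ := exists_setA A
  intro U hU
  set η : ℝ := (1 / 2 - α) / 8 with hη
  have hη0 : 0 < η := by rw [hη]; linarith
  have hαη : α = 1 / 2 - 8 * η := by rw [hη]; ring
  obtain ⟨C1, hC1⟩ := h1 η hη0
  obtain ⟨C2, hC2⟩ := h2 η hη0
  obtain ⟨C3, hC30, hC3⟩ := rpow_le_div_log hU hη0
  set K : ℝ := 2 * (|C2| + 2 * |C1| + 9) with hK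
  have hK0 : 0 < K := by positivity
  refine ⟨(6 + K * (1 + 1 / η)) * C3, fun x hx l hl => ?_⟩
  have hx0 : 0 < x := by linarith
  have hx1 : 1 ≤ x := by linarith
  set N := ⌊x⌋₊ with hN
  have hNx : (N : ℝ) ≤ x := Nat.floor_le hx0.le
  have hN1 : 1 ≤ N := Nat.le_floor (by simpa using hx1)
  have hN1' : (1 : ℝ) ≤ N := by exact_mod_cast hN1
  set D := ⌊x ^ α⌋₊ with hD
  have hDx : (D : ℝ) ≤ x ^ α := Nat.floor_le (by positivity)
  set E : ℝ := x ^ (1 / 2 + η) with hE
  have hE0 : 0 < E := by positivity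
  -- one modulus
  have hone : ∀ d ∈ Icc 1 D, |err (setA S) N d (l d)| ≤ 4 +
      ((x + K * (x * E) * (1 / (d : ℝ))) / x ^ (1 - η - α) + x ^ (1 - η - α)) := by
    intro d hd
    rw [mem_Icc] at hd
    obtain ⟨r, hr, hr', -⟩ := exists_res hd.1 (l d : ℤ)
    have hd0 : (0 : ℝ) < d := by exact_mod_cast hd.1
    have e1 := err_le S N hd.1 hr hr'
    have e2 : (∑ n ∈ AP N d r, z n S) ^ 2 ≤ x + K * (x * E) * (1 / (d : ℝ)) := by
      have e3 := variance (fun n => z n S) (fun n => abs_z_le n S) N hd.1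
        ((|C2| + 2 * |C1| + 9) * E) (by
          intro j hj
          rw [mem_Icc, Nat.le_div_iff_mul_le hd.1] at hj
          have hjd : 1 ≤ j * d := Nat.mul_pos hj.1 hd.1
          refine (corr_sum hC1 hC2 hN1 (Nat.sub_le _ _) hj.2 hjd).trans ?_
          have e4 : (N : ℝ) ^ (1 / 2 + η) ≤ E :=
            Real.rpow_le_rpow (by positivity) hNx (by positivity)
          have e5 : 0 ≤ (N : ℝ) ^ (1 / 2 + η) := by positivity
          have e6 : 1 ≤ E := Real.one_le_rpow hx1 (by positivity)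
          calc (C2 + 2 * C1) * (N : ℝ) ^ (1 / 2 + η) + 9 ≤
              (|C2| + 2 * |C1|) * (N : ℝ) ^ (1 / 2 + η) + 9 := by
                gcongr
                · exact le_abs_self _
                · exact le_abs_self _
            _ ≤ (|C2| + 2 * |C1|) * E + 9 * E := by
                apply add_le_add
                · exact mul_le_mul_of_nonneg_left e4 (by positivity)
                · linarith
            _ = _ := by ring) hr
      refine e3.trans ?_
      have e7 : ((N / d : ℕ) : ℝ) ≤ x / d := by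
        refine Nat.cast_div_le.trans ?_
        gcongr
      calc (N : ℝ) + 2 * (((N / d : ℕ) : ℝ) * ((|C2| + 2 * |C1| + 9) * E)) ≤
          x + 2 * ((x / d) * ((|C2| + 2 * |C1| + 9) * E)) := by gcongr
        _ = _ := by
          rw [hK]
          ring
    have e8 : |∑ n ∈ AP N d r, z n S| ≤ √(x + K * (x * E) * (1 / (d : ℝ))) := by
      rw [← Real.sqrt_sq_eq_abs]
      exact Real.sqrt_le_sqrt e2
    have e9 := sqrt_le_avg (u := x + K * (x * E) * (1 / (d : ℝ))) (lam := x ^ (1 - η - α))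
      (by positivity) (by positivity)
    have e10 : |err (setA S) N d (l d)| ≤ |err (setA S) N d (l d) - ∑ n ∈ AP N d r, z n S| +
        |∑ n ∈ AP N d r, z n S| := by
      have := abs_add_le (err (setA S) N d (l d) - ∑ n ∈ AP N d r, z n S) (∑ n ∈ AP N d r, z n S)
      rwa [sub_add_cancel] at this
    linarith
  -- the sum
  have hDle : (D : ℝ) ≤ x := hDx.trans (by
    calc x ^ α ≤ x ^ (1 : ℝ) := Real.rpow_le_rpow_of_exponent_le hx1 (by linarith)
      _ = x := Real.rpow_one x)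
  have hharm := sum_inv_le hx1 hDle
  have hlog : 1 + Real.log x ≤ (1 + 1 / η) * x ^ η := by
    have a1 := Real.log_le_rpow_div hx0.le hη0
    have a2 : 1 ≤ x ^ η := Real.one_le_rpow hx1 hη0.le
    calc 1 + Real.log x ≤ x ^ η + x ^ η / η := add_le_add a2 a1
      _ = _ := by ring
  set L : ℝ := x ^ (1 - η - α) with hL
  have hL0 : 0 < L := by positivity
  have hT : 0 < x ^ (1 - η) := by positivity
  have b1 : x ^ α ≤ x ^ (1 - η) := Real.rpow_le_rpow_of_exponent_le hx1 (by linarith)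
  have b2 : x ^ α * x / L ≤ x ^ (1 - η) := by
    rw [hL, div_le_iff₀ (by positivity), ← Real.rpow_add hx0]
    nth_rewrite 2 [← Real.rpow_one x]
    rw [← Real.rpow_add hx0]
    exact Real.rpow_le_rpow_of_exponent_le hx1 (by linarith)
  have b3 : x * E * x ^ η / L ≤ x ^ (1 - η) := by
    rw [hL, hE, div_le_iff₀ (by positivity), ← Real.rpow_add hx0]
    nth_rewrite 1 [← Real.rpow_one x]
    rw [← Real.rpow_add hx0, ← Real.rpow_add hx0]
    exact Real.rpow_le_rpow_of_exponent_le hx1 (by linarith)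
  have b4 : x ^ α * L = x ^ (1 - η) := by
    rw [hL, ← Real.rpow_add hx0]
    congr 1
    ring
  have hsum : ∑ d ∈ (Icc 1 D).filter Squarefree, |err (setA S) N d (l d)| ≤
      (6 + K * (1 + 1 / η)) * x ^ (1 - η) := by
    calc ∑ d ∈ (Icc 1 D).filter Squarefree, |err (setA S) N d (l d)|
        ≤ ∑ d ∈ Icc 1 D, |err (setA S) N d (l d)| :=
          sum_le_sum_of_subset_of_nonneg (filter_subset _ _) fun _ _ _ => abs_nonneg _
      _ ≤ ∑ d ∈ Icc 1 D, (4 + ((x + K * (x * E) * (1 / (d : ℝ))) / L + L)) := sum_le_sum hone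
      _ = (D : ℝ) * 4 + ((D : ℝ) * x / L + K * (x * E) / L * ∑ d ∈ Icc 1 D, 1 / (d : ℝ) +
          (D : ℝ) * L) := by
          rw [sum_add_distrib, sum_add_distrib, sum_const, sum_const, Nat.card_Icc,
            Nat.add_sub_cancel, nsmul_eq_mul, nsmul_eq_mul, ← sum_div, sum_add_distrib,
            ← mul_sum, sum_const, Nat.card_Icc, Nat.add_sub_cancel, nsmul_eq_mul]
          ring
      _ ≤ x ^ α * 4 + (x ^ α * x / L + K * (x * E) / L * ((1 + 1 / η) * x ^ η) +
          x ^ α * L) := by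
          gcongr
          exact hharm.trans hlog
      _ = 4 * x ^ α + x ^ α * x / L + K * (1 + 1 / η) * (x * E * x ^ η / L) + x ^ α * L := by
          ring
      _ ≤ 4 * x ^ (1 - η) + x ^ (1 - η) + K * (1 + 1 / η) * x ^ (1 - η) + x ^ (1 - η) := by
          rw [b4]
          gcongr
      _ = _ := by ring
  calc _ ≤ (6 + K * (1 + 1 / η)) * x ^ (1 - η) := hsum
    _ ≤ (6 + K * (1 + 1 / η)) * (C3 * (x / (Real.log x) ^ U)) := by
        apply mul_le_mul_of_nonneg_left (hC3 x hx) (by positivity)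
    _ = _ := by ring

end Pool.Agent.H69.LB
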